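import Mathlib

set_option autoImplicit false

/-!
# Divergent and obvious orbits of split subgroups on `SL_n(ℝ)/Γ`: definitions

`SLR ι` is the group `SL_ι(ℝ)`; `SLZ ι` is the subgroup `SL_ι(ℤ)`; `Lie ι` is the space of vectors
`z : ι → ℝ` with `∑ z i = 0` (the Lie algebra of the diagonal torus) and `expD z` the diagonal
matrix with entries `exp (z i)`.
-/

namespace Pool.Agent.W_MP_bb6588_an

open Matrix Filter Topology

variable {ι : Type} [Fintype ι] [DecidableEq ι]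

/-- The group `SL_ι(ℝ)`. -/
abbrev SLR (ι : Type) [Fintype ι] [DecidableEq ι] : Type := Matrix.SpecialLinearGroup ι ℝ

/-- The subgroup `SL_ι(ℤ)` of `SL_ι(ℝ)`. -/
def SLZ (ι : Type) [Fintype ι] [DecidableEq ι] : Subgroup (SLR ι) :=
  (Matrix.SpecialLinearGroup.map (n := ι) (Int.castRingHom ℝ)).range

/-- The vectors `z : ι → ℝ` with `∑ i, z i = 0`. -/
def Lie (ι : Type) [Fintype ι] : Submodule ℝ (ι → ℝ) where
  carrier := {z | ∑ i, z i = 0}
  add_mem' := by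
    intro a b ha hb
    simp only [Set.mem_ofPred_eq, Pi.add_apply, Finset.sum_add_distrib] at *
    rw [ha, hb, add_zero]
  zero_mem' := by simp
  smul_mem' := by
    intro c a ha
    simp only [Set.mem_ofPred_eq, Pi.smul_apply, smul_eq_mul, ← Finset.mul_sum] at *
    rw [ha, mul_zero]

omit [DecidableEq ι] in
theorem sum_eq_zero (z : Lie ι) : ∑ i, (z : ι → ℝ) i = 0 := z.2

/-- The diagonal matrix with entries `exp (z i)`. -/
noncomputable def expD (z : Lie ι) : SLR ι :=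
  ⟨Matrix.diagonal fun i => Real.exp ((z : ι → ℝ) i), by
    rw [Matrix.det_diagonal, ← Real.exp_sum, sum_eq_zero z, Real.exp_zero]⟩

/-- For a subspace `E` of `Lie ι` let `D = {h exp(z) h⁻¹ : z ∈ E}`. The orbit `D g Γ` in
`SL_ι(ℝ)/Γ` is divergent: the orbit map leaves every compact set as `z → ∞` in `E`. -/
def IsDivergent (Γ : Subgroup (SLR ι)) (h : SLR ι) (E : Submodule ℝ (Lie ι)) (g : SLR ι) : Prop :=
  Tendsto (fun z : E => ((h * expD (z : Lie ι) * h⁻¹ * g : SLR ι) : SLR ι ⧸ Γ))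
    (cocompact E) (cocompact (SLR ι ⧸ Γ))

/-- The homomorphism `ρ : SL_ι(ℝ) → GL_m(ℝ)` is a `ℚ`-representation: the entries of `ρ g` are
polynomials with rational coefficients in the entries of `g`. -/
def IsRationalRep {m : ℕ} (ρ : SLR ι →* GL (Fin m) ℝ) : Prop :=
  ∃ P : Fin m → Fin m → MvPolynomial (ι × ι) ℚ,
    ∀ (g : SLR ι) (a b : Fin m),
      (ρ g : Matrix (Fin m) (Fin m) ℝ) a b =
        MvPolynomial.aeval (fun p : ι × ι => (g : Matrix ι ι ℝ) p.1 p.2) (P a b)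

/-- The orbit of `g Γ` under `D = {h exp(z) h⁻¹ : z ∈ E}` is obvious: there are finitely many
`ℚ`-representations `ρ i` and nonzero rational vectors `v i` such that for every sequence
`d_k → ∞` in `D` there are an index `i` and a subsequence along which `ρ i (d_k g) (v i) → 0`. -/
def IsObvious (h : SLR ι) (E : Submodule ℝ (Lie ι)) (g : SLR ι) : Prop :=
  ∃ (l : ℕ) (m : Fin l → ℕ) (ρ : ∀ i : Fin l, SLR ι →* GL (Fin (m i)) ℝ)
    (v : ∀ i : Fin l, Fin (m i) → ℚ),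
    (∀ i, IsRationalRep (ρ i)) ∧ (∀ i, v i ≠ 0) ∧
    ∀ z : ℕ → E, Tendsto z atTop (cocompact E) →
      ∃ (i : Fin l) (φ : ℕ → ℕ), StrictMono φ ∧
        Tendsto (fun k => (ρ i (h * expD (z (φ k) : Lie ι) * h⁻¹ * g) :
          Matrix (Fin (m i)) (Fin (m i)) ℝ) *ᵥ (fun a => (v i a : ℝ))) atTop (𝓝 0)

/-! ## Auxiliary notions used in the proof -/

/-- `f` makes some nonzero integer vector or covector `ε`-short. -/
def Short (f : SLR ι) (ε : ℝ) : Prop :=
  (∃ u : ι → ℤ, u ≠ 0 ∧ ∀ i, |((f : Matrix ι ι ℝ) *ᵥ fun j => (u j : ℝ)) i| < ε) ∨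
  (∃ u : ι → ℤ, u ≠ 0 ∧ ∀ i, |(((f⁻¹ : SLR ι) : Matrix ι ι ℝ)ᵀ *ᵥ fun j => (u j : ℝ)) i| < ε)

/-- The entrywise `ℓ¹` norm of a matrix. -/
def nrm (M : Matrix ι ι ℝ) : ℝ := ∑ i, ∑ j, |M i j|

/-- All rows and columns of `g` with index outside `J` are those of the identity matrix. -/
def FixOff (J : Finset ι) (g : SLR ι) : Prop :=
  ∀ i, i ∉ J → ∀ j, (g : Matrix ι ι ℝ) i j = (1 : Matrix ι ι ℝ) i j ∧
    (g : Matrix ι ι ℝ) j i = (1 : Matrix ι ι ℝ) j i

/-- The transvection `1 + t E_{ij}` for `q = (i, j)`, `i ≠ j` (and `1` if `i = j`). -/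
noncomputable def tv (q : ι × ι) (t : ℝ) : SLR ι :=
  if h : q.1 ≠ q.2 then Matrix.SpecialLinearGroup.transvection h t else 1

/-- Digit sequences `b` with `b l ∈ {0, …, l}`. -/
abbrev Dig : Type := ∀ l : ℕ, Fin (l + 1)

/-- The size of the `l`-th step: `b l / 2^{(l+1)!}`. -/
noncomputable def step (b : Dig) (l : ℕ) : ℝ := ((b l : ℕ) : ℝ) / 2 ^ (l + 1).factorial

/-- Partial products: `part p b (l+1) = (1 + t_l E_{p_l}) * part p b l`. -/
noncomputable def part (p : ℕ → ι × ι) (b : Dig) : ℕ → SLR ι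
  | 0 => 1
  | l + 1 => tv (p l) (step b l) * part p b l

/-- `A l = 1! + 2! + ⋯ + l!`. -/
def expo (l : ℕ) : ℕ := ∑ i ∈ Finset.range l, (i + 1).factorial

/-- The tail bound `4 (l+1) / 2^{(l+1)!}`. -/
noncomputable def dlt (l : ℕ) : ℝ := 4 * ((l : ℝ) + 1) / 2 ^ (l + 1).factorial

/-- Value of a real polynomial in the matrix entries. -/
noncomputable def val (R : MvPolynomial (ι × ι) ℝ) (M : Matrix ι ι ℝ) : ℝ :=
  MvPolynomial.eval (fun q : ι × ι => M q.1 q.2) R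

/-- The group generated by the transvections `1 + t E_{ij}`, `i ≠ j` in `J`,
`(i, j) ≠ (x, y), (y, x)`. -/
def Kgp (J : Finset ι) (x y : ι) : Subgroup (SLR ι) :=
  Subgroup.closure {g | ∃ (i j : ι) (t : ℝ), i ∈ J ∧ j ∈ J ∧ i ≠ j ∧ ¬ (i = x ∧ j = y) ∧
    ¬ (i = y ∧ j = x) ∧ g = tv (i, j) t}

end Pool.Agent.W_MP_bb6588_an
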