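import Mathlib
import Pool.Agent.W_MP_bb6588_an.Defs

set_option autoImplicit false

/-!
# Convergence of the infinite products
-/

namespace Pool.Agent.W_MP_bb6588_an

open Matrix Filter Topology

variable {ι : Type} [Fintype ι] [DecidableEq ι]

theorem nrm_nonneg (M : Matrix ι ι ℝ) : 0 ≤ nrm M :=
  Finset.sum_nonneg fun _ _ => Finset.sum_nonneg fun _ _ => abs_nonneg _

theorem nrm_add_le (M N : Matrix ι ι ℝ) : nrm (M + N) ≤ nrm M + nrm N := by
  unfold nrm
  rw [← Finset.sum_add_distrib]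
  refine Finset.sum_le_sum fun i _ => ?_
  rw [← Finset.sum_add_distrib]
  exact Finset.sum_le_sum fun j _ => abs_add_le _ _

/-- `∑_{ik} |∑_j M_ij N_jk| ≤ ∑_{ij} |M_ij| ∑_{k} |N_jk| ≤ nrm M * nrm N`. -/
theorem nrm_mul_le (M N : Matrix ι ι ℝ) : nrm (M * N) ≤ nrm M * nrm N := by
  have h1 : ∀ j : ι, ∑ k, |N j k| ≤ nrm N := fun j =>
    Finset.single_le_sum (f := fun j => ∑ k, |N j k|)
      (fun _ _ => Finset.sum_nonneg fun _ _ => abs_nonneg _) (Finset.mem_univ j)
  calc nrm (M * N) = ∑ i, ∑ k, |∑ j, M i j * N j k| := by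
        unfold nrm
        simp only [Matrix.mul_apply]
    _ ≤ ∑ i, ∑ k, ∑ j, |M i j| * |N j k| := by
        refine Finset.sum_le_sum fun i _ => Finset.sum_le_sum fun k _ => ?_
        refine (Finset.abs_sum_le_sum_abs _ _).trans (le_of_eq ?_)
        exact Finset.sum_congr rfl fun j _ => abs_mul _ _
    _ = ∑ i, ∑ j, |M i j| * ∑ k, |N j k| := by
        refine Finset.sum_congr rfl fun i _ => ?_
        rw [Finset.sum_comm]
        exact Finset.sum_congr rfl fun j _ => (Finset.mul_sum _ _ _).symm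
    _ ≤ ∑ i, ∑ j, |M i j| * nrm N :=
        Finset.sum_le_sum fun i _ => Finset.sum_le_sum fun j _ =>
          mul_le_mul_of_nonneg_left (h1 j) (abs_nonneg _)
    _ = nrm M * nrm N := by
        unfold nrm
        simp only [← Finset.sum_mul]

theorem nrm_transpose (M : Matrix ι ι ℝ) : nrm Mᵀ = nrm M := by
  unfold nrm
  rw [Finset.sum_comm]
  rfl

theorem step_nonneg (b : Dig) (l : ℕ) : 0 ≤ step b l := by
  unfold step
  positivity

theorem step_zero (b : Dig) : step b 0 = 0 := by
  unfold step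
  have h : ((b 0 : Fin (0 + 1)) : ℕ) = 0 := by
    have := (b 0).isLt
    omega
  rw [h]
  simp

theorem step_le (b : Dig) (l : ℕ) : step b l ≤ (l : ℝ) / 2 ^ (l + 1).factorial := by
  unfold step
  apply div_le_div_of_nonneg_right _ (by positivity)
  have h := (b l).isLt
  have h' : ((b l : Fin (l + 1)) : ℕ) ≤ l := by omega
  exact_mod_cast h'

theorem sum_aux (k : ℕ) : ∀ l : ℕ, ∑ i ∈ Finset.Ico l (l + k), (i : ℝ) / 2 ^ (i + 1).factorial ≤
    2 * ((l : ℝ) + 1) / 2 ^ (l + 1).factorial := by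
  induction k with
  | zero =>
    intro l
    simp only [add_zero, Finset.Ico_self, Finset.sum_empty]
    positivity
  | succ k ih =>
    intro l
    have h1 : l < l + (k + 1) := by omega
    rw [Finset.sum_eq_sum_Ico_succ_bot h1]
    have h2 : l + (k + 1) = l + 1 + k := by ring
    rw [h2]
    have h3 := ih (l + 1)
    have h4 : 2 * (((l + 1 : ℕ) : ℝ) + 1) / 2 ^ (l + 1 + 1).factorial ≤
        ((l : ℝ) + 2) / 2 ^ (l + 1).factorial := by
      have h5 : (l + 1).factorial + 1 ≤ (l + 1 + 1).factorial := by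
        rw [Nat.factorial_succ (l + 1)]
        have : 1 ≤ (l + 1).factorial := Nat.factorial_pos _
        nlinarith
      have h6 : (2 : ℝ) ^ ((l + 1).factorial + 1) ≤ 2 ^ (l + 1 + 1).factorial :=
        pow_le_pow_right₀ (by norm_num) h5
      have h7 : (0 : ℝ) < 2 ^ (l + 1).factorial := by positivity
      rw [div_le_div_iff₀ (by positivity) h7]
      rw [pow_succ] at h6
      push_cast
      have h8 : (0 : ℝ) ≤ (l : ℝ) + 2 := by positivity
      calc 2 * ((l : ℝ) + 1 + 1) * 2 ^ (l + 1).factorial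
          = ((l : ℝ) + 2) * (2 ^ (l + 1).factorial * 2) := by ring
        _ ≤ ((l : ℝ) + 2) * 2 ^ (l + 1 + 1).factorial := mul_le_mul_of_nonneg_left h6 h8
    calc (l : ℝ) / 2 ^ (l + 1).factorial +
          ∑ i ∈ Finset.Ico (l + 1) (l + 1 + k), (i : ℝ) / 2 ^ (i + 1).factorial
        ≤ (l : ℝ) / 2 ^ (l + 1).factorial + ((l : ℝ) + 2) / 2 ^ (l + 1).factorial := by
          linarith
      _ = 2 * ((l : ℝ) + 1) / 2 ^ (l + 1).factorial := by ring

/-- `∑_{l ≤ i < m} step b i ≤ 2 (l + 1) / 2^{(l+1)!} = dlt l / 2` and `≤ 1`.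

Proof. `step b i ≤ i / 2^{(i+1)!}`. Show `∑_{l ≤ i < m} i / 2^{(i+1)!} ≤ 2 (l+1) / 2^{(l+1)!}` by
induction on `m - l` (downwards in `l`): `l / 2^{(l+1)!} + 2 (l+2) / 2^{(l+2)!} ≤
2 (l+1) / 2^{(l+1)!}` because `2 (l+2) / 2^{(l+2)!} ≤ (l + 2) / 2^{(l+1)!}`, as
`(l+2)! ≥ (l+1)! + 1`. -/
theorem sum_step_le (b : Dig) (l m : ℕ) :
    ∑ i ∈ Finset.Ico l m, step b i ≤ dlt l / 2 := by
  have h1 : dlt l / 2 = 2 * ((l : ℝ) + 1) / 2 ^ (l + 1).factorial := by
    unfold dlt
    ring
  rw [h1]
  rcases le_total l m with h | h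
  · obtain ⟨k, rfl⟩ := Nat.exists_eq_add_of_le h
    exact (Finset.sum_le_sum fun i _ => step_le b i).trans (sum_aux k l)
  · rw [Finset.Ico_eq_empty_of_le h, Finset.sum_empty]
    positivity

theorem sum_step_le_one (b : Dig) (l m : ℕ) : ∑ i ∈ Finset.Ico l m, step b i ≤ 1 := by
  have h1 : ∑ i ∈ Finset.Ico 1 m, step b i ≤ 1 := by
    refine (sum_step_le b 1 m).trans (le_of_eq ?_)
    unfold dlt
    have : (1 + 1).factorial = 2 := rfl
    rw [this]
    norm_num
  have h2 : ∑ i ∈ Finset.Ico l m, step b i ≤ ∑ i ∈ Finset.Ico 1 m, step b i := by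
    rcases Nat.eq_zero_or_pos l with rfl | hl
    · rcases Nat.eq_zero_or_pos m with rfl | hm
      · simp
      · rw [Finset.sum_eq_sum_Ico_succ_bot hm, step_zero, zero_add]
    · exact Finset.sum_le_sum_of_subset_of_nonneg (Finset.Ico_subset_Ico_left hl)
        fun i _ _ => step_nonneg b i
  exact h2.trans h1

/-- Products of matrices close to the identity. -/
theorem nrm_prod_le (Q R : ℕ → Matrix ι ι ℝ) (s : ℕ → ℝ) (hs : ∀ i, 0 ≤ s i)
    (hQ : ∀ i, nrm (Q i - 1) ≤ s i) (l : ℕ) (hl : R l = 1)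
    (hR : ∀ m, l ≤ m → R (m + 1) = Q m * R m) (m : ℕ) (hlm : l ≤ m) :
    nrm (R m - 1) ≤ Real.exp (∑ i ∈ Finset.Ico l m, s i) - 1 := by
  induction m, hlm using Nat.le_induction with
  | base =>
    rw [hl, sub_self]
    simp [nrm]
  | succ m hlm ih =>
    have h1 : R (m + 1) - 1 = ((Q m - 1) * (R m - 1) + (Q m - 1)) + (R m - 1) := by
      rw [hR m hlm]
      noncomm_ring
    have h2 : nrm (R (m + 1) - 1) ≤ s m * nrm (R m - 1) + s m + nrm (R m - 1) := by
      rw [h1]
      refine (nrm_add_le _ _).trans (add_le_add ((nrm_add_le _ _).trans (add_le_add ?_ (hQ m)))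
        le_rfl)
      exact (nrm_mul_le _ _).trans (mul_le_mul_of_nonneg_right (hQ m) (nrm_nonneg _))
    rw [Finset.sum_Ico_succ_top hlm, Real.exp_add]
    have h3 : 1 + s m ≤ Real.exp (s m) := by
      have := Real.add_one_le_exp (s m)
      linarith
    have h4 := nrm_nonneg (R m - 1)
    have h5 : (1 + s m) * (1 + nrm (R m - 1)) ≤
        Real.exp (s m) * Real.exp (∑ i ∈ Finset.Ico l m, s i) :=
      mul_le_mul h3 (by linarith) (by linarith) (Real.exp_pos _).le
    linarith

theorem exp_sub_one_le {S D : ℝ} (h0 : 0 ≤ S) (h1 : S ≤ 1) (h2 : S ≤ D / 2) :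
    Real.exp S - 1 ≤ D := by
  have h3 := Real.abs_exp_sub_one_le (x := S) (by rwa [abs_of_nonneg h0])
  rw [abs_of_nonneg h0] at h3
  have h4 := le_abs_self (Real.exp S - 1)
  linarith

theorem nrm_single (i j : ι) (t : ℝ) : nrm (Matrix.single i j t) = |t| := by
  unfold nrm
  rw [Finset.sum_eq_single i, Finset.sum_eq_single j]
  · simp
  · intro j' _ hj'
    simp [Matrix.single_apply, Ne.symm hj']
  · intro h; exact absurd (Finset.mem_univ _) h
  · intro i' _ hi'
    refine Finset.sum_eq_zero fun j' _ => ?_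
    simp [Matrix.single_apply, Ne.symm hi']
  · intro h; exact absurd (Finset.mem_univ _) h

theorem nrm_tv (q : ι × ι) (t : ℝ) : nrm ((tv q t : Matrix ι ι ℝ) - 1) ≤ |t| := by
  unfold tv
  split_ifs with h
  · rw [Matrix.SpecialLinearGroup.transvection_coe, add_sub_cancel_left, nrm_single]
  · rw [Matrix.SpecialLinearGroup.coe_one, sub_self]
    simp [nrm]

theorem tv_inv (q : ι × ι) (t : ℝ) : (tv q t)⁻¹ = tv q (-t) := by
  unfold tv
  split_ifs with h
  · exact Matrix.SpecialLinearGroup.transvection_inv h t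
  · exact inv_one

theorem nrm_tv_inv (q : ι × ι) (t : ℝ) :
    nrm ((((tv q t)⁻¹ : SLR ι) : Matrix ι ι ℝ)ᵀ - 1) ≤ |t| := by
  have h1 : ((((tv q t)⁻¹ : SLR ι) : Matrix ι ι ℝ)ᵀ - 1) = ((tv q (-t) : Matrix ι ι ℝ) - 1)ᵀ := by
    rw [tv_inv, Matrix.transpose_sub, Matrix.transpose_one]
  rw [h1, nrm_transpose]
  exact (nrm_tv q (-t)).trans (le_of_eq (abs_neg t))

/-- For `l ≤ m`: `nrm (part m * (part l)⁻¹ - 1) ≤ dlt l`, and the same for the inverse transpose.

Proof. `part m * (part l)⁻¹ = q_{m-1} ⋯ q_l` with `q_i = tv (p i) (step b i)`,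
`nrm (q_i - 1) ≤ step b i`. By induction `nrm (q_{m-1} ⋯ q_l - 1) ≤ ∏ (1 + step b i) - 1
≤ exp S - 1 ≤ 2 S`, where `S = ∑_{l ≤ i < m} step b i ≤ 1` and `S ≤ dlt l / 2`
(for `S ≤ 1`: `S ≤ ∑_{1 ≤ i < m} step b i ≤ dlt 1 / 2 = 1`, the `0`-th step being `0`).
The inverse transpose is the product of `q_i⁻¹ᵀ = tv (p i).swap (- step b i)`, which satisfy the
same bound `nrm (q_i⁻¹ᵀ - 1) ≤ step b i`. -/
theorem nrm_part_le (p : ℕ → ι × ι) (b : Dig) (l m : ℕ) (hlm : l ≤ m) :
    nrm (((part p b m * (part p b l)⁻¹ : SLR ι) : Matrix ι ι ℝ) - 1) ≤ dlt l ∧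
    nrm ((((part p b m * (part p b l)⁻¹)⁻¹ : SLR ι) : Matrix ι ι ℝ)ᵀ - 1) ≤ dlt l := by
  have hS0 : 0 ≤ ∑ i ∈ Finset.Ico l m, step b i :=
    Finset.sum_nonneg fun i _ => step_nonneg b i
  have hE := exp_sub_one_le hS0 (sum_step_le_one b l m) (sum_step_le b l m)
  have habs : ∀ i, |step b i| = step b i := fun i => abs_of_nonneg (step_nonneg b i)
  constructor
  · refine le_trans (nrm_prod_le (fun i => (tv (p i) (step b i) : Matrix ι ι ℝ))
      (fun m => ((part p b m * (part p b l)⁻¹ : SLR ι) : Matrix ι ι ℝ)) (step b)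
      (step_nonneg b) (fun i => ?_) l ?_ (fun m _ => ?_) m hlm) hE
    · exact (nrm_tv _ _).trans (le_of_eq (habs i))
    · simp only [mul_inv_cancel, Matrix.SpecialLinearGroup.coe_one]
    · have h1 : part p b (m + 1) * (part p b l)⁻¹ =
          tv (p m) (step b m) * (part p b m * (part p b l)⁻¹) := mul_assoc _ _ _
      exact (congrArg (fun x : SLR ι => (x : Matrix ι ι ℝ)) h1).trans
        (Matrix.SpecialLinearGroup.coe_mul _ _)
  · refine le_trans (nrm_prod_le
      (fun i => (((tv (p i) (step b i))⁻¹ : SLR ι) : Matrix ι ι ℝ)ᵀ)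
      (fun m => (((part p b m * (part p b l)⁻¹)⁻¹ : SLR ι) : Matrix ι ι ℝ)ᵀ) (step b)
      (step_nonneg b) (fun i => ?_) l ?_ (fun m _ => ?_) m hlm) hE
    · exact (nrm_tv_inv _ _).trans (le_of_eq (habs i))
    · simp only [mul_inv_cancel, inv_one, Matrix.SpecialLinearGroup.coe_one,
        Matrix.transpose_one]
    · have h1 : (part p b (m + 1) * (part p b l)⁻¹)⁻¹ =
          (part p b m * (part p b l)⁻¹)⁻¹ * (tv (p m) (step b m))⁻¹ := by
        rw [← _root_.mul_inv_rev, ← mul_assoc]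
        rfl
      refine (congrArg (fun x : SLR ι => (x : Matrix ι ι ℝ)ᵀ) h1).trans ?_
      rw [Matrix.SpecialLinearGroup.coe_mul, Matrix.transpose_mul]

theorem dlt_nonneg (l : ℕ) : 0 ≤ dlt l := by
  unfold dlt
  positivity

theorem dlt_tendsto : Tendsto dlt atTop (𝓝 0) := by
  have h1 : ∀ l : ℕ, dlt l ≤ 4 * (((l : ℝ) + 1) / 2 ^ (l + 1)) := by
    intro l
    unfold dlt
    rw [mul_div_assoc]
    refine mul_le_mul_of_nonneg_left ?_ (by norm_num)
    apply div_le_div_of_nonneg_left (by positivity) (by positivity)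
    exact pow_le_pow_right₀ (by norm_num) (Nat.self_le_factorial _)
  have h2 : Tendsto (fun l : ℕ => ((l : ℝ) + 1) / 2 ^ (l + 1)) atTop (𝓝 0) := by
    have h3 : Tendsto (fun n : ℕ => (n : ℝ) * (1 / 2) ^ n) atTop (𝓝 0) :=
      tendsto_self_mul_const_pow_of_lt_one (by norm_num) (by norm_num)
    have h4 := (tendsto_add_atTop_iff_nat 1).2 h3
    refine h4.congr fun l => ?_
    push_cast
    rw [one_div, inv_pow, div_eq_mul_inv]
  have h5 : Tendsto (fun l : ℕ => 4 * (((l : ℝ) + 1) / 2 ^ (l + 1))) atTop (𝓝 0) := by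
    simpa using h2.const_mul 4
  exact squeeze_zero dlt_nonneg h1 h5

theorem abs_apply_le_nrm (M : Matrix ι ι ℝ) (i j : ι) : |M i j| ≤ nrm M := by
  refine le_trans ?_ (Finset.single_le_sum (f := fun i => ∑ j, |M i j|)
    (fun _ _ => Finset.sum_nonneg fun _ _ => abs_nonneg _) (Finset.mem_univ i))
  exact Finset.single_le_sum (f := fun j => |M i j|) (fun _ _ => abs_nonneg _)
    (Finset.mem_univ j)

theorem continuous_nrm : Continuous (nrm : Matrix ι ι ℝ → ℝ) := by
  unfold nrm
  refine continuous_finsetSum _ fun i _ => continuous_finsetSum _ fun j _ => ?_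
  exact (continuous_apply_apply i j).abs

/-- The partial products are uniformly close to each other. -/
theorem nrm_part_sub_le (p : ℕ → ι × ι) (b : Dig) (l m : ℕ) (hlm : l ≤ m) :
    nrm ((part p b m : Matrix ι ι ℝ) - (part p b l : Matrix ι ι ℝ)) ≤
      dlt l * (nrm (1 : Matrix ι ι ℝ) + dlt 0) := by
  have h1 : (part p b m : Matrix ι ι ℝ) - (part p b l : Matrix ι ι ℝ) =
      (((part p b m * (part p b l)⁻¹ : SLR ι) : Matrix ι ι ℝ) - 1) *
        (part p b l : Matrix ι ι ℝ) := by
    rw [sub_mul, one_mul, ← Matrix.SpecialLinearGroup.coe_mul, inv_mul_cancel_right]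
  have h2 : nrm (part p b l : Matrix ι ι ℝ) ≤ nrm (1 : Matrix ι ι ℝ) + dlt 0 := by
    have h3 := (nrm_part_le p b 0 l (Nat.zero_le l)).1
    have h4 : (part p b l * (part p b 0)⁻¹ : SLR ι) = part p b l := by
      show part p b l * (1 : SLR ι)⁻¹ = part p b l
      rw [inv_one, mul_one]
    rw [h4] at h3
    have h5 : (part p b l : Matrix ι ι ℝ) = 1 + ((part p b l : Matrix ι ι ℝ) - 1) := by
      rw [add_sub_cancel]
    rw [h5]
    exact (nrm_add_le _ _).trans (add_le_add le_rfl h3)
  rw [h1]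
  refine (nrm_mul_le _ _).trans ?_
  exact mul_le_mul (nrm_part_le p b l m hlm).1 h2 (nrm_nonneg _) (dlt_nonneg l)

theorem continuous_step (l : ℕ) : Continuous fun b : Dig => step b l := by
  unfold step
  have h1 : Continuous fun b : Dig => ((b l : Fin (l + 1)) : ℕ) :=
    continuous_of_discreteTopology.comp (continuous_apply l)
  have h2 : Continuous fun b : Dig => (((b l : Fin (l + 1)) : ℕ) : ℝ) :=
    continuous_of_discreteTopology.comp h1
  exact h2.div_const _

theorem continuous_tv (q : ι × ι) : Continuous fun t : ℝ => (tv q t : Matrix ι ι ℝ) := by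
  unfold tv
  split_ifs with h
  · simp only [Matrix.SpecialLinearGroup.transvection_coe]
    refine continuous_const.add ?_
    refine continuous_matrix fun i j => ?_
    by_cases hij : q.1 = i ∧ q.2 = j
    · simp only [Matrix.single_apply, hij, and_self, if_true]
      exact continuous_id
    · simp only [Matrix.single_apply, hij, if_false]
      exact continuous_const
  · exact continuous_const

theorem continuous_part (p : ℕ → ι × ι) (l : ℕ) :
    Continuous fun b : Dig => (part p b l : Matrix ι ι ℝ) := by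
  induction l with
  | zero => exact continuous_const
  | succ l ih =>
    have h1 : (fun b : Dig => (part p b (l + 1) : Matrix ι ι ℝ)) =
        fun b => (tv (p l) (step b l) : Matrix ι ι ℝ) * (part p b l : Matrix ι ι ℝ) := by
      funext b
      rw [← Matrix.SpecialLinearGroup.coe_mul]
      rfl
    rw [h1]
    exact ((continuous_tv (p l)).comp (continuous_step l)).mul ih

/-- The limit `G b = lim_l part p b l` exists, is continuous in `b` and satisfies the tail bounds.

Proof. By `nrm_part_le` the sequence `part p b m` is Cauchy: `part m - part l =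
(part m * (part l)⁻¹ - 1) * part l` and `nrm (part l) ≤ nrm 1 + dlt 0`. So it converges in the
complete space of matrices, uniformly in `b`, to a matrix of determinant `1` (`SL` is closed,
`Matrix.SpecialLinearGroup.isClosedEmbedding_val`). Each `part p b l` is a continuous (locally
constant) function of `b` (it depends on `b 0, …, b (l-1)`), so the limit is continuous
(uniform limit). The bounds pass to the limit `m → ∞` (`dlt l → 0`). -/
theorem exists_limit (p : ℕ → ι × ι) :
    ∃ G : Dig → SLR ι, Continuous G ∧ ∀ (b : Dig) (l : ℕ),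
      nrm (((G b * (part p b l)⁻¹ : SLR ι) : Matrix ι ι ℝ) - 1) ≤ dlt l ∧
      nrm ((((G b * (part p b l)⁻¹)⁻¹ : SLR ι) : Matrix ι ι ℝ)ᵀ - 1) ≤ dlt l := by
  set C : ℝ := nrm (1 : Matrix ι ι ℝ) + dlt 0 with hC
  have hC0 : 0 ≤ C := add_nonneg (nrm_nonneg _) (dlt_nonneg 0)
  have htC : Tendsto (fun l => dlt l * C) atTop (𝓝 0) := by
    simpa using dlt_tendsto.mul_const C
  -- entrywise Cauchy
  have hent : ∀ (b : Dig) (i j : ι) (l m : ℕ), l ≤ m →
      |(part p b m : Matrix ι ι ℝ) i j - (part p b l : Matrix ι ι ℝ) i j| ≤ dlt l * C := by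
    intro b i j l m hlm
    exact (abs_apply_le_nrm _ i j).trans (nrm_part_sub_le p b l m hlm)
  have hcau : ∀ (b : Dig) (i j : ι), CauchySeq fun m => (part p b m : Matrix ι ι ℝ) i j := by
    intro b i j
    refine Metric.cauchySeq_iff'.2 fun ε hε => ?_
    obtain ⟨N, hN⟩ := (htC.eventually (gt_mem_nhds hε)).exists
    refine ⟨N, fun n hn => ?_⟩
    rw [Real.dist_eq]
    exact lt_of_le_of_lt (hent b i j N n hn) hN
  have hlim : ∀ (b : Dig) (i j : ι), ∃ x : ℝ,
      Tendsto (fun m => (part p b m : Matrix ι ι ℝ) i j) atTop (𝓝 x) := fun b i j =>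
    cauchySeq_tendsto_of_complete (hcau b i j)
  choose g hg using hlim
  have hgt : ∀ b : Dig, Tendsto (fun m => (part p b m : Matrix ι ι ℝ)) atTop
      (𝓝 (Matrix.of (g b))) := by
    intro b
    refine tendsto_pi_nhds.2 fun i => tendsto_pi_nhds.2 fun j => ?_
    exact hg b i j
  have hdet : ∀ b : Dig, (Matrix.of (g b)).det = 1 := by
    intro b
    have h1 : Tendsto (fun m => (part p b m : Matrix ι ι ℝ).det) atTop
        (𝓝 (Matrix.of (g b)).det) :=
      ((continuous_id.matrix_det (R := ℝ)).tendsto _).comp (hgt b)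
    have h2 : (fun m => (part p b m : Matrix ι ι ℝ).det) = fun _ => (1 : ℝ) := by
      funext m
      exact (part p b m).det_coe
    rw [h2] at h1
    exact tendsto_nhds_unique h1 tendsto_const_nhds
  let G : Dig → SLR ι := fun b => ⟨Matrix.of (g b), hdet b⟩
  have hGt : ∀ b : Dig, Tendsto (fun m => part p b m) atTop (𝓝 (G b)) := by
    intro b
    exact tendsto_subtype_rng.2 (hgt b)
  refine ⟨G, ?_, ?_⟩
  · -- continuity
    have h1 : ∀ i j : ι, Continuous fun b => g b i j := by
      intro i j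
      have hunif : TendstoUniformly (fun (m : ℕ) (b : Dig) => (part p b m : Matrix ι ι ℝ) i j)
          (fun b => g b i j) atTop := by
        rw [Metric.tendstoUniformly_iff]
        intro ε hε
        filter_upwards [htC.eventually (gt_mem_nhds hε)] with l hl b
        rw [Real.dist_eq]
        refine lt_of_le_of_lt ?_ hl
        have h2 : Tendsto (fun m => |(part p b m : Matrix ι ι ℝ) i j -
            (part p b l : Matrix ι ι ℝ) i j|) atTop
            (𝓝 |g b i j - (part p b l : Matrix ι ι ℝ) i j|) :=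
          ((hg b i j).sub_const _).abs
        refine le_of_tendsto h2 ?_
        filter_upwards [eventually_ge_atTop l] with m hm
        exact hent b i j l m hm
      refine hunif.continuous (Frequently.of_forall fun m => ?_)
      exact (continuous_apply_apply i j).comp (continuous_part p m)
    refine continuous_induced_rng.2 ?_
    exact continuous_matrix fun i j => h1 i j
  · intro b l
    have h1 : Tendsto (fun m => part p b m * (part p b l)⁻¹) atTop
        (𝓝 (G b * (part p b l)⁻¹)) := (hGt b).mul_const _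
    have hval : Continuous fun x : SLR ι => (x : Matrix ι ι ℝ) := continuous_subtype_val
    constructor
    · have h2 : Tendsto (fun m => nrm (((part p b m * (part p b l)⁻¹ : SLR ι) :
          Matrix ι ι ℝ) - 1)) atTop
          (𝓝 (nrm (((G b * (part p b l)⁻¹ : SLR ι) : Matrix ι ι ℝ) - 1))) :=
        ((continuous_nrm.comp (hval.sub continuous_const)).tendsto _).comp h1
      refine le_of_tendsto h2 ?_
      filter_upwards [eventually_ge_atTop l] with m hm
      exact (nrm_part_le p b l m hm).1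
    · have h2 : Tendsto (fun m => nrm ((((part p b m * (part p b l)⁻¹)⁻¹ : SLR ι) :
          Matrix ι ι ℝ)ᵀ - 1)) atTop
          (𝓝 (nrm ((((G b * (part p b l)⁻¹)⁻¹ : SLR ι) : Matrix ι ι ℝ)ᵀ - 1))) := by
        have h3 : Continuous fun x : SLR ι => nrm (((x⁻¹ : SLR ι) : Matrix ι ι ℝ)ᵀ - 1) :=
          continuous_nrm.comp (((hval.comp continuous_inv).matrix_transpose).sub
            continuous_const)
        exact (h3.tendsto _).comp h1
      refine le_of_tendsto h2 ?_
      filter_upwards [eventually_ge_atTop l] with m hm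
      exact (nrm_part_le p b l m hm).2

/-- The limit `lim_l part p b l`. -/
noncomputable def limG (p : ℕ → ι × ι) : Dig → SLR ι := Classical.choose (exists_limit p)

theorem continuous_limG (p : ℕ → ι × ι) : Continuous (limG p) :=
  (Classical.choose_spec (exists_limit p)).1

theorem limG_bound (p : ℕ → ι × ι) (b : Dig) (l : ℕ) :
    nrm (((limG p b * (part p b l)⁻¹ : SLR ι) : Matrix ι ι ℝ) - 1) ≤ dlt l :=
  ((Classical.choose_spec (exists_limit p)).2 b l).1

theorem limG_bound' (p : ℕ → ι × ι) (b : Dig) (l : ℕ) :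
    nrm ((((limG p b * (part p b l)⁻¹)⁻¹ : SLR ι) : Matrix ι ι ℝ)ᵀ - 1) ≤ dlt l :=
  ((Classical.choose_spec (exists_limit p)).2 b l).2

end Pool.Agent.W_MP_bb6588_an
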