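import Mathlib
import Pool.Agent.W_MP_bb6588_an.Defs

set_option autoImplicit false

/-!
# The time windows
-/

namespace Pool.Agent.W_MP_bb6588_an

open Filter Topology

lemma window_expo_succ (l : ℕ) : expo (l + 1) = expo l + (l + 1).factorial := by
  unfold expo
  rw [Finset.sum_range_succ]

lemma window_expo_ge (l : ℕ) : l ≤ expo l := by
  induction l with
  | zero => exact Nat.zero_le _
  | succ l ih =>
    rw [window_expo_succ]
    have := Nat.factorial_pos (l + 1)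
    omega

lemma window_expo_mono {a b : ℕ} (h : a ≤ b) : expo a ≤ expo b := by
  unfold expo
  exact Finset.sum_le_sum_of_subset (Finset.range_mono h)

lemma window_expo_le (l : ℕ) : expo (l + 1) ≤ 2 * (l + 1).factorial := by
  induction l with
  | zero => simp [expo]
  | succ l ih =>
    rw [window_expo_succ]
    have h : (l + 1 + 1).factorial = (l + 2) * (l + 1).factorial := Nat.factorial_succ (l + 1)
    have h2 : 2 * (l + 1).factorial ≤ (l + 2) * (l + 1).factorial :=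
      Nat.mul_le_mul_right _ (by omega)
    omega

lemma window_est (K m l : ℕ) (ε : ℝ) (hε : 0 < ε) (hm : (1 / 2 : ℝ) ^ m < ε ^ (K + 1))
    (hl : 2 * K + 4 + m ≤ l) :
    (2 : ℝ) ^ expo (l + 1) * ((2 : ℝ) ^ expo (l + 1) / ε) ^ K * dlt (l + 1) < ε := by
  set F := (l + 1).factorial with hF
  have hFl : l + 1 ≤ F := Nat.self_le_factorial _
  have hfac : (l + 1 + 1).factorial = (l + 2) * F := Nat.factorial_succ (l + 1)
  have hN : (2 : ℝ) ^ expo (l + 1) ≤ 2 ^ (2 * F) :=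
    pow_le_pow_right₀ (by norm_num) (window_expo_le l)
  have hN0 : (0 : ℝ) < 2 ^ expo (l + 1) := by positivity
  have hlin : 4 * (((l + 1 : ℕ) : ℝ) + 1) ≤ 2 ^ (4 * F) := by
    have h1 : 4 * (l + 1 + 1) ≤ 2 ^ (4 * F) := by
      have h2 : l + 2 < 2 ^ (l + 2) := Nat.lt_two_pow_self
      calc 4 * (l + 1 + 1) ≤ 2 ^ 2 * 2 ^ (l + 2) := by omega
        _ = 2 ^ (2 + (l + 2)) := (pow_add 2 2 (l + 2)).symm
        _ ≤ 2 ^ (4 * F) := Nat.pow_le_pow_right (by norm_num) (by omega)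
    have h3 : ((4 * (l + 1 + 1) : ℕ) : ℝ) ≤ ((2 ^ (4 * F) : ℕ) : ℝ) := Nat.cast_le.2 h1
    push_cast at h3
    push_cast
    linarith
  have hd : dlt (l + 1) ≤ 2 ^ (4 * F) / 2 ^ ((l + 2) * F) := by
    unfold dlt
    rw [hfac]
    exact div_le_div_of_nonneg_right hlin (by positivity)
  have hd0 : 0 ≤ dlt (l + 1) := by unfold dlt; positivity
  obtain ⟨s, hs⟩ : ∃ s, (l + 2) * F = (2 * F + 2 * F * K + 4 * F) + m + s := by
    refine ⟨(l + 2) * F - ((2 * F + 2 * F * K + 4 * F) + m), ?_⟩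
    have h1 : (2 * K + 6 + m) * F ≤ (l + 2) * F := Nat.mul_le_mul_right _ (by omega)
    have h2 : (2 * K + 6 + m) * F = (2 * F + 2 * F * K + 4 * F) + m * F := by ring
    have h3 : m * 1 ≤ m * F := Nat.mul_le_mul_left _ (by omega)
    omega
  have key : (2 : ℝ) ^ expo (l + 1) * ((2 : ℝ) ^ expo (l + 1) / ε) ^ K * dlt (l + 1)
      ≤ (2 : ℝ) ^ (2 * F) * ((2 : ℝ) ^ (2 * F) / ε) ^ K * (2 ^ (4 * F) / 2 ^ ((l + 2) * F)) := by
    have hdiv : (2 : ℝ) ^ expo (l + 1) / ε ≤ (2 : ℝ) ^ (2 * F) / ε :=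
      div_le_div_of_nonneg_right hN hε.le
    have hdiv0 : (0 : ℝ) ≤ (2 : ℝ) ^ expo (l + 1) / ε := by positivity
    exact mul_le_mul (mul_le_mul hN (pow_le_pow_left₀ hdiv0 hdiv K) (by positivity)
      (by positivity)) hd hd0 (by positivity)
  have heq : (2 : ℝ) ^ (2 * F) * ((2 : ℝ) ^ (2 * F) / ε) ^ K * (2 ^ (4 * F) / 2 ^ ((l + 2) * F))
      = (1 / 2 : ℝ) ^ m * (1 / 2 : ℝ) ^ s / ε ^ K := by
    rw [hs, div_pow, ← pow_mul, pow_add, pow_add, pow_add, pow_add, one_div, inv_pow, inv_pow]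
    field_simp
  have hs1 : (1 / 2 : ℝ) ^ s ≤ 1 := pow_le_one₀ (by norm_num) (by norm_num)
  have hm0 : (0 : ℝ) < (1 / 2 : ℝ) ^ m := by positivity
  have hK0 : (0 : ℝ) < ε ^ K := pow_pos hε K
  calc (2 : ℝ) ^ expo (l + 1) * ((2 : ℝ) ^ expo (l + 1) / ε) ^ K * dlt (l + 1)
      ≤ (1 / 2 : ℝ) ^ m * (1 / 2 : ℝ) ^ s / ε ^ K := by rw [← heq]; exact key
    _ ≤ (1 / 2 : ℝ) ^ m / ε ^ K := by
        apply div_le_div_of_nonneg_right _ hK0.le
        nlinarith
    _ < ε := by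
        rw [div_lt_iff₀ hK0]
        calc (1 / 2 : ℝ) ^ m < ε ^ (K + 1) := hm
          _ = ε * ε ^ K := by rw [pow_succ]; ring

/-- Every large time `τ` lies in one of the windows.

Proof. Write `N l = 2^{expo l}`, a nondecreasing sequence tending to infinity (`expo (l+1) =
expo l + (l+1)! ≥ expo l + 1`). Let `T` be large. For `τ ≥ T` let `l` be the largest index with
`N l * exp(-c τ) < ε` (it exists: there are only finitely many such `l`, and all `l ≤ l₁` satisfy it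
if `T ≥ log (N l₁ / ε) / c + 1`; so also `l ≥ l₁`, where `l₁` is chosen below). Then
`N (l+1) * exp(-c τ) ≥ ε`, that is `exp (c τ) ≤ N (l+1) / ε`, so
`exp (C τ) = (exp (c τ))^{C/c} ≤ (N (l+1) / ε)^{C/c}` and
`N l * exp (C τ) * dlt (l+1) ≤ N (l+1) * (N (l+1) / ε)^{C/c} * 4 (l+2) / 2^{(l+2)!}`.
Now `expo (l+1) ≤ 2 (l+1)!` (induction) so `N (l+1) ≤ 2^{2 (l+1)!}` and, with `κ = 1 + C/c`,
the right side is at most `ε^{-C/c} * 4 (l+2) * 2^{(l+1)! (2 κ - (l+2))}`, which tends to `0` as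
`l → ∞`; choose `l₁` such that it is `< ε` for all `l ≥ l₁`. -/
theorem window (c C ε : ℝ) (hc : 0 < c) (hC : 0 < C) (hε : 0 < ε) :
    ∃ T : ℝ, ∀ τ : ℝ, T ≤ τ → ∃ l : ℕ,
      (2 : ℝ) ^ expo l * Real.exp (-(c * τ)) < ε ∧
      (2 : ℝ) ^ expo l * Real.exp (C * τ) * dlt (l + 1) < ε := by
  classical
  obtain ⟨K, hK⟩ := exists_nat_ge (C / c)
  have hKc : C ≤ K * c := by rwa [div_le_iff₀ hc] at hK
  obtain ⟨m, hm⟩ := exists_pow_lt_of_lt_one (pow_pos hε (K + 1)) (by norm_num : (1 / 2 : ℝ) < 1)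
  have htop : Tendsto (fun τ : ℝ => Real.exp (c * τ)) atTop atTop :=
    Real.tendsto_exp_atTop.comp (tendsto_id.const_mul_atTop hc)
  obtain ⟨T0, hT0⟩ := eventually_atTop.1
    (htop.eventually (eventually_gt_atTop ((2 : ℝ) ^ expo (2 * K + 4 + m) / ε)))
  refine ⟨max T0 0, fun τ hτ => ?_⟩
  have h1 : (2 : ℝ) ^ expo (2 * K + 4 + m) / ε < Real.exp (c * τ) :=
    hT0 τ (le_trans (le_max_left _ _) hτ)
  have hτ0 : 0 ≤ τ := le_trans (le_max_right _ _) hτ
  have hE : 0 < Real.exp (c * τ) := Real.exp_pos _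
  have hinv : Real.exp (-(c * τ)) = (Real.exp (c * τ))⁻¹ := Real.exp_neg _
  have hex : ∃ l : ℕ, ε ≤ (2 : ℝ) ^ expo (l + 1) * Real.exp (-(c * τ)) := by
    obtain ⟨l, hl⟩ := exists_nat_ge (ε * Real.exp (c * τ))
    refine ⟨l, ?_⟩
    rw [hinv, ← div_eq_mul_inv, le_div_iff₀ hE]
    refine le_trans hl ?_
    have h2 : (l : ℝ) ≤ (2 : ℝ) ^ l := by
      have : l < 2 ^ l := Nat.lt_two_pow_self
      have h3 : ((l : ℕ) : ℝ) ≤ ((2 ^ l : ℕ) : ℝ) := Nat.cast_le.2 this.le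
      push_cast at h3
      exact h3
    refine le_trans h2 (pow_le_pow_right₀ (by norm_num) ?_)
    have := window_expo_ge (l + 1)
    omega
  set l := Nat.find hex with hldef
  have hl : ε ≤ (2 : ℝ) ^ expo (l + 1) * Real.exp (-(c * τ)) := Nat.find_spec hex
  have hlE : Real.exp (c * τ) ≤ (2 : ℝ) ^ expo (l + 1) / ε := by
    rw [le_div_iff₀ hε]
    rw [hinv, ← div_eq_mul_inv, le_div_iff₀ hE] at hl
    linarith
  have hl1 : 2 * K + 4 + m ≤ l := by
    by_contra hcon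
    have h2 : expo (l + 1) ≤ expo (2 * K + 4 + m) := window_expo_mono (by omega)
    have h3 : (2 : ℝ) ^ expo (l + 1) / ε ≤ (2 : ℝ) ^ expo (2 * K + 4 + m) / ε :=
      div_le_div_of_nonneg_right (pow_le_pow_right₀ (by norm_num) h2) hε.le
    linarith
  refine ⟨l, ?_, ?_⟩
  · obtain ⟨k, hk⟩ : ∃ k, l = k + 1 := ⟨l - 1, by omega⟩
    have := Nat.find_min hex (m := k) (by omega)
    rw [hk]
    exact not_le.1 this
  · have hEC : Real.exp (C * τ) ≤ ((2 : ℝ) ^ expo (l + 1) / ε) ^ K := by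
      calc Real.exp (C * τ) ≤ Real.exp (K * (c * τ)) := by
            apply Real.exp_le_exp.2
            have := mul_le_mul_of_nonneg_right hKc hτ0
            linarith
        _ = (Real.exp (c * τ)) ^ K := by rw [Real.exp_nat_mul]
        _ ≤ ((2 : ℝ) ^ expo (l + 1) / ε) ^ K := pow_le_pow_left₀ hE.le hlE K
    have hNl : (2 : ℝ) ^ expo l ≤ 2 ^ expo (l + 1) :=
      pow_le_pow_right₀ (by norm_num) (window_expo_mono (by omega))
    have hd0 : 0 ≤ dlt (l + 1) := by unfold dlt; positivity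
    calc (2 : ℝ) ^ expo l * Real.exp (C * τ) * dlt (l + 1)
        ≤ (2 : ℝ) ^ expo (l + 1) * ((2 : ℝ) ^ expo (l + 1) / ε) ^ K * dlt (l + 1) := by
          apply mul_le_mul_of_nonneg_right _ hd0
          exact mul_le_mul hNl hEC (Real.exp_pos _).le (by positivity)
      _ < ε := window_est K m l ε hε hm hl1

end Pool.Agent.W_MP_bb6588_an
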