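import Mathlib
import Pool.Agent.W_MP_bb6588_an.Limit

set_option autoImplicit false

/-!
# Two consequences of the tail bounds
-/

namespace Pool.Agent.W_MP_bb6588_an

open Matrix Filter Topology

variable {ι : Type} [Fintype ι] [DecidableEq ι]

theorem tendsto_dlt : Tendsto dlt atTop (𝓝 0) := by
  have h1 : Tendsto (fun n : ℕ => (n : ℝ) * (1 / 2 : ℝ) ^ n) atTop (𝓝 0) :=
    tendsto_self_mul_const_pow_of_lt_one (by norm_num) (by norm_num)
  have h2 : Tendsto (fun l : ℕ => 4 * ((((l + 1 : ℕ) : ℝ)) * (1 / 2 : ℝ) ^ (l + 1))) atTop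
      (𝓝 (4 * 0)) := ((tendsto_add_atTop_iff_nat 1).2 h1).const_mul 4
  rw [mul_zero] at h2
  refine squeeze_zero (fun l => ?_) (fun l => ?_) h2
  · unfold dlt
    positivity
  · unfold dlt
    have h3 : (2 : ℝ) ^ (l + 1) ≤ 2 ^ (l + 1).factorial :=
      pow_le_pow_right₀ (by norm_num) (Nat.self_le_factorial _)
    have h4 : 4 * ((l : ℝ) + 1) / 2 ^ (l + 1).factorial ≤ 4 * ((l : ℝ) + 1) / 2 ^ (l + 1) :=
      div_le_div_of_nonneg_left (by positivity) (by positivity) h3
    refine h4.trans (le_of_eq ?_)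
    rw [one_div, inv_pow]
    push_cast
    rw [div_eq_mul_inv]
    ring

theorem tv_zero (q : ι × ι) : tv q 0 = 1 := by
  unfold tv
  split_ifs with h
  · exact Matrix.SpecialLinearGroup.transvection_coeff_zero h
  · rfl

theorem part_eq_of_zero (p : ℕ → ι × ι) (b : Dig) (L m : ℕ) (hLm : L ≤ m)
    (h0 : ∀ l, L ≤ l → l < m → (b l : ℕ) = 0) : part p b m = part p b L := by
  induction m, hLm using Nat.le_induction with
  | base => rfl
  | succ n hn ih =>
    have h1 : step b n = 0 := by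
      unfold step
      rw [h0 n hn (Nat.lt_succ_self n)]
      simp
    show tv (p n) (step b n) * part p b n = part p b L
    rw [h1, tv_zero, one_mul]
    exact ih fun l h2 h3 => h0 l h2 (Nat.lt_succ_of_lt h3)

theorem part_congr (p : ℕ → ι × ι) (b b' : Dig) (L : ℕ) (h : ∀ l, l < L → b' l = b l) :
    part p b' L = part p b L := by
  induction L with
  | zero => rfl
  | succ n ih =>
    show tv (p n) (step b' n) * part p b' n = tv (p n) (step b n) * part p b n
    have h1 : step b' n = step b n := by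
      unfold step
      rw [h n (Nat.lt_succ_self n)]
    rw [h1, ih fun l hl => h l (Nat.lt_succ_of_lt hl)]

omit [DecidableEq ι] in
theorem abs_entry_le_nrm (M : Matrix ι ι ℝ) (i j : ι) : |M i j| ≤ nrm M := by
  unfold nrm
  calc |M i j| ≤ ∑ j, |M i j| :=
        Finset.single_le_sum (f := fun j => |M i j|) (fun _ _ => abs_nonneg _) (Finset.mem_univ j)
    _ ≤ ∑ i, ∑ j, |M i j| :=
        Finset.single_le_sum (f := fun i => ∑ j, |M i j|)
          (fun _ _ => Finset.sum_nonneg fun _ _ => abs_nonneg _) (Finset.mem_univ i)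

/-- If all digits from `L` on are `0`, the limit is the partial product.

Proof. `part p b l = part p b L` for `l ≥ L` (the steps are `tv _ 0 = 1`), so
`nrm (G b * (part p b L)⁻¹ - 1) ≤ dlt l → 0`. -/
theorem limG_eq_part (p : ℕ → ι × ι) (b : Dig) (L : ℕ) (h0 : ∀ l, L ≤ l → (b l : ℕ) = 0) :
    limG p b = part p b L := by
  have h1 : ∀ᶠ l in atTop,
      nrm (((limG p b * (part p b L)⁻¹ : SLR ι) : Matrix ι ι ℝ) - 1) ≤ dlt l := by
    filter_upwards [eventually_ge_atTop L] with l hl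
    have h2 := limG_bound p b l
    rwa [part_eq_of_zero p b L l hl fun k hk _ => h0 k hk] at h2
  have h2 : nrm (((limG p b * (part p b L)⁻¹ : SLR ι) : Matrix ι ι ℝ) - 1) ≤ 0 :=
    ge_of_tendsto tendsto_dlt h1
  have h3 : ((limG p b * (part p b L)⁻¹ : SLR ι) : Matrix ι ι ℝ) = 1 := by
    ext i j
    have h4 := (abs_entry_le_nrm
      (((limG p b * (part p b L)⁻¹ : SLR ι) : Matrix ι ι ℝ) - 1) i j).trans h2
    have h5 := abs_eq_zero.1 (le_antisymm h4 (abs_nonneg _))
    rw [Matrix.sub_apply] at h5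
    exact sub_eq_zero.1 h5
  have h4 : limG p b * (part p b L)⁻¹ = 1 := Subtype.ext h3
  exact mul_inv_eq_one.1 h4

theorem fixOff_one (J : Finset ι) : FixOff J (1 : SLR ι) := by
  intro i _ j
  exact ⟨rfl, rfl⟩

theorem fixOff_mul (J : Finset ι) {g h : SLR ι} (hg : FixOff J g) (hh : FixOff J h) :
    FixOff J (g * h) := by
  intro i hi j
  have e : ((g * h : SLR ι) : Matrix ι ι ℝ) = (g : Matrix ι ι ℝ) * (h : Matrix ι ι ℝ) := rfl
  rw [e]
  constructor
  · rw [Matrix.mul_apply]
    calc ∑ k, (g : Matrix ι ι ℝ) i k * (h : Matrix ι ι ℝ) k j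
        = ∑ k, (1 : Matrix ι ι ℝ) i k * (h : Matrix ι ι ℝ) k j :=
          Finset.sum_congr rfl fun k _ => by rw [(hg i hi k).1]
      _ = ((1 : Matrix ι ι ℝ) * (h : Matrix ι ι ℝ)) i j := (Matrix.mul_apply).symm
      _ = (1 : Matrix ι ι ℝ) i j := by rw [one_mul]; exact (hh i hi j).1
  · rw [Matrix.mul_apply]
    calc ∑ k, (g : Matrix ι ι ℝ) j k * (h : Matrix ι ι ℝ) k i
        = ∑ k, (g : Matrix ι ι ℝ) j k * (1 : Matrix ι ι ℝ) k i :=
          Finset.sum_congr rfl fun k _ => by rw [(hh i hi k).2]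
      _ = ((g : Matrix ι ι ℝ) * (1 : Matrix ι ι ℝ)) j i := (Matrix.mul_apply).symm
      _ = (1 : Matrix ι ι ℝ) j i := by rw [mul_one]; exact (hg i hi j).2

theorem fixOff_tv (J : Finset ι) (q : ι × ι) (h1 : q.1 ∈ J) (h2 : q.2 ∈ J) (t : ℝ) :
    FixOff J (tv q t) := by
  unfold tv
  split_ifs with h
  · intro i hi j
    have e : ((Matrix.SpecialLinearGroup.transvection h t : SLR ι) : Matrix ι ι ℝ) =
        (1 : Matrix ι ι ℝ) + Matrix.single q.1 q.2 t := rfl
    rw [e]
    have n1 : q.1 ≠ i := fun h' => hi (h' ▸ h1)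
    have n2 : q.2 ≠ i := fun h' => hi (h' ▸ h2)
    constructor
    · rw [Matrix.add_apply, Matrix.single_apply, if_neg (fun h' => n1 h'.1), add_zero]
    · rw [Matrix.add_apply, Matrix.single_apply, if_neg (fun h' => n2 h'.2), add_zero]
  · exact fixOff_one J

theorem fixOff_part (p : ℕ → ι × ι) (J : Finset ι) (hp : ∀ l, (p l).1 ∈ J ∧ (p l).2 ∈ J)
    (b : Dig) (l : ℕ) : FixOff J (part p b l) := by
  induction l with
  | zero => exact fixOff_one J
  | succ n ih => exact fixOff_mul J (fixOff_tv J (p n) (hp n).1 (hp n).2 _) ih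

theorem tendsto_part (p : ℕ → ι × ι) (b : Dig) (i j : ι) :
    Tendsto (fun l => (part p b l : Matrix ι ι ℝ) i j) atTop
      (𝓝 ((limG p b : Matrix ι ι ℝ) i j)) := by
  have h1 : ∀ k : ι, Tendsto (fun l => (((limG p b * (part p b l)⁻¹)⁻¹ : SLR ι) :
      Matrix ι ι ℝ) i k) atTop (𝓝 ((1 : Matrix ι ι ℝ) i k)) := by
    intro k
    rw [tendsto_iff_norm_sub_tendsto_zero]
    refine squeeze_zero (fun l => norm_nonneg _) (fun l => ?_) tendsto_dlt
    have h2 := (abs_entry_le_nrm
      ((((limG p b * (part p b l)⁻¹)⁻¹ : SLR ι) : Matrix ι ι ℝ)ᵀ - 1) k i).trans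
      (limG_bound' p b l)
    rw [Matrix.sub_apply, Matrix.transpose_apply] at h2
    rw [Real.norm_eq_abs]
    have h3 : (1 : Matrix ι ι ℝ) i k = (1 : Matrix ι ι ℝ) k i := by
      rw [Matrix.one_apply, Matrix.one_apply]
      simp only [eq_comm]
    rw [h3]
    exact h2
  have h2 : Tendsto (fun l => ∑ k, (((limG p b * (part p b l)⁻¹)⁻¹ : SLR ι) :
      Matrix ι ι ℝ) i k * (limG p b : Matrix ι ι ℝ) k j) atTop
      (𝓝 (∑ k, (1 : Matrix ι ι ℝ) i k * (limG p b : Matrix ι ι ℝ) k j)) :=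
    tendsto_finsetSum _ fun k _ => (h1 k).mul_const _
  have h3 : ∑ k, (1 : Matrix ι ι ℝ) i k * (limG p b : Matrix ι ι ℝ) k j =
      (limG p b : Matrix ι ι ℝ) i j := by
    rw [← Matrix.mul_apply, one_mul]
  rw [h3] at h2
  refine h2.congr fun l => ?_
  rw [← Matrix.mul_apply]
  have h4 : ((limG p b * (part p b l)⁻¹)⁻¹ : SLR ι) * limG p b = part p b l := by group
  have h5 : ((((limG p b * (part p b l)⁻¹)⁻¹ : SLR ι) * limG p b : SLR ι) : Matrix ι ι ℝ) =
      (part p b l : Matrix ι ι ℝ) := by rw [h4]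
  exact congrFun (congrFun h5 i) j

/-- If all pairs `p l` lie in `J × J`, the limit is the identity outside `J`.

Proof. `part p b l` is the identity outside `J` (induction: a product of two such matrices is such a
matrix), and `part p b l → G b`: `part p b l = (G b * (part p b l)⁻¹)⁻¹ * G b`, where
`(G b * (part p b l)⁻¹)⁻¹ → 1` entrywise by `limG_bound'` and `tendsto_dlt`. -/
theorem limG_fixOff (p : ℕ → ι × ι) (J : Finset ι) (hp : ∀ l, (p l).1 ∈ J ∧ (p l).2 ∈ J)
    (b : Dig) : FixOff J (limG p b) := by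
  intro i hi j
  constructor
  · refine tendsto_nhds_unique (tendsto_part p b i j) ?_
    simp only [fun l => (fixOff_part p J hp b l i hi j).1]
    exact tendsto_const_nhds
  · refine tendsto_nhds_unique (tendsto_part p b j i) ?_
    simp only [fun l => (fixOff_part p J hp b l i hi j).2]
    exact tendsto_const_nhds

end Pool.Agent.W_MP_bb6588_an
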