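import Mathlib
import Pool.Agent.W_MP_bb6588_an.Defs

set_option autoImplicit false

/-!
# Exponential sums, and the closed condition equivalent to contraction
-/

namespace Pool.Agent.W_MP_bb6588_an

open Matrix Filter Topology

variable {ι : Type} [Fintype ι] [DecidableEq ι]

/-- If a finite exponential sum `∑_{μ ∈ Λ} c μ exp(t μ)` tends to `0` along `t = φ k → ∞`, the
coefficients with `μ ≥ 0` vanish.

Proof. Suppose not, and let `ν ≥ 0` be the largest element of `Λ` with `c ν ≠ 0`. Dividing by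
`exp(t ν) ≥ 1`: `∑ c μ exp(t (μ - ν)) → 0`, but all terms with `μ < ν` tend to `0`, the terms with
`μ > ν` vanish, and the term `μ = ν` is `c ν`. -/
theorem coeff_eq_zero (Λ : Finset ℝ) (c : ℝ → ℝ) (φ : ℕ → ℕ) (hφ : StrictMono φ)
    (h : Tendsto (fun k => ∑ μ ∈ Λ, c μ * Real.exp ((φ k : ℝ) * μ)) atTop (𝓝 0)) :
    ∀ μ ∈ Λ, 0 ≤ μ → c μ = 0 := by
  classical
  by_contra hcon
  push Not at hcon
  obtain ⟨μ0, hμ0, hμ0', hc0⟩ := hcon
  have hSne : (Λ.filter (fun μ => 0 ≤ μ ∧ c μ ≠ 0)).Nonempty :=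
    ⟨μ0, Finset.mem_filter.2 ⟨hμ0, hμ0', hc0⟩⟩
  obtain ⟨ν, hν, hνmax⟩ : ∃ ν ∈ Λ.filter (fun μ => 0 ≤ μ ∧ c μ ≠ 0),
      ∀ μ ∈ Λ.filter (fun μ => 0 ≤ μ ∧ c μ ≠ 0), μ ≤ ν :=
    ⟨_, Finset.max'_mem _ hSne, fun μ hμ => Finset.le_max' _ μ hμ⟩
  obtain ⟨hνΛ, hν0, hcν⟩ := Finset.mem_filter.1 hν
  have hφt : Tendsto (fun k => (φ k : ℝ)) atTop atTop :=
    tendsto_natCast_atTop_atTop.comp hφ.tendsto_atTop
  have h1 : Tendsto (fun k => (∑ μ ∈ Λ, c μ * Real.exp ((φ k : ℝ) * μ)) *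
      Real.exp (-((φ k : ℝ) * ν))) atTop (𝓝 0) := by
    refine squeeze_zero_norm (fun k => ?_) (tendsto_norm_zero.comp h)
    rw [norm_mul]
    refine mul_le_of_le_one_right (norm_nonneg _) ?_
    rw [Real.norm_eq_abs, Real.abs_exp, Real.exp_le_one_iff]
    have : 0 ≤ (φ k : ℝ) * ν := mul_nonneg (Nat.cast_nonneg _) hν0
    linarith
  have h2 : Tendsto (fun k => (∑ μ ∈ Λ, c μ * Real.exp ((φ k : ℝ) * μ)) *
      Real.exp (-((φ k : ℝ) * ν))) atTop (𝓝 (∑ μ ∈ Λ, if μ = ν then c ν else 0)) := by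
    have h3 : (fun k => (∑ μ ∈ Λ, c μ * Real.exp ((φ k : ℝ) * μ)) *
        Real.exp (-((φ k : ℝ) * ν))) =
        fun k => ∑ μ ∈ Λ, c μ * Real.exp ((φ k : ℝ) * (μ - ν)) := by
      funext k
      rw [Finset.sum_mul]
      refine Finset.sum_congr rfl fun μ _ => ?_
      rw [mul_assoc, ← Real.exp_add]
      congr 2
      ring
    rw [h3]
    refine tendsto_finsetSum _ fun μ hμ => ?_
    rcases lt_trichotomy μ ν with h4 | h4 | h4
    · rw [if_neg h4.ne]
      have h5 : Tendsto (fun k => (φ k : ℝ) * (μ - ν)) atTop atBot :=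
        hφt.atTop_mul_const_of_neg (by linarith)
      have h6 := (Real.tendsto_exp_atBot.comp h5).const_mul (c μ)
      rw [mul_zero] at h6
      exact h6
    · subst h4
      rw [if_pos rfl]
      simp only [sub_self, mul_zero, Real.exp_zero, mul_one]
      exact tendsto_const_nhds
    · rw [if_neg h4.ne']
      have h5 : c μ = 0 := by
        by_contra h6
        exact absurd (hνmax μ (Finset.mem_filter.2 ⟨hμ, hν0.trans h4.le, h6⟩)) (not_le.2 h4)
      simp only [h5, zero_mul]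
      exact tendsto_const_nhds
  rw [Finset.sum_ite_eq' Λ ν (fun _ => c ν), if_pos hνΛ] at h2
  exact hcν (tendsto_nhds_unique h2 h1)

/-- The matrix `diag(exp(t η))`. -/
noncomputable def dg (t : ℝ) (η : ι → ℝ) : Matrix ι ι ℝ :=
  Matrix.diagonal fun i => Real.exp (t * η i)

/-- Weight decomposition of a polynomial: `Q(diag(exp(t η)) M) = ∑_{μ ∈ Λ} Q_μ(M) exp(t μ)`.

Proof. The entries of `dg t η * M` are `exp(t η i) M i j`. The monomial with exponent
`e : ι × ι →₀ ℕ` takes the value `exp(t w(e)) ∏ (M i j)^{e (i,j)}` with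
`w(e) = ∑_{(i,j)} e (i,j) * η i`. Let `Λ` be the image of the support of `Q` under `w` and
`Q_μ = ∑_{e ∈ support, w e = μ} monomial e (coeff e Q)`. -/
theorem exists_weights (Q : MvPolynomial (ι × ι) ℝ) (η : ι → ℝ) :
    ∃ (Λ : Finset ℝ) (W : ℝ → MvPolynomial (ι × ι) ℝ), ∀ (t : ℝ) (M : Matrix ι ι ℝ),
      val Q (dg t η * M) = ∑ μ ∈ Λ, val (W μ) M * Real.exp (t * μ) := by
  classical
  set w : (ι × ι →₀ ℕ) → ℝ := fun e => ∑ q : ι × ι, (e q : ℝ) * η q.1 with hw
  refine ⟨Q.support.image w,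
    fun μ => ∑ e ∈ Q.support.filter (fun e => w e = μ), MvPolynomial.monomial e (Q.coeff e), ?_⟩
  intro t M
  have h1 : val Q (dg t η * M) =
      ∑ e ∈ Q.support, Q.coeff e * (∏ q : ι × ι, M q.1 q.2 ^ e q) * Real.exp (t * w e) := by
    unfold val
    rw [MvPolynomial.eval_eq']
    refine Finset.sum_congr rfl fun e _ => ?_
    rw [mul_assoc]
    congr 1
    have h2 : ∀ q : ι × ι, (dg t η * M) q.1 q.2 ^ e q =
        M q.1 q.2 ^ e q * Real.exp (t * ((e q : ℝ) * η q.1)) := by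
      intro q
      unfold dg
      rw [Matrix.diagonal_mul, mul_pow, ← Real.exp_nat_mul, mul_comm]
      congr 2
      ring
    rw [Finset.prod_congr rfl fun q _ => h2 q, Finset.prod_mul_distrib, ← Real.exp_sum,
      ← Finset.mul_sum]
  have h3 : ∀ μ, val (∑ e ∈ Q.support.filter (fun e => w e = μ),
      MvPolynomial.monomial e (Q.coeff e)) M =
      ∑ e ∈ Q.support.filter (fun e => w e = μ), Q.coeff e * ∏ q : ι × ι, M q.1 q.2 ^ e q := by
    intro μ
    unfold val
    rw [map_sum]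
    refine Finset.sum_congr rfl fun e _ => ?_
    rw [MvPolynomial.eval_monomial, Finsupp.prod_fintype]
    intro q
    exact pow_zero _
  rw [h1]
  simp only [h3, Finset.sum_mul]
  rw [← Finset.sum_fiberwise_of_maps_to (s := Q.support) (t := Q.support.image w) (g := w)
    (fun e he => Finset.mem_image_of_mem w he)]
  refine Finset.sum_congr rfl fun μ _ => ?_
  refine Finset.sum_congr rfl fun e he => ?_
  rw [(Finset.mem_filter.1 he).2]

/-- For a finite family `Q` of polynomials there is a finite family `R` of polynomials such that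
the common zeros of `R` are exactly the matrices `M` with `Q a (diag(exp(k η)) M) → 0` for all `a`;
convergence along a subsequence is sufficient.

Proof. Take `Λ_a, W_a` from `exists_weights` for each `a` and let `R` enumerate the polynomials
`W_a μ`, `μ ∈ Λ_a`, `μ ≥ 0` (a finite set). First part: `coeff_eq_zero`. Second part: the remaining
terms have `μ < 0`, so `exp(k μ) → 0`. -/
theorem exists_ann {r : ℕ} (Q : Fin r → MvPolynomial (ι × ι) ℝ) (η : ι → ℝ) :
    ∃ (s : ℕ) (R : Fin s → MvPolynomial (ι × ι) ℝ), ∀ M : Matrix ι ι ℝ,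
      (∀ φ : ℕ → ℕ, StrictMono φ →
        (∀ a, Tendsto (fun k => val (Q a) (dg (φ k : ℝ) η * M)) atTop (𝓝 0)) →
        ∀ j, val (R j) M = 0) ∧
      ((∀ j, val (R j) M = 0) →
        ∀ a, Tendsto (fun k : ℕ => val (Q a) (dg (k : ℝ) η * M)) atTop (𝓝 0)) := by
  classical
  choose Λ W hW using fun a : Fin r => exists_weights (Q a) η
  set T : Finset (Σ _ : Fin r, ℝ) :=
    Finset.univ.sigma fun a => (Λ a).filter (fun μ => 0 ≤ μ) with hT
  have hmemT : ∀ x : (Σ _ : Fin r, ℝ), x ∈ T ↔ x.2 ∈ Λ x.1 ∧ 0 ≤ x.2 := by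
    intro x
    rw [hT, Finset.mem_sigma, Finset.mem_filter]
    simp
  refine ⟨T.card, fun j => W (T.equivFin.symm j).1.1 (T.equivFin.symm j).1.2, ?_⟩
  intro M
  constructor
  · intro φ hφ h j
    have hj := (hmemT _).1 (T.equivFin.symm j).2
    refine coeff_eq_zero (Λ (T.equivFin.symm j).1.1)
      (fun μ => val (W (T.equivFin.symm j).1.1 μ) M) φ hφ ?_ _ hj.1 hj.2
    have h1 := h (T.equivFin.symm j).1.1
    simp only [hW] at h1
    exact h1
  · intro h a
    have h0 : ∀ μ ∈ Λ a, 0 ≤ μ → val (W a μ) M = 0 := by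
      intro μ hμ hμ0
      have hmem : (⟨a, μ⟩ : Σ _ : Fin r, ℝ) ∈ T := (hmemT _).2 ⟨hμ, hμ0⟩
      have h1 := h (T.equivFin ⟨⟨a, μ⟩, hmem⟩)
      simpa using h1
    simp only [hW]
    have h2 : Tendsto (fun k : ℕ => ∑ μ ∈ Λ a, val (W a μ) M * Real.exp ((k : ℝ) * μ)) atTop
        (𝓝 (∑ _μ ∈ Λ a, (0 : ℝ))) := by
      refine tendsto_finsetSum _ fun μ hμ => ?_
      rcases le_or_gt 0 μ with h3 | h3
      · simp only [h0 μ hμ h3, zero_mul]
        exact tendsto_const_nhds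
      · have h5 : Tendsto (fun k : ℕ => (k : ℝ) * μ) atTop atBot :=
          tendsto_natCast_atTop_atTop.atTop_mul_const_of_neg h3
        have h6 := (Real.tendsto_exp_atBot.comp h5).const_mul (val (W a μ) M)
        rw [mul_zero] at h6
        exact h6
    rw [Finset.sum_const_zero] at h2
    exact h2

end Pool.Agent.W_MP_bb6588_an
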