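import Mathlib
import Pool.Agent.W_MP_bb6588_an.Defs

set_option autoImplicit false

/-!
# Choice of the coordinates
-/

namespace Pool.Agent.W_MP_bb6588_an

open Module

variable {ι : Type} [Fintype ι] [DecidableEq ι]

/-- The vector `e_a - e_b`. -/
noncomputable def ed (a b : ι) : Lie ι :=
  ⟨fun i => (if i = a then 1 else 0) - (if i = b then 1 else 0), by
    change ∑ i, ((if i = a then (1 : ℝ) else 0) - (if i = b then 1 else 0)) = 0
    simp⟩

theorem ed_apply (a b i : ι) : ((ed a b : Lie ι) : ι → ℝ) i =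
    (if i = a then 1 else 0) - (if i = b then 1 else 0) := rfl

theorem ed_ne_zero {a b : ι} (h : a ≠ b) : ed a b ≠ 0 := by
  intro h0
  have h1 : ((ed a b : Lie ι) : ι → ℝ) a = 0 := by rw [h0]; rfl
  rw [ed_apply, if_pos rfl, if_neg h] at h1
  norm_num at h1

/-- A traceless vector supported on two coordinates. -/
theorem two_supp {b c : ι} (hbc : b ≠ c) (z : Lie ι)
    (h : ∀ i, i ≠ b ∧ i ≠ c → (z : ι → ℝ) i = 0) : z = ((z : ι → ℝ) b) • ed b c := by
  have h1 := sum_eq_zero z
  rw [Fintype.sum_eq_add b c hbc h] at h1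
  apply Subtype.ext
  funext i
  rw [Submodule.coe_smul, Pi.smul_apply, smul_eq_mul, ed_apply]
  by_cases hb : i = b
  · subst hb
    rw [if_pos rfl, if_neg hbc]
    ring
  · by_cases hc : i = c
    · subst hc
      rw [if_neg hb, if_pos rfl]
      linarith
    · rw [if_neg hb, if_neg hc, h i ⟨hb, hc⟩]
      ring

theorem eq_top_of_ed (E : Submodule ℝ (Lie ι)) (c : ι) (h : ∀ d, d ≠ c → ed d c ∈ E) :
    E = ⊤ := by
  rw [eq_top_iff]
  intro z _
  have h1 : z = ∑ d, ((z : ι → ℝ) d) • ed d c := by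
    apply Subtype.ext
    funext i
    have h2 : ((∑ d, ((z : ι → ℝ) d) • ed d c : Lie ι) : ι → ℝ) i =
        ∑ d, ((z : ι → ℝ) d) * ((if i = d then 1 else 0) - (if i = c then 1 else 0)) := by
      rw [AddSubmonoidClass.coe_finsetSum, Finset.sum_apply]
      rfl
    have h3 : ∑ d, ((z : ι → ℝ) d) * ((if i = d then (1 : ℝ) else 0) - (if i = c then 1 else 0)) =
        ∑ d, ((z : ι → ℝ) d) * (if i = d then (1 : ℝ) else 0) -
          (∑ d, (z : ι → ℝ) d) * (if i = c then 1 else 0) := by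
      rw [Finset.sum_mul, ← Finset.sum_sub_distrib]
      refine Finset.sum_congr rfl fun d _ => ?_
      ring
    rw [h2, h3, sum_eq_zero z]
    simp
  rw [h1]
  refine E.sum_mem fun d _ => E.smul_mem _ ?_
  by_cases hd : d = c
  · subst hd
    have : ed d d = (0 : Lie ι) := by
      apply Subtype.ext
      funext i
      rw [ed_apply, sub_self]
      rfl
    rw [this]
    exact E.zero_mem
  · exact h d hd

omit [DecidableEq ι] in
theorem finrank_Lie_ge : Fintype.card ι ≤ finrank ℝ (Lie ι) + 1 := by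
  let f : (ι → ℝ) →ₗ[ℝ] ℝ := ∑ i, LinearMap.proj i
  have hf : Lie ι = LinearMap.ker f := by
    ext z
    rw [LinearMap.mem_ker]
    simp only [f, LinearMap.sum_apply, LinearMap.proj_apply]
    rfl
  have h1 := LinearMap.finrank_range_add_finrank_ker f
  rw [Module.finrank_fintype_fun_eq_card, ← hf] at h1
  have h2 : finrank ℝ (LinearMap.range f) ≤ 1 := by
    have := Submodule.finrank_le (LinearMap.range f)
    rwa [Module.finrank_self] at this
  omega

/-- A subspace `E ≠ 0` of `Lie ι` of codimension at least `1` (`finrank E + 2 ≤ |ι|`) meets some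
coordinate subspace `ℝ^J`, `|J| ≥ 3`, in exactly one line `ℝ η`.

Proof. `|ι| ≥ 3` by the hypotheses, and `univ` is a set `J` with `|J| ≥ 3` for which `E ∩ ℝ^J ≠ 0`.
Choose such a `J` with `|J|` minimal.

Case 1: `|J| ≥ 4`. Pick `j ∈ J`. By minimality `E ∩ ℝ^{J \ {j}} = 0` for this `j`, so
`z ↦ z j` is injective on the subspace `E ∩ ℝ^J ≠ 0`; hence `E ∩ ℝ^J` is one-dimensional: for a
nonzero `η` in it, `z = (z j / η j) • η`.

Case 2: `|J| = 3`. `E ∩ ℝ^J` is a nonzero subspace of the two-dimensional space of traceless vectors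
on `J = {a, b, c}`. If it is one-dimensional we are done. Otherwise it contains
`e_a - e_b` and `e_a - e_c`. For `d ∉ J` consider `J' = {a, b, d}`: `E ∩ ℝ^{J'}` contains
`e_a - e_b ≠ 0`; if for some `d` it is the line `ℝ (e_a - e_b)`, take `J'` and `η = e_a - e_b`. If
for no `d` it is that line, then it contains a `z` with `z d ≠ 0` (a vector of `E ∩ ℝ^{J'}` with
`z d = 0` is a multiple of `e_a - e_b`), and so `e_a - e_d` (subtract a multiple of `e_a - e_b`
and divide). So `e_a - e_d ∈ E` for all `d ≠ a`, and these span `Lie ι`: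
`z = - ∑_{d ≠ a} z d • (e_a - e_d)`. Hence `E = ⊤` and `finrank E = |ι| - 1`
(`Lie ι` is the kernel of a nonzero functional), against `finrank E + 2 ≤ |ι|`.

(It may be more convenient to first prove the statement with conclusion
`∀ z ∈ E, supported on J → ∃ c, z = c • η` by contradiction.) -/
theorem exists_J (E : Submodule ℝ (Lie ι)) (h1 : 1 ≤ finrank ℝ E)
    (h2 : finrank ℝ E + 2 ≤ Fintype.card ι) :
    ∃ (J : Finset ι) (η : Lie ι), η ∈ E ∧ η ≠ 0 ∧ (∀ i, i ∉ J → (η : ι → ℝ) i = 0) ∧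
      3 ≤ J.card ∧
      ∀ z : Lie ι, z ∈ E → (∀ i, i ∉ J → (z : ι → ℝ) i = 0) → ∃ c : ℝ, z = c • η := by
  classical
  by_contra hcon
  push Not at hcon
  -- the sets with a nonzero vector
  let P : ℕ → Prop := fun n => ∃ J : Finset ι, J.card = n ∧ 3 ≤ n ∧ ∃ η : Lie ι, η ∈ E ∧ η ≠ 0 ∧
    ∀ i, i ∉ J → (η : ι → ℝ) i = 0
  have hP : ∃ n, P n := by
    have hE : E ≠ ⊥ := by
      rintro rfl
      rw [finrank_bot] at h1
      omega
    obtain ⟨η, hη, hη0⟩ := Submodule.exists_mem_ne_zero_of_ne_bot hE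
    exact ⟨Fintype.card ι, Finset.univ, Finset.card_univ, by omega, η, hη, hη0,
      fun i hi => absurd (Finset.mem_univ i) hi⟩
  obtain ⟨J, hJn, hJ3, η, hη, hη0, hηJ⟩ := Nat.find_spec hP
  have hmin : ∀ m, m < J.card → ¬ P m := fun m hm => Nat.find_min hP (by omega)
  rw [← hJn] at hJ3
  obtain ⟨z, hz, hzJ, hzη⟩ := hcon J η hη hη0 hηJ hJ3
  -- a coordinate of η
  obtain ⟨a, ha⟩ : ∃ a, (η : ι → ℝ) a ≠ 0 := by
    by_contra h
    push Not at h
    exact hη0 (Subtype.ext (funext h))
  have haJ : a ∈ J := by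
    by_contra h
    exact ha (hηJ a h)
  set z' : Lie ι := z - ((z : ι → ℝ) a / (η : ι → ℝ) a) • η with hz'
  have hz'E : z' ∈ E := E.sub_mem hz (E.smul_mem _ hη)
  have hz'0 : z' ≠ 0 := by
    intro h
    exact hzη _ (sub_eq_zero.1 h)
  have hz'a : (z' : ι → ℝ) a = 0 := by
    have : (z' : ι → ℝ) a = (z : ι → ℝ) a - (z : ι → ℝ) a / (η : ι → ℝ) a * (η : ι → ℝ) a := rfl
    rw [this, div_mul_cancel₀ _ ha, sub_self]
  have hz'J : ∀ i, i ∉ J → (z' : ι → ℝ) i = 0 := by
    intro i hi
    have : (z' : ι → ℝ) i = (z : ι → ℝ) i - (z : ι → ℝ) a / (η : ι → ℝ) a * (η : ι → ℝ) i := rfl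
    rw [this, hzJ i hi, hηJ i hi]
    ring
  rcases Nat.lt_or_ge 3 J.card with h4 | h4
  · refine hmin (J.erase a).card ?_ ⟨J.erase a, rfl, ?_, z', hz'E, hz'0, ?_⟩
    · exact Finset.card_erase_lt_of_mem haJ
    · rw [Finset.card_erase_of_mem haJ]; omega
    · intro i hi
      by_cases hia : i = a
      · rw [hia]; exact hz'a
      · exact hz'J i (fun h => hi (Finset.mem_erase.2 ⟨hia, h⟩))
  · have hJ3' : J.card = 3 := le_antisymm h4 hJ3
    have hJ2 : (J.erase a).card = 2 := by rw [Finset.card_erase_of_mem haJ]; omega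
    obtain ⟨b, c, hbc, hJbc⟩ := Finset.card_eq_two.1 hJ2
    have hmemJ : ∀ i, i ∈ J ↔ i = a ∨ i = b ∨ i = c := by
      intro i
      constructor
      · intro hi
        by_cases hia : i = a
        · exact Or.inl hia
        · have := Finset.mem_erase.2 ⟨hia, hi⟩
          rw [hJbc] at this
          right
          simpa using this
      · rintro (rfl | rfl | rfl)
        · exact haJ
        · have : i ∈ J.erase a := by rw [hJbc]; simp
          exact Finset.mem_of_mem_erase this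
        · have : i ∈ J.erase a := by rw [hJbc]; simp
          exact Finset.mem_of_mem_erase this
    have hab : a ≠ b := by
      rintro rfl
      have : a ∈ J.erase a := by rw [hJbc]; simp
      exact Finset.notMem_erase a J this
    have hac : a ≠ c := by
      rintro rfl
      have : a ∈ J.erase a := by rw [hJbc]; simp
      exact Finset.notMem_erase a J this
    have e1 := two_supp hbc z' (by
      rintro i ⟨hib, hic⟩
      by_cases hia : i = a
      · rw [hia]; exact hz'a
      · exact hz'J i (fun h => by rcases (hmemJ i).1 h with h | h | h <;> contradiction))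
    have hz'b : (z' : ι → ℝ) b ≠ 0 := by
      intro h
      rw [h, zero_smul] at e1
      exact hz'0 e1
    have hbcE : ed b c ∈ E := by
      have : ed b c = ((z' : ι → ℝ) b)⁻¹ • z' := (eq_inv_smul_iff₀ hz'b).2 e1.symm
      rw [this]
      exact E.smul_mem _ hz'E
    have hacE : ed a c ∈ E := by
      set w : Lie ι := η - ((η : ι → ℝ) b) • ed b c with hw
      have hwE : w ∈ E := E.sub_mem hη (E.smul_mem _ hbcE)
      have hwa : (w : ι → ℝ) a = (η : ι → ℝ) a := by
        have : (w : ι → ℝ) a = (η : ι → ℝ) a - (η : ι → ℝ) b *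
          ((if a = b then 1 else 0) - (if a = c then 1 else 0)) := rfl
        rw [this, if_neg hab, if_neg hac]
        ring
      have e2 := two_supp hac w (by
        rintro i ⟨hia, hic⟩
        have : (w : ι → ℝ) i = (η : ι → ℝ) i - (η : ι → ℝ) b *
          ((if i = b then 1 else 0) - (if i = c then 1 else 0)) := rfl
        rw [this, if_neg hic]
        by_cases hib : i = b
        · rw [if_pos hib, hib]; ring
        · rw [if_neg hib, hηJ i (fun h => by rcases (hmemJ i).1 h with h | h | h <;> contradiction)]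
          ring)
      rw [hwa] at e2
      have : ed a c = ((η : ι → ℝ) a)⁻¹ • w := (eq_inv_smul_iff₀ ha).2 e2.symm
      rw [this]
      exact E.smul_mem _ hwE
    have hall : ∀ d, d ≠ c → ed d c ∈ E := by
      intro d hdc
      by_cases hda : d = a
      · rw [hda]; exact hacE
      · have hcard : 3 ≤ ({a, c, d} : Finset ι).card := by
          rw [Finset.card_eq_three.2 ⟨a, c, d, hac, fun h => hda h.symm, fun h => hdc h.symm, rfl⟩]
        obtain ⟨y, hy, hyJ, hyη⟩ := hcon {a, c, d} (ed a c) hacE (ed_ne_zero hac) (by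
          intro i hi
          simp only [Finset.mem_insert, Finset.mem_singleton, not_or] at hi
          rw [ed_apply, if_neg hi.1, if_neg hi.2.1, sub_self]) hcard
        set w : Lie ι := y - ((y : ι → ℝ) a) • ed a c with hw
        have hwE : w ∈ E := E.sub_mem hy (E.smul_mem _ hacE)
        have hwi : ∀ i, (w : ι → ℝ) i = (y : ι → ℝ) i - (y : ι → ℝ) a *
          ((if i = a then 1 else 0) - (if i = c then 1 else 0)) := fun i => rfl
        have e2 := two_supp hdc w (by
          rintro i ⟨hid, hic⟩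
          rw [hwi, if_neg hic]
          by_cases hia : i = a
          · rw [if_pos hia, hia]; ring
          · rw [if_neg hia, hyJ i (by simp [hia, hic, hid])]
            ring)
        have hw0 : w ≠ 0 := fun h => hyη _ (sub_eq_zero.1 h)
        have hwd : (w : ι → ℝ) d ≠ 0 := by
          intro h
          rw [h, zero_smul] at e2
          exact hw0 e2
        have : ed d c = ((w : ι → ℝ) d)⁻¹ • w := (eq_inv_smul_iff₀ hwd).2 e2.symm
        rw [this]
        exact E.smul_mem _ hwE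
    have htop := eq_top_of_ed E c hall
    rw [htop, finrank_top] at h2
    have := finrank_Lie_ge (ι := ι)
    omega

/-- A nonzero traceless vector has a positive and a negative coordinate. -/
theorem exists_pos_neg (η : Lie ι) (hη : η ≠ 0) :
    ∃ x y : ι, 0 < (η : ι → ℝ) x ∧ (η : ι → ℝ) y < 0 := by
  have hs := sum_eq_zero η
  have h1 : ∃ x, 0 < (η : ι → ℝ) x := by
    by_contra h
    push Not at h
    have h2 := (Finset.sum_eq_zero_iff_of_nonpos (fun i _ => h i)).1 hs
    exact hη (Subtype.ext (funext fun i => h2 i (Finset.mem_univ i)))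
  have h2 : ∃ y, (η : ι → ℝ) y < 0 := by
    by_contra h
    push Not at h
    have h2 := (Finset.sum_eq_zero_iff_of_nonneg (fun i _ => h i)).1 hs
    exact hη (Subtype.ext (funext fun i => h2 i (Finset.mem_univ i)))
  obtain ⟨x, hx⟩ := h1
  obtain ⟨y, hy⟩ := h2
  exact ⟨x, y, hx, hy⟩

/-- For `|J| ≥ 3` and `x ≠ y` in `J` there is a sequence of pairs `(i, j)`, `i ≠ j` in `J`,
`(i, j) ≠ (x, y), (y, x)`, in which every such pair occurs infinitely often.

Proof. The set of such pairs is finite and nonempty (`(x, z)` for a third `z ∈ J`); let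
`e : Fin N ≃` this set, `N ≥ 1`, and `p l = e (l mod N)`. -/
theorem exists_pairs (J : Finset ι) (hJ : 3 ≤ J.card) (x y : ι) (hx : x ∈ J) (hy : y ∈ J)
    (hxy : x ≠ y) :
    ∃ p : ℕ → ι × ι,
      (∀ l, (p l).1 ∈ J ∧ (p l).2 ∈ J ∧ (p l).1 ≠ (p l).2 ∧
        ¬ ((p l).1 = x ∧ (p l).2 = y) ∧ ¬ ((p l).1 = y ∧ (p l).2 = x)) ∧
      ∀ i j, i ∈ J → j ∈ J → i ≠ j → ¬ (i = x ∧ j = y) → ¬ (i = y ∧ j = x) →
        ∀ L : ℕ, ∃ l, L ≤ l ∧ p l = (i, j) := by
  classical
  let S : Finset (ι × ι) := Finset.univ.filter fun q => q.1 ∈ J ∧ q.2 ∈ J ∧ q.1 ≠ q.2 ∧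
        ¬ (q.1 = x ∧ q.2 = y) ∧ ¬ (q.1 = y ∧ q.2 = x)
  have hS : ∀ q, q ∈ S ↔ q.1 ∈ J ∧ q.2 ∈ J ∧ q.1 ≠ q.2 ∧
        ¬ (q.1 = x ∧ q.2 = y) ∧ ¬ (q.1 = y ∧ q.2 = x) := fun q => by simp [S]
  obtain ⟨z, hz, hzx, hzy⟩ : ∃ z ∈ J, z ≠ x ∧ z ≠ y := by
    have hc : 0 < ((J.erase x).erase y).card := by
      rw [Finset.card_erase_of_mem (Finset.mem_erase.2 ⟨hxy.symm, hy⟩),
        Finset.card_erase_of_mem hx]
      omega
    obtain ⟨z, hz⟩ := Finset.card_pos.1 hc
    simp only [Finset.mem_erase] at hz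
    exact ⟨z, hz.2.2, hz.2.1, hz.1⟩
  have hne : (x, z) ∈ S := (hS _).2 ⟨hx, hz, hzx.symm, fun h => hzy h.2, fun h => hxy h.1⟩
  have hN : 0 < S.card := Finset.card_pos.2 ⟨_, hne⟩
  let e := S.equivFin
  refine ⟨fun l => (e.symm ⟨l % S.card, Nat.mod_lt _ hN⟩ : S), ?_, ?_⟩
  · intro l
    exact (hS _).1 (e.symm ⟨l % S.card, Nat.mod_lt _ hN⟩ : S).2
  · intro i j hi hj hij h3 h4 L
    have hm : (i, j) ∈ S := (hS _).2 ⟨hi, hj, hij, h3, h4⟩
    set k := e ⟨(i, j), hm⟩ with hk
    refine ⟨L * S.card + k, ?_, ?_⟩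
    · have : L * 1 ≤ L * S.card := Nat.mul_le_mul_left L hN
      omega
    · have e1 : (L * S.card + (k : ℕ)) % S.card = k := by
        exact Nat.mul_add_mod_of_lt k.2
      have e2 : (⟨(L * S.card + (k : ℕ)) % S.card, Nat.mod_lt _ hN⟩ : Fin S.card) = k :=
        Fin.ext e1
      change ((e.symm ⟨(L * S.card + (k : ℕ)) % S.card, Nat.mod_lt _ hN⟩ : S) : ι × ι) = (i, j)
      rw [e2, hk, Equiv.symm_apply_apply]

end Pool.Agent.W_MP_bb6588_an
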