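import Mathlib
import Pool.Agent.W_MP_bb6588_an.LimitLem

set_option autoImplicit false

/-!
# Replacing real parameters by digits
-/

namespace Pool.Agent.W_MP_bb6588_an

open Matrix Filter Topology

variable {ι : Type} [Fintype ι] [DecidableEq ι]

theorem grid_tv_coe {q : ι × ι} (h : q.1 ≠ q.2) (t : ℝ) :
    ((tv q t : SLR ι) : Matrix ι ι ℝ) = 1 + Matrix.single q.1 q.2 t := by
  rw [tv, dif_pos h, Matrix.SpecialLinearGroup.transvection_coe]

theorem grid_tv_inv (q : ι × ι) (t : ℝ) : (tv q t : SLR ι)⁻¹ = tv q (-t) := by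
  unfold tv
  split_ifs with h
  · exact Matrix.SpecialLinearGroup.transvection_inv h t
  · exact inv_one

/-- Evaluation of a polynomial in polynomials of one variable. -/
theorem grid_eval_aeval {σ : Type} (g : σ → Polynomial ℝ) (R : MvPolynomial σ ℝ) (t : ℝ) :
    (MvPolynomial.aeval g R).eval t = MvPolynomial.eval (fun p => (g p).eval t) R := by
  induction R using MvPolynomial.induction_on with
  | C a => simp
  | add p q hp hq => simp [hp, hq]
  | mul_X p n hp => simp [hp]

/-- For a polynomial `R` and `A, B ∈ SL`, the function `t ↦ R(A (1 + t E_q) B)` is a polynomial in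
`t` of degree at most the total degree of `R`.

Proof. The entries of `A (1 + tE_q) B = A B + t A E_q B` are polynomials in `t` of degree `≤ 1`;
substitute them into `R` (`MvPolynomial.aeval_natDegree_le`). -/
theorem exists_poly (R : MvPolynomial (ι × ι) ℝ) (A B : SLR ι) (q : ι × ι) :
    ∃ f : Polynomial ℝ, f.natDegree ≤ R.totalDegree ∧
      ∀ t : ℝ, f.eval t = val R ((A * tv q t * B : SLR ι) : Matrix ι ι ℝ) := by
  by_cases h : q.1 = q.2
  · refine ⟨Polynomial.C (val R ((A * 1 * B : SLR ι) : Matrix ι ι ℝ)), by simp, fun t => ?_⟩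
    rw [Polynomial.eval_C, tv, dif_neg (not_not.2 h)]
  · refine ⟨MvPolynomial.aeval (fun p : ι × ι =>
      Polynomial.C (((A : Matrix ι ι ℝ) * (B : Matrix ι ι ℝ)) p.1 p.2) +
        Polynomial.C ((A : Matrix ι ι ℝ) p.1 q.1 * (B : Matrix ι ι ℝ) q.2 p.2) * Polynomial.X) R,
      ?_, fun t => ?_⟩
    · have h1 := MvPolynomial.aeval_natDegree_le (m := R.totalDegree) (n := 1) R le_rfl
        (fun p : ι × ι => Polynomial.C (((A : Matrix ι ι ℝ) * (B : Matrix ι ι ℝ)) p.1 p.2) +
          Polynomial.C ((A : Matrix ι ι ℝ) p.1 q.1 * (B : Matrix ι ι ℝ) q.2 p.2) * Polynomial.X)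
        (fun p => by
          refine (Polynomial.natDegree_add_le _ _).trans (max_le ?_ ?_)
          · rw [Polynomial.natDegree_C]; exact Nat.zero_le _
          · exact (Polynomial.natDegree_C_mul_le _ _).trans Polynomial.natDegree_X_le)
      rwa [mul_one] at h1
    · rw [grid_eval_aeval]
      unfold val
      congr 2
      funext p
      rw [Matrix.SpecialLinearGroup.coe_mul, Matrix.SpecialLinearGroup.coe_mul, grid_tv_coe h,
        mul_add, mul_one, add_mul, Matrix.add_apply]
      have h2 : ((A : Matrix ι ι ℝ) * Matrix.single q.1 q.2 t * (B : Matrix ι ι ℝ)) p.1 p.2 =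
          t * ((A : Matrix ι ι ℝ) p.1 q.1 * (B : Matrix ι ι ℝ) q.2 p.2) := by
        rw [Matrix.mul_apply, Finset.sum_eq_single q.2]
        · rw [Matrix.mul_single_apply_same]
          ring
        · intro b _ hb
          rw [Matrix.mul_single_apply_of_ne _ _ _ _ _ hb, zero_mul]
        · intro hn
          exact absurd (Finset.mem_univ _) hn
      rw [h2]
      simp
      ring

/-- One step: a real parameter is replaced by a digit. -/
theorem grid_step_digit (p : ℕ → ι × ι) (q : ι × ι)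
    (hq : ∀ L : ℕ, ∃ l, L ≤ l ∧ p l = q)
    (b : Dig) (L : ℕ) (R : MvPolynomial (ι × ι) ℝ) (A : SLR ι) (t : ℝ)
    (h : val R ((A * tv q t * part p b L : SLR ι) : Matrix ι ι ℝ) ≠ 0) :
    ∃ (b' : Dig) (L' : ℕ), L ≤ L' ∧ (∀ l, l < L → b' l = b l) ∧
      val R ((A * part p b' L' : SLR ι) : Matrix ι ι ℝ) ≠ 0 := by
  obtain ⟨f, hf1, hf2⟩ := exists_poly R A (part p b L) q
  have hf0 : f ≠ 0 := by
    rintro rfl
    apply h
    rw [← hf2 t, Polynomial.eval_zero]
  obtain ⟨l, hl, hpl⟩ := hq (max L R.totalDegree)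
  have hLl : L ≤ l := (le_max_left _ _).trans hl
  have hDl : R.totalDegree ≤ l := (le_max_right _ _).trans hl
  have hβ : ∃ β : Fin (l + 1), f.eval (((β : ℕ) : ℝ) / 2 ^ (l + 1).factorial) ≠ 0 := by
    by_contra hcon
    push Not at hcon
    apply hf0
    refine Polynomial.eq_zero_of_natDegree_lt_card_of_eval_eq_zero f (ι := Fin (l + 1)) ?_ hcon ?_
    · intro β β' hββ
      have h2 : (2 : ℝ) ^ (l + 1).factorial ≠ 0 := pow_ne_zero _ two_ne_zero
      have h3 : ((β : ℕ) : ℝ) = ((β' : ℕ) : ℝ) := by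
        have h4 := congrArg (fun z => z * (2 : ℝ) ^ (l + 1).factorial) hββ
        simpa [div_mul_cancel₀ _ h2] using h4
      exact Fin.ext (by exact_mod_cast h3)
    · rw [Fintype.card_fin]
      omega
  obtain ⟨β, hβ⟩ := hβ
  let b0 : Dig := fun i => if i < L then b i else 0
  let b1 : Dig := Function.update b0 l β
  have hb1l : b1 l = β := Function.update_self _ _ _
  have hb1 : ∀ i, i ≠ l → b1 i = b0 i := fun i hi => Function.update_of_ne hi _ _
  have hb1L : ∀ i, i < L → b1 i = b i := by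
    intro i hi
    rw [hb1 i (by omega)]
    exact if_pos hi
  refine ⟨b1, l + 1, by omega, hb1L, ?_⟩
  have h1 : part p b1 l = part p b L := by
    rw [part_eq_of_zero p b1 L l hLl, part_congr p b b1 L hb1L]
    intro i hi1 hi2
    rw [hb1 i (by omega)]
    have : b0 i = 0 := if_neg (by omega)
    rw [this]
    rfl
  have h2 : part p b1 (l + 1) = tv q (((β : ℕ) : ℝ) / 2 ^ (l + 1).factorial) * part p b L := by
    rw [part, h1, hpl, step, hb1l]
  rw [h2, ← mul_assoc, ← hf2]
  exact hβ

/-- If `R` does not vanish on the orbit `K * part p b L`, it does not vanish at `limG p b'` for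
some `b'` with the same first `L` digits as `b`.

Proof. Every `k ∈ Kgp J x y` is a product `tv q_m t_m ⋯ tv q_1 t_1` of the generating
transvections (`Subgroup.closure_induction`, the inverse of a generator `tv q t` is `tv q (-t)`).
Show by induction on the length `m` of a list of pairs `(q, t)` of admissible transvections: for all
`b, L`, if `val R (tv q_m t_m ⋯ tv q_1 t_1 * part p b L) ≠ 0` then there is `b'` with `b' l = b l`
for `l < L` and `val R (limG p b') ≠ 0`.
`m = 0`: take `b' l = b l` for `l < L` and `0` for `l ≥ L`; use `limG_eq_part`, `part_congr`.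
Step: by `exists_poly` (with `A = tv q_m t_m ⋯ tv q_2 t_2`, `B = part p b L`) the function
`t ↦ val R (A * tv q_1 t * part p b L)` is a polynomial of degree `≤ D = R.totalDegree`, not
zero at `t = t_1`. Choose `l ≥ max L D` with `p l = q_1` (`hinf`). Among the `l + 1 > D` numbers
`β / 2^{(l+1)!}`, `β = 0, …, l`, there is one which is not a root. Let `b''` agree with `b`
below `L`, be `0` at the places `L ≤ i < l`, and `β` at `l`; then
`part p b'' (l+1) = tv q_1 (β / 2^{(l+1)!}) * part p b L` (`part_eq_of_zero`, `part_congr`).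
Apply the induction hypothesis to `b''`, `l + 1` and the list without its first element. -/
theorem exists_digits (p : ℕ → ι × ι) (J : Finset ι) (x y : ι)
    (hinf : ∀ i j, i ∈ J → j ∈ J → i ≠ j → ¬ (i = x ∧ j = y) → ¬ (i = y ∧ j = x) →
        ∀ L : ℕ, ∃ l, L ≤ l ∧ p l = (i, j))
    (b : Dig) (L : ℕ) (R : MvPolynomial (ι × ι) ℝ)
    (h : ∃ k ∈ Kgp J x y, val R ((k * part p b L : SLR ι) : Matrix ι ι ℝ) ≠ 0) :
    ∃ b' : Dig, (∀ l, l < L → b' l = b l) ∧
      val R ((limG p b' : SLR ι) : Matrix ι ι ℝ) ≠ 0 := by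
  obtain ⟨k, hk, hv⟩ := h
  revert b L
  refine Subgroup.closure_induction_right (p := fun k _ => ∀ (b : Dig) (L : ℕ),
    val R ((k * part p b L : SLR ι) : Matrix ι ι ℝ) ≠ 0 →
    ∃ b' : Dig, (∀ l, l < L → b' l = b l) ∧
      val R ((limG p b' : SLR ι) : Matrix ι ι ℝ) ≠ 0) ?_ ?_ ?_ hk
  · intro b L hv
    rw [one_mul] at hv
    have hb' : ∀ l, l < L → (fun i => if i < L then b i else 0 : Dig) l = b l :=
      fun l hl => if_pos hl
    refine ⟨fun i => if i < L then b i else 0, hb', ?_⟩
    rw [limG_eq_part p _ L (fun l hl => by rw [if_neg (by omega)]; rfl),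
      part_congr p b _ L hb']
    exact hv
  · rintro k' - g ⟨i, j, t, hi, hj, hij, h1, h2, rfl⟩ ih b L hv
    obtain ⟨b1, L1, hL, hb1, hv1⟩ := grid_step_digit p (i, j) (hinf i j hi hj hij h1 h2) b L R k' t hv
    obtain ⟨b', hb', hv'⟩ := ih b1 L1 hv1
    exact ⟨b', fun l hl => (hb' l (hl.trans_le hL)).trans (hb1 l hl), hv'⟩
  · rintro k' - g ⟨i, j, t, hi, hj, hij, h1, h2, rfl⟩ ih b L hv
    rw [grid_tv_inv] at hv
    obtain ⟨b1, L1, hL, hb1, hv1⟩ := grid_step_digit p (i, j) (hinf i j hi hj hij h1 h2) b L R k' (-t) hv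
    obtain ⟨b', hb', hv'⟩ := ih b1 L1 hv1
    exact ⟨b', fun l hl => (hb' l (hl.trans_le hL)).trans (hb1 l hl), hv'⟩

end Pool.Agent.W_MP_bb6588_an
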