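import Mathlib
import Pool.Agent.W_MP_bb6588_an.Defs

set_option autoImplicit false

/-!
# A short integer vector or covector forces the point `f Γ` out of compact sets
-/

namespace Pool.Agent.W_MP_bb6588_an

open Matrix Filter Topology

variable {ι : Type} [Fintype ι] [DecidableEq ι]

/-- A bound for the size of `k` and `k⁻¹`. -/
noncomputable def bd (k : SLR ι) : ℝ :=
  1 + nrm (k : Matrix ι ι ℝ) + nrm ((k⁻¹ : SLR ι) : Matrix ι ι ℝ)

theorem nrm_nonneg_aux (M : Matrix ι ι ℝ) : 0 ≤ nrm M :=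
  Finset.sum_nonneg fun _ _ => Finset.sum_nonneg fun _ _ => abs_nonneg _

theorem bd_pos (k : SLR ι) : 0 < bd k := by
  have h1 := nrm_nonneg_aux (k : Matrix ι ι ℝ)
  have h2 := nrm_nonneg_aux ((k⁻¹ : SLR ι) : Matrix ι ι ℝ)
  unfold bd
  linarith

/-- `|(M v)_i| ≤ nrm M * c` if `|v_j| ≤ c` for all `j`. -/
theorem abs_mulVec_le (M : Matrix ι ι ℝ) (v : ι → ℝ) (c : ℝ) (hv : ∀ j, |v j| ≤ c) (i : ι) :
    |(M *ᵥ v) i| ≤ nrm M * c := by
  have hc : 0 ≤ c := le_trans (abs_nonneg _) (hv i)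
  have h1 : |(M *ᵥ v) i| ≤ ∑ j, |M i j| * c := by
    rw [Matrix.mulVec, dotProduct]
    refine le_trans (Finset.abs_sum_le_sum_abs _ _) (Finset.sum_le_sum fun j _ => ?_)
    rw [abs_mul]
    exact mul_le_mul_of_nonneg_left (hv j) (abs_nonneg _)
  refine le_trans h1 ?_
  rw [← Finset.sum_mul]
  refine mul_le_mul_of_nonneg_right ?_ hc
  unfold nrm
  exact Finset.single_le_sum (f := fun i => ∑ j, |M i j|)
    (fun _ _ => Finset.sum_nonneg fun _ _ => abs_nonneg _) (Finset.mem_univ i)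

theorem nrm_transpose_aux (M : Matrix ι ι ℝ) : nrm Mᵀ = nrm M := by
  unfold nrm
  rw [Finset.sum_comm]
  rfl

theorem bd_inv_aux (k : SLR ι) : bd k⁻¹ = bd k := by
  unfold bd
  rw [inv_inv]
  ring

theorem Short.mono {f : SLR ι} {ε ε' : ℝ} (h : Short f ε) (hε : ε ≤ ε') : Short f ε' := by
  rcases h with ⟨u, hu, h⟩ | ⟨u, hu, h⟩
  · exact Or.inl ⟨u, hu, fun i => lt_of_lt_of_le (h i) hε⟩
  · exact Or.inr ⟨u, hu, fun i => lt_of_lt_of_le (h i) hε⟩

/-- Proof. `(k f) u = k (f u)`, and `(k f)⁻¹ᵀ u = k⁻¹ᵀ (f⁻¹ᵀ u)`; use `abs_mulVec_le` (the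
norm `nrm` of the transpose is the norm of the matrix) and `nrm k, nrm k⁻¹ < bd k`. -/
theorem Short.mul_left {f : SLR ι} {ε : ℝ} (hε : 0 < ε) (hf : Short f ε) (k : SLR ι) :
    Short (k * f) (bd k * ε) := by
  rcases hf with ⟨u, hu, h⟩ | ⟨u, hu, h⟩
  · refine Or.inl ⟨u, hu, fun i => ?_⟩
    have h1 : (((k * f : SLR ι) : Matrix ι ι ℝ) *ᵥ fun j => (u j : ℝ))
        = (k : Matrix ι ι ℝ) *ᵥ ((f : Matrix ι ι ℝ) *ᵥ fun j => (u j : ℝ)) := by
      rw [Matrix.mulVec_mulVec, Matrix.SpecialLinearGroup.coe_mul]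
    rw [h1]
    refine lt_of_le_of_lt (abs_mulVec_le _ _ ε (fun j => (h j).le) i) ?_
    refine mul_lt_mul_of_pos_right ?_ hε
    have h2 := nrm_nonneg_aux ((k⁻¹ : SLR ι) : Matrix ι ι ℝ)
    unfold bd
    linarith
  · refine Or.inr ⟨u, hu, fun i => ?_⟩
    have h1 : ((((k * f)⁻¹ : SLR ι) : Matrix ι ι ℝ)ᵀ *ᵥ fun j => (u j : ℝ))
        = ((k⁻¹ : SLR ι) : Matrix ι ι ℝ)ᵀ *ᵥ
          (((f⁻¹ : SLR ι) : Matrix ι ι ℝ)ᵀ *ᵥ fun j => (u j : ℝ)) := by
      rw [Matrix.mulVec_mulVec, _root_.mul_inv_rev, Matrix.SpecialLinearGroup.coe_mul,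
        Matrix.transpose_mul]
    rw [h1]
    refine lt_of_le_of_lt (abs_mulVec_le _ _ ε (fun j => (h j).le) i) ?_
    refine mul_lt_mul_of_pos_right ?_ hε
    rw [nrm_transpose_aux]
    have h2 := nrm_nonneg_aux (k : Matrix ι ι ℝ)
    unfold bd
    linarith

/-- An element of `SL_ι(ℤ)` is not `1`-short. -/
theorem not_short_aux (γ : SLR ι) (hγ : γ ∈ SLZ ι) : ¬ Short γ 1 := by
  have key : ∀ (M : Matrix ι ι ℤ) (N : Matrix ι ι ℤ), N * M = 1 → ∀ u : ι → ℤ, u ≠ 0 →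
      ¬ ∀ i, |((M.map (Int.cast : ℤ → ℝ)) *ᵥ fun j => (u j : ℝ)) i| < 1 := by
    intro M N hNM u hu h
    have h1 : ∀ i, (M *ᵥ u) i = 0 := by
      intro i
      have h2 : ((M.map (Int.cast : ℤ → ℝ)) *ᵥ fun j => (u j : ℝ)) i = (((M *ᵥ u) i : ℤ) : ℝ) := by
        simp only [Matrix.mulVec, dotProduct, Matrix.map_apply]
        push_cast
        rfl
      have h3 := h i
      rw [h2] at h3
      have h4 : |(M *ᵥ u) i| < 1 := by exact_mod_cast h3
      exact Int.abs_lt_one_iff.mp h4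
    apply hu
    have h5 : M *ᵥ u = 0 := funext h1
    have h6 : (N * M) *ᵥ u = 0 := by rw [← Matrix.mulVec_mulVec, h5, Matrix.mulVec_zero]
    rwa [hNM, Matrix.one_mulVec] at h6
  obtain ⟨g, rfl⟩ := hγ
  rintro (⟨u, hu, h⟩ | ⟨u, hu, h⟩)
  · refine key (g : Matrix ι ι ℤ) ((g⁻¹ : Matrix.SpecialLinearGroup ι ℤ) : Matrix ι ι ℤ) ?_ u hu
      (fun i => ?_)
    · rw [← Matrix.SpecialLinearGroup.coe_mul, inv_mul_cancel, Matrix.SpecialLinearGroup.coe_one]
    · exact h i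
  · refine key ((g⁻¹ : Matrix.SpecialLinearGroup ι ℤ) : Matrix ι ι ℤ)ᵀ (g : Matrix ι ι ℤ)ᵀ ?_ u hu
      (fun i => ?_)
    · rw [← Matrix.transpose_mul, ← Matrix.SpecialLinearGroup.coe_mul, inv_mul_cancel,
        Matrix.SpecialLinearGroup.coe_one, Matrix.transpose_one]
    · have h7 := h i
      rw [← map_inv] at h7
      exact h7

theorem continuous_nrm_aux {X : Type*} [TopologicalSpace X] (F : X → Matrix ι ι ℝ)
    (hF : Continuous F) : Continuous fun x => nrm (F x) := by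
  unfold nrm
  refine continuous_finsetSum _ fun i _ => continuous_finsetSum _ fun j _ => ?_
  exact (hF.matrix_elem i j).abs

theorem continuous_bd_aux : Continuous (fun g : SLR ι => bd g) := by
  unfold bd
  refine (continuous_const.add (continuous_nrm_aux _ ?_)).add (continuous_nrm_aux _ ?_)
  · exact continuous_subtype_val
  · exact continuous_subtype_val.comp continuous_inv

/-- If `f a` has `ε`-short integer vectors or covectors for every `ε > 0` eventually along `l`, then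
`f a Γ` leaves every compact subset of `SL_ι(ℝ)/Γ`, for `Γ` commensurable with `SL_ι(ℤ)`.

Proof. Let `K ⊆ SL/Γ` be compact. `SL_ι(ℝ)` is locally compact
(`Matrix.SpecialLinearGroup.isClosedEmbedding_val`) and the quotient map is open, so finitely many
images of interiors of compact sets cover `K`: there is a compact `K' ⊆ SL_ι(ℝ)` with
`K ⊆ mk '' K'`. `Γ₀ = Γ ⊓ SL_ι(ℤ)` has finite index in `Γ` (commensurability), so there is a finite
set `S ⊆ Γ` with `Γ ⊆ ⋃ s ∈ S, s • Γ₀`. If `mk (f a) ∈ K` then `f a = κ s γ` with `κ ∈ K'`,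
`s ∈ S`, `γ ∈ SL_ι(ℤ)`. For a nonzero integer vector `u`, `w = γ u` is again a nonzero integer
vector, so `1 ≤ max |w_j|`, and `w = (κ s)⁻¹ (f a u)` gives `1 ≤ nrm ((κ s)⁻¹) * max |(f a u)_j|`.
The same for covectors with `(κ s)ᵀ`: `(f a)⁻¹ᵀ u = (κ s)⁻¹ᵀ (γ⁻¹ᵀ u)`. Since `nrm ((κ s)^{±1})`
is bounded for `κ ∈ K'`, `s ∈ S` (continuity, compactness) by some `C > 0`, `f a` is not
`ε`-short for `ε ≤ 1 / C`. -/
theorem tendsto_cocompact_of_short {α : Type*} (l : Filter α) (f : α → SLR ι)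
    (hf : ∀ ε : ℝ, 0 < ε → ∀ᶠ a in l, Short (f a) ε) (Γ : Subgroup (SLR ι))
    (hΓ : Subgroup.Commensurable Γ (SLZ ι)) :
    Tendsto (fun a => ((f a : SLR ι) : SLR ι ⧸ Γ)) l (cocompact (SLR ι ⧸ Γ)) := by
  rw [Filter.hasBasis_cocompact.tendsto_right_iff]
  intro K hK
  -- a bound for coset representatives of `SLZ ⊓ Γ` in `Γ`
  have hfin : Finite (Γ ⧸ (SLZ ι).subgroupOf Γ) := by
    have h := hΓ.2
    rw [Subgroup.relIndex] at h
    exact Subgroup.index_ne_zero_iff_finite.mp h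
  obtain ⟨B, hB⟩ := (Set.finite_range
    (fun q : Γ ⧸ (SLZ ι).subgroupOf Γ => bd ((q.out : Γ) : SLR ι))).bddAbove
  have hB' : ∀ q : Γ ⧸ (SLZ ι).subgroupOf Γ, bd ((q.out : Γ) : SLR ι) ≤ B := fun q =>
    hB ⟨q, rfl⟩
  have hB0 : 0 < B := lt_of_lt_of_le (bd_pos _) (hB' (QuotientGroup.mk 1))
  have key : ∃ ε : ℝ, 0 < ε ∧ ∀ g : SLR ι, ((g : SLR ι) : SLR ι ⧸ Γ) ∈ K → ¬ Short g ε := by
    refine hK.induction_on (p := fun S => ∃ ε : ℝ, 0 < ε ∧ ∀ g : SLR ι,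
      ((g : SLR ι) : SLR ι ⧸ Γ) ∈ S → ¬ Short g ε) ?_ ?_ ?_ ?_
    · exact ⟨1, one_pos, fun g hg => absurd hg (Set.notMem_empty _)⟩
    · rintro s t hst ⟨ε, hε, h⟩
      exact ⟨ε, hε, fun g hg => h g (hst hg)⟩
    · rintro s t ⟨ε, hε, h⟩ ⟨ε', hε', h'⟩
      refine ⟨min ε ε', lt_min hε hε', fun g hg hsh => ?_⟩
      rcases hg with hg | hg
      · exact h g hg (hsh.mono (min_le_left _ _))
      · exact h' g hg (hsh.mono (min_le_right _ _))
    · intro x hx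
      obtain ⟨g₀, rfl⟩ := QuotientGroup.mk_surjective x
      set C := bd g₀ + 1 with hC
      have hC0 : 0 < C := by
        have := bd_pos g₀
        linarith
      set V : Set (SLR ι) := {g | bd g < C} with hV
      have hVo : IsOpen V := isOpen_lt continuous_bd_aux continuous_const
      have hVm : g₀ ∈ V := by
        show bd g₀ < C
        linarith
      refine ⟨(fun g : SLR ι => (g : SLR ι ⧸ Γ)) '' V, ?_, 1 / (B * C), by positivity, ?_⟩
      · refine mem_nhdsWithin_of_mem_nhds (IsOpen.mem_nhds ?_ ⟨g₀, hVm, rfl⟩)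
        exact QuotientGroup.isOpenMap_coe _ hVo
      · rintro g ⟨κ, hκ, hκg⟩ hsh
        have hmem : κ⁻¹ * g ∈ Γ := QuotientGroup.eq.mp hκg
        obtain ⟨h, hh⟩ := QuotientGroup.mk_out_eq_mul ((SLZ ι).subgroupOf Γ) (⟨κ⁻¹ * g, hmem⟩ : Γ)
        set s : Γ := (QuotientGroup.mk (⟨κ⁻¹ * g, hmem⟩ : Γ) : Γ ⧸ (SLZ ι).subgroupOf Γ).out with hs
        have hsB : bd (s : SLR ι) ≤ B := hB' _
        have e1 : (s : SLR ι) = κ⁻¹ * g * ((h : Γ) : SLR ι) := by
          rw [hh]; rfl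
        have hhm : ((h : Γ) : SLR ι) ∈ SLZ ι := Subgroup.mem_subgroupOf.mp h.2
        have e2 : (s : SLR ι)⁻¹ * (κ⁻¹ * g) = ((h : Γ) : SLR ι)⁻¹ := by
          rw [e1]; group
        have hε0 : 0 < 1 / (B * C) := by positivity
        have s1 := hsh.mul_left hε0 κ⁻¹
        have s2 := s1.mul_left (mul_pos (bd_pos _) hε0) (s : SLR ι)⁻¹
        rw [e2] at s2
        refine not_short_aux _ (Subgroup.inv_mem _ hhm) (s2.mono ?_)
        rw [bd_inv_aux, bd_inv_aux]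
        have hκ' : bd κ ≤ C := le_of_lt hκ
        have hb1 := bd_pos κ
        calc bd (s : SLR ι) * (bd κ * (1 / (B * C))) ≤ B * (C * (1 / (B * C))) := by
              refine mul_le_mul hsB ?_ (by positivity) hB0.le
              exact mul_le_mul_of_nonneg_right hκ' hε0.le
          _ = 1 := by field_simp
  obtain ⟨ε, hε, hK'⟩ := key
  filter_upwards [hf ε hε] with a ha
  exact fun hmem => hK' _ hmem ha

end Pool.Agent.W_MP_bb6588_an
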