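import Mathlib
import Pool.Agent.W_MP_bb6588_an.Short

set_option autoImplicit false

/-!
# From the line `ℝ η` to the subspace `E`
-/

namespace Pool.Agent.W_MP_bb6588_an

open Matrix Filter Topology

variable {ι : Type} [Fintype ι] [DecidableEq ι]

theorem expD_add (z w : Lie ι) : expD (z + w) = expD z * expD w := by
  apply Subtype.ext
  change Matrix.diagonal (fun i => Real.exp (((z + w : Lie ι) : ι → ℝ) i)) =
    Matrix.diagonal (fun i => Real.exp ((z : ι → ℝ) i)) *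
      Matrix.diagonal (fun i => Real.exp ((w : ι → ℝ) i))
  rw [Matrix.diagonal_mul_diagonal]
  congr 1
  funext i
  rw [← Real.exp_add]
  rfl

theorem expD_zero' : expD (0 : Lie ι) = 1 := by
  apply Subtype.ext
  change Matrix.diagonal (fun i => Real.exp (((0 : Lie ι) : ι → ℝ) i)) = (1 : Matrix ι ι ℝ)
  rw [← Matrix.diagonal_one]
  congr 1
  funext i
  simp

theorem expD_neg (z : Lie ι) : expD (-z) = (expD z)⁻¹ := by
  rw [eq_inv_iff_mul_eq_one, ← expD_add, neg_add_cancel, expD_zero']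

theorem expD_nsmul (n : ℕ) (z : Lie ι) : expD (n • z) = expD z ^ n := by
  induction n with
  | zero => rw [zero_smul, pow_zero, expD_zero']
  | succ n ih => rw [succ_nsmul, expD_add, ih, pow_succ]

/-- If `FixOff J g` then also `FixOff J g⁻¹`.

Proof. For `i ∉ J`: `g e_i = e_i` gives `g⁻¹ e_i = e_i` (column `i` of `g⁻¹`), and the row `i` of
`g`: `e_iᵀ g = e_iᵀ` gives `e_iᵀ g⁻¹ = e_iᵀ`. -/
theorem FixOff.inv {J : Finset ι} {g : SLR ι} (h : FixOff J g) : FixOff J g⁻¹ := by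
  intro i hi j
  have h1 : (g : Matrix ι ι ℝ) * ((g⁻¹ : SLR ι) : Matrix ι ι ℝ) = 1 := by
    rw [← Matrix.SpecialLinearGroup.coe_mul, mul_inv_cancel, Matrix.SpecialLinearGroup.coe_one]
  have h2 : ((g⁻¹ : SLR ι) : Matrix ι ι ℝ) * (g : Matrix ι ι ℝ) = 1 := by
    rw [← Matrix.SpecialLinearGroup.coe_mul, inv_mul_cancel, Matrix.SpecialLinearGroup.coe_one]
  constructor
  · have h3 := congrFun (congrFun h1 i) j
    rw [Matrix.mul_apply] at h3
    rw [← h3, Finset.sum_eq_single i]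
    · rw [(h i hi i).1, Matrix.one_apply_eq, one_mul]
    · intro k _ hk
      rw [(h i hi k).1, Matrix.one_apply_ne (Ne.symm hk), zero_mul]
    · intro h4
      exact absurd (Finset.mem_univ i) h4
  · have h3 := congrFun (congrFun h2 j) i
    rw [Matrix.mul_apply] at h3
    rw [← h3, Finset.sum_eq_single i]
    · rw [(h i hi i).2, Matrix.one_apply_eq, mul_one]
    · intro k _ hk
      rw [(h i hi k).2, Matrix.one_apply_ne hk, mul_zero]
    · intro h4
      exact absurd (Finset.mem_univ i) h4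

/-- Column `i ∉ J` of `exp(z) g`. -/
theorem Reduce_col {J : Finset ι} {g : SLR ι} (hg : FixOff J g) {i : ι} (hi : i ∉ J) (z : Lie ι)
    (j : ι) : (((expD z * g : SLR ι) : Matrix ι ι ℝ) *ᵥ
      fun k => (((Pi.single i 1 : ι → ℤ) k : ℤ) : ℝ)) j =
        if j = i then Real.exp ((z : ι → ℝ) i) else 0 := by
  have h1 : (fun k => (((Pi.single i 1 : ι → ℤ) k : ℤ) : ℝ)) = (Pi.single i 1 : ι → ℝ) := by
    funext k
    by_cases hk : k = i
    · subst hk; simp
    · simp [Pi.single_eq_of_ne hk]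
  rw [h1, Matrix.mulVec_single_one]
  change ((expD z * g : SLR ι) : Matrix ι ι ℝ) j i = _
  rw [Matrix.SpecialLinearGroup.coe_mul]
  change (Matrix.diagonal (fun i => Real.exp ((z : ι → ℝ) i)) * (g : Matrix ι ι ℝ)) j i = _
  rw [Matrix.diagonal_mul, (hg i hi j).2]
  by_cases hj : j = i
  · subst hj; simp
  · rw [Matrix.one_apply_ne hj, if_neg hj, mul_zero]

/-- Row `i ∉ J` of `(exp(z) g)⁻¹`. -/
theorem Reduce_row {J : Finset ι} {g : SLR ι} (hg : FixOff J g) {i : ι} (hi : i ∉ J) (z : Lie ι)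
    (j : ι) : ((((expD z * g)⁻¹ : SLR ι) : Matrix ι ι ℝ)ᵀ *ᵥ
      fun k => (((Pi.single i 1 : ι → ℤ) k : ℤ) : ℝ)) j =
        if j = i then Real.exp (-(z : ι → ℝ) i) else 0 := by
  have h1 : (fun k => (((Pi.single i 1 : ι → ℤ) k : ℤ) : ℝ)) = (Pi.single i 1 : ι → ℝ) := by
    funext k
    by_cases hk : k = i
    · subst hk; simp
    · simp [Pi.single_eq_of_ne hk]
  rw [h1, Matrix.mulVec_single_one]
  change (((expD z * g)⁻¹ : SLR ι) : Matrix ι ι ℝ) i j = _
  rw [_root_.mul_inv_rev, ← expD_neg, Matrix.SpecialLinearGroup.coe_mul]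
  change (((g⁻¹ : SLR ι) : Matrix ι ι ℝ) *
    Matrix.diagonal (fun i => Real.exp (((-z : Lie ι) : ι → ℝ) i))) i j = _
  rw [Matrix.mul_diagonal, (hg.inv i hi j).1]
  by_cases hj : j = i
  · subst hj; simp
  · rw [Matrix.one_apply_ne (Ne.symm hj), if_neg hj, zero_mul]

/-- If some coordinate of `z` outside `J` is large, then `exp(z) g` is short. -/
theorem Reduce_far {J : Finset ι} {g : SLR ι} (hg : FixOff J g) {i : ι} (hi : i ∉ J) (z : Lie ι)
    {ε : ℝ} (hε : 0 < ε) (hz : Real.log (1 / ε) < |(z : ι → ℝ) i|) : Short (expD z * g) ε := by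
  have hlog : Real.log (1 / ε) = -Real.log ε := by rw [one_div, Real.log_inv]
  rw [hlog] at hz
  have hne : (Pi.single i 1 : ι → ℤ) ≠ 0 := by
    intro h
    have := congrFun h i
    simp at this
  rcases le_or_gt 0 ((z : ι → ℝ) i) with h0 | h0
  · rw [abs_of_nonneg h0] at hz
    refine Or.inr ⟨Pi.single i 1, hne, fun j => ?_⟩
    rw [Reduce_row hg hi z j]
    by_cases hj : j = i
    · rw [if_pos hj, abs_of_pos (Real.exp_pos _)]
      calc Real.exp (-(z : ι → ℝ) i) < Real.exp (Real.log ε) := by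
            apply Real.exp_lt_exp.2; linarith
        _ = ε := Real.exp_log hε
    · rw [if_neg hj, abs_zero]; exact hε
  · rw [abs_of_neg h0] at hz
    refine Or.inl ⟨Pi.single i 1, hne, fun j => ?_⟩
    rw [Reduce_col hg hi z j]
    by_cases hj : j = i
    · rw [if_pos hj, abs_of_pos (Real.exp_pos _)]
      calc Real.exp ((z : ι → ℝ) i) < Real.exp (Real.log ε) := by
            apply Real.exp_lt_exp.2; linarith
        _ = ε := Real.exp_log hε
    · rw [if_neg hj, abs_zero]; exact hε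

theorem Reduce_nrm_expD (w : Lie ι) {C : ℝ} (hw : ∀ i, |(w : ι → ℝ) i| ≤ C) :
    nrm ((expD w : SLR ι) : Matrix ι ι ℝ) ≤ (Fintype.card ι : ℝ) * Real.exp C := by
  unfold nrm
  have h1 : ∀ i : ι, ∑ j, |((expD w : SLR ι) : Matrix ι ι ℝ) i j| ≤ Real.exp C := by
    intro i
    rw [Finset.sum_eq_single i]
    · change |Matrix.diagonal (fun i => Real.exp ((w : ι → ℝ) i)) i i| ≤ _
      rw [Matrix.diagonal_apply_eq, abs_of_pos (Real.exp_pos _)]
      exact Real.exp_le_exp.2 ((le_abs_self _).trans (hw i))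
    · intro k _ hk
      change |Matrix.diagonal (fun i => Real.exp ((w : ι → ℝ) i)) i k| = _
      rw [Matrix.diagonal_apply_ne _ (Ne.symm hk), abs_zero]
    · intro h4
      exact absurd (Finset.mem_univ i) h4
  calc ∑ i, ∑ j, |((expD w : SLR ι) : Matrix ι ι ℝ) i j| ≤ ∑ _i : ι, Real.exp C :=
        Finset.sum_le_sum fun i _ => h1 i
    _ = _ := by rw [Finset.sum_const, Finset.card_univ, nsmul_eq_mul]

theorem Reduce_bd_expD (w : Lie ι) {C : ℝ} (hw : ∀ i, |(w : ι → ℝ) i| ≤ C) :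
    bd (expD w) ≤ 1 + 2 * ((Fintype.card ι : ℝ) * Real.exp C) := by
  have h1 := Reduce_nrm_expD w hw
  have h2 : nrm ((expD (-w) : SLR ι) : Matrix ι ι ℝ) ≤ (Fintype.card ι : ℝ) * Real.exp C := by
    apply Reduce_nrm_expD
    intro i
    change |(-(w : ι → ℝ)) i| ≤ C
    rw [Pi.neg_apply, abs_neg]
    exact hw i
  unfold bd
  rw [← expD_neg]
  linarith

/-- The projection of `E` to the coordinates outside `J`. -/
def reduceProj (J : Finset ι) (E : Submodule ℝ (Lie ι)) : E →ₗ[ℝ] (ι → ℝ) where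
  toFun z := fun i => if i ∈ J then 0 else ((z : Lie ι) : ι → ℝ) i
  map_add' a b := by
    funext i
    by_cases hi : i ∈ J
    · simp [hi]
    · simp [hi]
  map_smul' c a := by
    funext i
    by_cases hi : i ∈ J
    · simp [hi]
    · simp [hi]

theorem Reduce_cont (J : Finset ι) (E : Submodule ℝ (Lie ι)) :
    Continuous fun z : E => reduceProj J E z := by
  refine continuous_pi fun i => ?_
  change Continuous fun z : E => (if i ∈ J then (0 : ℝ) else ((z : Lie ι) : ι → ℝ) i)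
  by_cases hi : i ∈ J
  · simp only [if_pos hi]
    exact continuous_const
  · simp only [if_neg hi]
    exact (continuous_apply i).comp (continuous_subtype_val.comp continuous_subtype_val)

/-- Every `z ∈ E` is bounded distance away from the line `ℝ η`, in terms of its coordinates outside
`J`. -/
theorem Reduce_split (J : Finset ι) (E : Submodule ℝ (Lie ι)) (η : Lie ι)
    (hJ : ∀ z : Lie ι, z ∈ E → (∀ i, i ∉ J → (z : ι → ℝ) i = 0) → ∃ c : ℝ, z = c • η) :
    ∃ C : ℝ, 0 < C ∧ ∀ z : E, ∀ L : ℝ, 0 ≤ L → (∀ i, i ∉ J → |((z : Lie ι) : ι → ℝ) i| ≤ L) →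
      ∃ (c : ℝ) (w : Lie ι), (z : Lie ι) = w + c • η ∧ ‖w‖ ≤ C * L := by
  obtain ⟨f, hf⟩ : ∃ f : E →L[ℝ] LinearMap.range (reduceProj J E), ∀ x, f x =
      (reduceProj J E).rangeRestrict x :=
    ⟨⟨(reduceProj J E).rangeRestrict, (Reduce_cont J E).subtype_mk _⟩, fun _ => rfl⟩
  have hsurj : Function.Surjective f := by
    intro y
    obtain ⟨x, hx⟩ := LinearMap.surjective_rangeRestrict (reduceProj J E) y
    exact ⟨x, by rw [hf]; exact hx⟩
  obtain ⟨C, hC, hCx⟩ := ContinuousLinearMap.exists_preimage_norm_le (𝕜 := ℝ) (𝕜' := ℝ)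
    (σ := RingHom.id ℝ) (σ' := RingHom.id ℝ) (E := E)
    (F := LinearMap.range (reduceProj J E)) f hsurj
  refine ⟨C, hC, ?_⟩
  intro z L hL hz
  obtain ⟨x, hx, hxn⟩ := hCx (f z)
  rw [hf, hf] at hx
  have hx' : reduceProj J E x = reduceProj J E z := congrArg Subtype.val hx
  have hn : ‖f z‖ ≤ L := by
    rw [hf]
    change ‖reduceProj J E z‖ ≤ L
    rw [pi_norm_le_iff_of_nonneg hL]
    intro i
    change ‖(if i ∈ J then (0 : ℝ) else ((z : Lie ι) : ι → ℝ) i)‖ ≤ L
    by_cases hi : i ∈ J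
    · rw [if_pos hi, norm_zero]; exact hL
    · rw [if_neg hi, Real.norm_eq_abs]; exact hz i hi
  obtain ⟨c, hc⟩ := hJ ((z : Lie ι) - (x : Lie ι)) (E.sub_mem z.2 x.2) (by
    intro i hi
    have h1 := congrFun hx' i
    change (if i ∈ J then (0 : ℝ) else ((x : Lie ι) : ι → ℝ) i) =
      (if i ∈ J then (0 : ℝ) else ((z : Lie ι) : ι → ℝ) i) at h1
    rw [if_neg hi, if_neg hi] at h1
    change ((z : Lie ι) : ι → ℝ) i - ((x : Lie ι) : ι → ℝ) i = 0
    rw [h1, sub_self])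
  refine ⟨c, x, ?_, ?_⟩
  · rw [← hc]; abel
  · exact hxn.trans (mul_le_mul_of_nonneg_left hn hC.le)

/-- Let `E ∩ ℝ^J = ℝ η`, let `g` be the identity outside `J`, and suppose that `exp(τ η) g` is
`ε`-short for `|τ| ≥ T(ε)`. Then `exp(z) g` is `ε`-short for all `z ∈ E` outside a compact set.

Proof. We may assume `ε < 1`. Suppose `exp(z) g` is not `ε`-short, `z ∈ E`. For `i ∉ J` the column
`i` of `g` is `e_i`, so `exp(z) g e_i = e^{z_i} e_i` and `(exp(z) g)⁻¹ᵀ e_i = e^{-z_i} e_i`;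
hence `|z_i| ≤ L := log (1/ε)` for all `i ∉ J`. The linear map `π : E → (ι → ℝ)`,
`π z = (z_i for i ∉ J, 0 for i ∈ J)` has kernel `ℝ η`; so there is a constant `C` (depending on `E`,
`J`) such that for all `z ∈ E` there is `c` with `‖z - c η‖ ≤ C ‖π z‖` (finite dimension: choose a
complement `F` of `ℝ η` in `E`; `π` is injective on `F`, so `‖w‖ ≤ C ‖π w‖` on `F`; or: apply
`LinearMap.exists_rightInverse...`/ antilipschitz). So `‖z - c η‖ ≤ C L =: C'`. Now
`exp(z) g = exp(z - cη) exp(cη) g` and `bd (exp(z - cη)) ≤ B := 1 + 2 |ι| e^{C'}`. If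
`|c| ≥ T(ε / B)`, then `exp(cη) g` is `ε/B`-short and `exp(z) g` is `ε`-short by `Short.mul_left`,
a contradiction. So `|c| < T(ε/B)` and `‖z‖ ≤ C' + T(ε/B) ‖η‖`: `z` lies in a ball, and closed balls
of `E` are compact. -/
theorem short_of_line (J : Finset ι) (E : Submodule ℝ (Lie ι)) (η : Lie ι)
    (hJ : ∀ z : Lie ι, z ∈ E → (∀ i, i ∉ J → (z : ι → ℝ) i = 0) → ∃ c : ℝ, z = c • η)
    (hηE : η ∈ E) (hηJ : ∀ i, i ∉ J → (η : ι → ℝ) i = 0) (g : SLR ι) (hg : FixOff J g)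
    (hline : ∀ ε : ℝ, 0 < ε → ∃ T : ℝ, ∀ τ : ℝ, T ≤ |τ| → Short (expD (τ • η) * g) ε) :
    ∀ ε : ℝ, 0 < ε → ∀ᶠ z : E in cocompact E, Short (expD (z : Lie ι) * g) ε := by
  intro ε hε
  obtain ⟨C, hC, hsplit⟩ := Reduce_split J E η hJ
  -- the bound for the coordinates outside `J`
  obtain ⟨L, hL⟩ : ∃ L, L = max 0 (Real.log (1 / ε)) := ⟨_, rfl⟩
  have hL0 : 0 ≤ L := by rw [hL]; exact le_max_left _ _
  have hL1 : Real.log (1 / ε) ≤ L := by rw [hL]; exact le_max_right _ _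
  obtain ⟨B, hB⟩ : ∃ B, B = 1 + 2 * ((Fintype.card ι : ℝ) * Real.exp (C * L)) := ⟨_, rfl⟩
  have hB0 : 0 < B := by rw [hB]; positivity
  obtain ⟨T, hT⟩ := hline (ε / B) (div_pos hε hB0)
  have hcpt : IsCompact (Metric.closedBall (0 : E) (C * L + |T| * ‖η‖)) := isCompact_closedBall _ _
  filter_upwards [hcpt.compl_mem_cocompact] with z hz
  by_contra hns
  apply hz
  have hcoord : ∀ i, i ∉ J → |((z : Lie ι) : ι → ℝ) i| ≤ L := by
    intro i hi
    by_contra hcon
    exact hns (Reduce_far hg hi (z : Lie ι) hε (lt_of_le_of_lt hL1 (not_le.1 hcon)))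
  obtain ⟨c, w, hzw, hw⟩ := hsplit z L hL0 hcoord
  have hwi : ∀ i, |(w : ι → ℝ) i| ≤ C * L := by
    intro i
    have h1 : ‖(w : ι → ℝ) i‖ ≤ ‖(w : ι → ℝ)‖ := norm_le_pi_norm _ i
    rw [Real.norm_eq_abs] at h1
    exact h1.trans hw
  have hcT : |c| < T := by
    by_contra hcon
    apply hns
    have h1 := hT c (not_lt.1 hcon)
    have h2 := Short.mul_left (div_pos hε hB0) h1 (expD w)
    rw [← mul_assoc, ← expD_add, ← hzw] at h2
    refine h2.mono ?_
    have h3 : bd (expD w) ≤ B := by rw [hB]; exact Reduce_bd_expD w hwi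
    calc bd (expD w) * (ε / B) ≤ B * (ε / B) :=
          mul_le_mul_of_nonneg_right h3 (div_pos hε hB0).le
      _ = ε := by field_simp
  refine Metric.mem_closedBall.2 ?_
  have hd : dist z 0 = ‖(z : Lie ι)‖ := dist_zero_right z
  refine hd.le.trans ?_
  rw [hzw]
  calc ‖w + c • η‖ ≤ ‖w‖ + ‖c • η‖ := norm_add_le _ _
    _ ≤ C * L + |T| * ‖η‖ := by
        rw [norm_smul, Real.norm_eq_abs]
        exact add_le_add hw (mul_le_mul_of_nonneg_right (hcT.le.trans (le_abs_self T))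
          (norm_nonneg _))

end Pool.Agent.W_MP_bb6588_an
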