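import Mathlib
import Pool.Agent.W_MP_bb6588_an.Reduce

set_option autoImplicit false

/-!
# Elements of the group generated by the admissible transvections
-/

namespace Pool.Agent.W_MP_bb6588_an

open Matrix

variable {ι : Type} [Fintype ι] [DecidableEq ι]

theorem tv_coe {i j : ι} (hij : i ≠ j) (t : ℝ) :
    (tv (i, j) t : Matrix ι ι ℝ) = 1 + Matrix.single i j t := by
  have h : (i, j).1 ≠ (i, j).2 := hij
  unfold tv
  rw [dif_pos h]
  exact Matrix.SpecialLinearGroup.transvection_coe h t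

theorem tv_comm {a b c : ι} (hab : a ≠ b) (hac : a ≠ c) (hcb : c ≠ b) (t : ℝ) :
    tv (a, b) t = tv (a, c) t * tv (c, b) 1 * tv (a, c) (-t) * tv (c, b) (-1) := by
  apply Subtype.ext
  rw [Matrix.SpecialLinearGroup.coe_mul, Matrix.SpecialLinearGroup.coe_mul,
    Matrix.SpecialLinearGroup.coe_mul, tv_coe hab, tv_coe hac, tv_coe hac, tv_coe hcb, tv_coe hcb]
  simp only [Matrix.add_mul, Matrix.mul_add, Matrix.mul_one, Matrix.one_mul,
    Matrix.single_mul_single_same, Matrix.single_mul_single_of_ne _ _ _ _ hac.symm,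
    Matrix.single_mul_single_of_ne _ _ _ _ hcb.symm, Matrix.single_mul_single_of_ne _ _ _ _ hab.symm,
    Matrix.zero_mul, Matrix.mul_zero, add_zero, mul_one, mul_neg, neg_mul, neg_neg]
  ext k l
  simp only [Matrix.add_apply, Matrix.single_apply]
  split_ifs <;> ring

theorem three_coe {i j : ι} (hij : i ≠ j) (u v : ℝ) (huv : u * v = 1) :
    (tv (i, j) u : Matrix ι ι ℝ) * (tv (j, i) (-v) : Matrix ι ι ℝ) *
      (tv (i, j) u : Matrix ι ι ℝ) =
      1 + Matrix.single i i (-1) + Matrix.single j j (-1) + Matrix.single i j u +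
        Matrix.single j i (-v) := by
  rw [tv_coe hij, tv_coe hij.symm]
  have hvu : v * u = 1 := by rw [mul_comm]; exact huv
  simp only [Matrix.add_mul, Matrix.mul_add, Matrix.mul_one, Matrix.one_mul,
    Matrix.single_mul_single_same, Matrix.single_mul_single_of_ne _ _ _ _ hij.symm,
    Matrix.single_mul_single_of_ne _ _ _ _ hij,
    Matrix.zero_mul, Matrix.mul_zero, add_zero, mul_neg, neg_mul, huv, hvu]
  ext k l
  simp only [Matrix.add_apply, Matrix.single_apply]
  split_ifs <;> ring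

/-- `K` contains all transvections `1 + t E_{ij}`, `i ≠ j` in `J` (if `|J| ≥ 3`, `x ≠ y` in `J`).

Proof. Only `(x, y)` and `(y, x)` are not generators. Choose `z ∈ J` different from `x` and `y`;
`1 + t E_{xy}` is the commutator of `1 + t E_{xz}` and `1 + E_{zy}`:
`(1 + tE_{xz})(1 + E_{zy})(1 - tE_{xz})(1 - E_{zy}) = 1 + tE_{xy}`. The same for `(y, x)`. -/
theorem tv_mem (J : Finset ι) (hJ : 3 ≤ J.card) (x y : ι) (hx : x ∈ J) (hy : y ∈ J) (hxy : x ≠ y)
    (i j : ι) (hi : i ∈ J) (hj : j ∈ J) (hij : i ≠ j) (t : ℝ) : tv (i, j) t ∈ Kgp J x y := by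
  have gen : ∀ (a b : ι) (r : ℝ), a ∈ J → b ∈ J → a ≠ b → ¬ (a = x ∧ b = y) →
      ¬ (a = y ∧ b = x) → tv (a, b) r ∈ Kgp J x y := by
    intro a b r ha hb hab h1 h2
    exact Subgroup.subset_closure ⟨a, b, r, ha, hb, hab, h1, h2, rfl⟩
  obtain ⟨z, hz, hzx, hzy⟩ : ∃ z ∈ J, z ≠ x ∧ z ≠ y := by
    have hc : ((J.erase x).erase y).Nonempty := by
      rw [← Finset.card_pos]
      have h1 : (J.erase x).card = J.card - 1 := Finset.card_erase_of_mem hx
      have h2 : y ∈ J.erase x := Finset.mem_erase.2 ⟨hxy.symm, hy⟩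
      have h3 : ((J.erase x).erase y).card = (J.erase x).card - 1 := Finset.card_erase_of_mem h2
      omega
    obtain ⟨z, hz⟩ := hc
    rw [Finset.mem_erase, Finset.mem_erase] at hz
    exact ⟨z, hz.2.2, hz.2.1, hz.1⟩
  by_cases h1 : i = x ∧ j = y
  · obtain ⟨rfl, rfl⟩ := h1
    rw [tv_comm hij hzx.symm hzy t]
    have e1 : ∀ r : ℝ, tv (i, z) r ∈ Kgp J i j := fun r =>
      gen i z r hx hz hzx.symm (fun h => hzy h.2) (fun h => hij h.1)
    have e2 : ∀ r : ℝ, tv (z, j) r ∈ Kgp J i j := fun r =>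
      gen z j r hz hy hzy (fun h => hzx h.1) (fun h => hzy h.1)
    exact mul_mem (mul_mem (mul_mem (e1 _) (e2 _)) (e1 _)) (e2 _)
  · by_cases h2 : i = y ∧ j = x
    · obtain ⟨rfl, rfl⟩ := h2
      rw [tv_comm hij hzy.symm hzx t]
      have e1 : ∀ r : ℝ, tv (i, z) r ∈ Kgp J j i := fun r =>
        gen i z r hy hz hzy.symm (fun h => hij h.1) (fun h => hzx h.2)
      have e2 : ∀ r : ℝ, tv (z, j) r ∈ Kgp J j i := fun r =>
        gen z j r hz hx hzx (fun h => hzx h.1) (fun h => hzy h.1)
      exact mul_mem (mul_mem (mul_mem (e1 _) (e2 _)) (e1 _)) (e2 _)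
    · exact gen i j t hi hj hij h1 h2

/-- The element `w_{ij} = (1 + E_{ij})(1 - E_{ji})(1 + E_{ij})`. -/
noncomputable def wl (i j : ι) : SLR ι := tv (i, j) 1 * tv (j, i) (-1) * tv (i, j) 1

/-- `w_{ij} exp(η) w_{ij}⁻¹ = exp(η ∘ swap i j)`.

Proof. `w_{ij} = 1 - E_ii - E_jj + E_ij - E_ji`: it maps `e_j ↦ e_i`, `e_i ↦ -e_j` and fixes the
other basis vectors. Compare `w_{ij} exp(η) = exp(η ∘ swap) w_{ij}` entrywise. -/
theorem wl_conj (i j : ι) (hij : i ≠ j) (η ζ : Lie ι)
    (h : ∀ k, (ζ : ι → ℝ) k = (η : ι → ℝ) (Equiv.swap i j k)) :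
    wl i j * expD η * (wl i j)⁻¹ = expD ζ := by
  rw [mul_inv_eq_iff_eq_mul]
  apply Subtype.ext
  rw [Matrix.SpecialLinearGroup.coe_mul, Matrix.SpecialLinearGroup.coe_mul]
  have hw : (wl i j : Matrix ι ι ℝ) = 1 + Matrix.single i i (-1) + Matrix.single j j (-1) +
      Matrix.single i j 1 + Matrix.single j i (-1) := by
    unfold wl
    rw [Matrix.SpecialLinearGroup.coe_mul, Matrix.SpecialLinearGroup.coe_mul]
    exact three_coe hij 1 1 (one_mul 1)
  rw [hw]
  have e1 : (expD η : Matrix ι ι ℝ) = Matrix.diagonal fun i => Real.exp ((η : ι → ℝ) i) := rfl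
  have e2 : (expD ζ : Matrix ι ι ℝ) = Matrix.diagonal fun i => Real.exp ((ζ : ι → ℝ) i) := rfl
  rw [e1, e2]
  ext k l
  rw [Matrix.mul_diagonal, Matrix.diagonal_mul, h k]
  simp only [Matrix.add_apply, Matrix.single_apply, Matrix.one_apply]
  by_cases hki : k = i
  · subst hki
    by_cases hlk : k = l
    · subst hlk
      simp [hij, hij.symm]
    · by_cases hlj : j = l
      · subst hlj
        simp [hij, hij.symm]
      · simp [hlk, hlj]
  · by_cases hkj : k = j
    · subst hkj
      by_cases hlk : k = l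
      · subst hlk
        simp [hij, hij.symm]
      · by_cases hli : i = l
        · subst hli
          simp [hij, hij.symm]
        · simp [hlk, hli]
    · rw [Equiv.swap_apply_of_ne_of_ne hki hkj]
      have hki' : ¬ i = k := fun h => hki h.symm
      have hkj' : ¬ j = k := fun h => hkj h.symm
      by_cases hkl : k = l
      · subst hkl
        simp [hki', hkj']
      · simp [hki', hkj', hkl]

/-- `exp(η) ∈ K` if `η` is supported on `J`.

Proof. For `r : ℝ` and `i ≠ j` in `J` let `λ = exp r`. Then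
`(1 + λE_{ij})(1 - λ⁻¹E_{ji})(1 + λE_{ij}) (1 - E_{ij})(1 + E_{ji})(1 - E_{ij})` is the diagonal
matrix with entries `λ` at `i`, `λ⁻¹` at `j` and `1` elsewhere, that is `exp(r (e_i - e_j))`; it
lies in `K` by `tv_mem`. A traceless `η` supported on `J` is `∑_{j ∈ J} η_j (e_j - e_x)`, and
`exp` is multiplicative (`expD_add`). -/
theorem expD_mem (J : Finset ι) (hJ : 3 ≤ J.card) (x y : ι) (hx : x ∈ J) (hy : y ∈ J)
    (hxy : x ≠ y) (η : Lie ι) (hη : ∀ i, i ∉ J → (η : ι → ℝ) i = 0) :
    expD η ∈ Kgp J x y := by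
  have key : ∀ (i j : ι), i ∈ J → j ∈ J → i ≠ j → ∀ (r : ℝ) (ξ : Lie ι),
      (∀ k, (ξ : ι → ℝ) k = (if k = i then r else 0) - (if k = j then r else 0)) →
      expD ξ ∈ Kgp J x y := by
    intro i j hi hj hij r ξ hξ
    have e : expD ξ = (tv (i, j) (Real.exp r) * tv (j, i) (-Real.exp (-r)) *
        tv (i, j) (Real.exp r)) * (tv (i, j) (-1) * tv (j, i) (-(-1)) * tv (i, j) (-1)) := by
      apply Subtype.ext
      rw [Matrix.SpecialLinearGroup.coe_mul, Matrix.SpecialLinearGroup.coe_mul,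
        Matrix.SpecialLinearGroup.coe_mul, Matrix.SpecialLinearGroup.coe_mul,
        Matrix.SpecialLinearGroup.coe_mul,
        three_coe hij (Real.exp r) (Real.exp (-r)) (by rw [← Real.exp_add]; simp),
        three_coe hij (-1) (-1) (by norm_num)]
      have e1 : (expD ξ : Matrix ι ι ℝ) = Matrix.diagonal fun i => Real.exp ((ξ : ι → ℝ) i) := rfl
      rw [e1]
      simp only [Matrix.add_mul, Matrix.mul_add, Matrix.mul_one, Matrix.one_mul,
        Matrix.single_mul_single_same, Matrix.single_mul_single_of_ne _ _ _ _ hij.symm,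
        Matrix.single_mul_single_of_ne _ _ _ _ hij,
        Matrix.zero_mul, Matrix.mul_zero, add_zero, mul_neg, neg_mul, mul_one, neg_neg, one_mul]
      ext k l
      rw [Matrix.diagonal_apply, hξ k]
      simp only [Matrix.add_apply, Matrix.single_apply, Matrix.one_apply]
      by_cases hki : k = i
      · subst hki
        by_cases hlk : k = l
        · subst hlk
          simp [hij, hij.symm]
        · by_cases hlj : j = l
          · subst hlj
            simp [hij, hij.symm]
          · simp [hlk, hlj]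
      · by_cases hkj : k = j
        · subst hkj
          by_cases hlk : k = l
          · subst hlk
            simp [hij, hij.symm]
          · by_cases hli : i = l
            · subst hli
              simp [hij, hij.symm]
            · simp [hlk, hli]
        · have hki' : ¬ i = k := fun h => hki h.symm
          have hkj' : ¬ j = k := fun h => hkj h.symm
          by_cases hkl : k = l
          · subst hkl
            simp [hki', hkj', hki, hkj]
          · simp [hki', hkj', hkl]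
    rw [e]
    have t1 : ∀ u : ℝ, tv (i, j) u ∈ Kgp J x y := fun u =>
      tv_mem J hJ x y hx hy hxy i j hi hj hij u
    have t2 : ∀ u : ℝ, tv (j, i) u ∈ Kgp J x y := fun u =>
      tv_mem J hJ x y hx hy hxy j i hj hi hij.symm u
    exact mul_mem (mul_mem (mul_mem (t1 _) (t2 _)) (t1 _)) (mul_mem (mul_mem (t1 _) (t2 _)) (t1 _))
  -- the elementary vectors
  let d : ι → Lie ι := fun j => ⟨fun k => (if k = j then (η : ι → ℝ) j else 0) -
      (if k = x then (η : ι → ℝ) j else 0), by
    change ∑ k, ((if k = j then (η : ι → ℝ) j else 0) -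
      (if k = x then (η : ι → ℝ) j else 0)) = 0
    rw [Finset.sum_sub_distrib]
    simp⟩
  have hd : ∀ j ∈ J, expD (d j) ∈ Kgp J x y := by
    intro j hj
    by_cases hjx : j = x
    · have h0 : d j = 0 := by
        apply Subtype.ext
        funext k
        change (if k = j then (η : ι → ℝ) j else 0) - (if k = x then (η : ι → ℝ) j else 0) = 0
        rw [hjx]
        simp
      rw [h0]
      have h1 : expD (0 : Lie ι) = 1 := by
        have h2 := expD_add (0 : Lie ι) 0
        rw [add_zero] at h2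
        exact left_eq_mul.1 h2
      rw [h1]
      exact one_mem _
    · exact key j x hj hx hjx ((η : ι → ℝ) j) (d j) (fun k => rfl)
  have hsum : ∀ s : Finset ι, s ⊆ J → expD (∑ j ∈ s, d j) ∈ Kgp J x y := by
    intro s
    induction s using Finset.induction_on with
    | empty =>
      intro _
      rw [Finset.sum_empty]
      have h1 : expD (0 : Lie ι) = 1 := by
        have h2 := expD_add (0 : Lie ι) 0
        rw [add_zero] at h2
        exact left_eq_mul.1 h2
      rw [h1]
      exact one_mem _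
    | insert a s ha ih =>
      intro hs
      rw [Finset.sum_insert ha, expD_add]
      exact mul_mem (hd a (hs (Finset.mem_insert_self a s)))
        (ih (fun b hb => hs (Finset.mem_insert_of_mem hb)))
  have hη' : η = ∑ j ∈ J, d j := by
    apply Subtype.ext
    funext k
    rw [Submodule.coe_sum, Finset.sum_apply]
    change (η : ι → ℝ) k = ∑ j ∈ J, ((if k = j then (η : ι → ℝ) j else 0) -
      (if k = x then (η : ι → ℝ) j else 0))
    rw [Finset.sum_sub_distrib]
    have hJs : ∑ j ∈ J, (η : ι → ℝ) j = 0 := by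
      rw [← sum_eq_zero η]
      apply Finset.sum_subset (Finset.subset_univ J)
      intro j _ hj
      exact hη j hj
    have h2 : ∑ j ∈ J, (if k = x then (η : ι → ℝ) j else 0) = 0 := by
      by_cases hkx : k = x
      · simp [hkx, hJs]
      · simp [hkx]
    rw [h2, sub_zero, Finset.sum_ite_eq]
    by_cases hk : k ∈ J
    · simp [hk]
    · simp [hk, hη k hk]
  rw [hη']
  exact hsum J (Finset.Subset.refl J)

/-- The vector `η ∘ σ⁻¹`. -/
def pm (σ : Equiv.Perm ι) (η : Lie ι) : Lie ι :=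
  ⟨fun k => (η : ι → ℝ) (σ⁻¹ k), by
    change ∑ k, (η : ι → ℝ) (σ⁻¹ k) = 0
    rw [Equiv.sum_comp σ⁻¹ (η : ι → ℝ)]
    exact sum_eq_zero η⟩

omit [DecidableEq ι] in
theorem pm_apply (σ : Equiv.Perm ι) (η : Lie ι) (k : ι) :
    (pm σ η : ι → ℝ) k = (η : ι → ℝ) (σ⁻¹ k) := rfl

omit [DecidableEq ι] in
theorem pm_one (η : Lie ι) : pm 1 η = η := rfl

omit [DecidableEq ι] in
theorem pm_mul (σ τ : Equiv.Perm ι) (η : Lie ι) : pm (σ * τ) η = pm σ (pm τ η) := by
  apply Subtype.ext
  funext k
  rw [pm_apply, pm_apply, pm_apply, _root_.mul_inv_rev, Equiv.Perm.mul_apply]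

theorem exists_conj (J : Finset ι) (hJ : 3 ≤ J.card) (x y : ι) (hx : x ∈ J) (hy : y ∈ J)
    (hxy : x ≠ y) (l : List ι) (hl : l.Nodup) (hlJ : ∀ a ∈ l, a ∈ J) :
    ∃ c ∈ Kgp J x y, ∀ η : Lie ι, c * expD η * c⁻¹ = expD (pm l.formPerm η) := by
  induction l with
  | nil =>
    refine ⟨1, one_mem _, fun η => ?_⟩
    rw [List.formPerm_nil, pm_one, one_mul, inv_one, mul_one]
  | cons a l ih =>
    cases l with
    | nil =>
      refine ⟨1, one_mem _, fun η => ?_⟩
      rw [List.formPerm_singleton, pm_one, one_mul, inv_one, mul_one]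
    | cons b l =>
      obtain ⟨c, hc, hc2⟩ := ih (List.nodup_cons.1 hl).2 (fun z hz => hlJ z (List.mem_cons_of_mem a hz))
      have haJ : a ∈ J := hlJ a List.mem_cons_self
      have hbJ : b ∈ J := hlJ b (List.mem_cons_of_mem a List.mem_cons_self)
      have hab : a ≠ b := by
        intro h
        exact (List.nodup_cons.1 hl).1 (h ▸ List.mem_cons_self)
      refine ⟨wl a b * c, mul_mem ?_ hc, fun η => ?_⟩
      · unfold wl
        exact mul_mem (mul_mem (tv_mem J hJ x y hx hy hxy a b haJ hbJ hab 1)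
          (tv_mem J hJ x y hx hy hxy b a hbJ haJ hab.symm (-1)))
          (tv_mem J hJ x y hx hy hxy a b haJ hbJ hab 1)
      · have e : wl a b * c * expD η * (wl a b * c)⁻¹ =
            wl a b * (c * expD η * c⁻¹) * (wl a b)⁻¹ := by
          rw [_root_.mul_inv_rev]
          simp only [mul_assoc]
        rw [e, hc2 η, List.formPerm_cons_cons, pm_mul]
        apply wl_conj a b hab
        intro k
        rw [pm_apply, Equiv.swap_inv]

theorem conj_pow (σ : Equiv.Perm ι) (c : SLR ι)
    (hc : ∀ η : Lie ι, c * expD η * c⁻¹ = expD (pm σ η)) (n : ℕ) (η : Lie ι) :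
    c ^ n * expD η = expD (pm (σ ^ n) η) * c ^ n := by
  induction n generalizing η with
  | zero => rw [pow_zero, pow_zero, pm_one, one_mul, mul_one]
  | succ n ih =>
    have h1 : c * expD η = expD (pm σ η) * c := by
      rw [← hc η, inv_mul_cancel_right]
    rw [pow_succ, mul_assoc, h1, ← mul_assoc, ih, pow_succ, pm_mul, mul_assoc]

theorem prod_pow (σ : Equiv.Perm ι) (c : SLR ι)
    (hc : ∀ η : Lie ι, c * expD η * c⁻¹ = expD (pm σ η)) (n : ℕ) (η : Lie ι) :
    (expD η * c) ^ n = expD (∑ k ∈ Finset.range n, pm (σ ^ k) η) * c ^ n := by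
  induction n with
  | zero =>
    have h1 : expD (0 : Lie ι) = 1 := by
      have h2 := expD_add (0 : Lie ι) 0
      rw [add_zero] at h2
      exact left_eq_mul.1 h2
    rw [pow_zero, pow_zero, Finset.sum_range_zero, h1, one_mul]
  | succ n ih =>
    rw [pow_succ, ih, Finset.sum_range_succ, expD_add, mul_assoc, ← mul_assoc (c ^ n) (expD η) c,
      conj_pow σ c hc n η, pow_succ]
    simp only [mul_assoc]

omit [Fintype ι] [DecidableEq ι] in
theorem sum_cycle (J : Finset ι) (σ : Equiv.Perm ι) (hσ : σ.IsCycleOn (J : Set ι)) (f : ι → ℝ)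
    (i : ι) (hi : i ∈ J) :
    ∑ k ∈ Finset.range J.card, f ((σ ^ k) i) = ∑ j ∈ J, f j := by
  apply Finset.sum_bij (fun k _ => (σ ^ k) i)
  · intro k _
    exact Finset.mem_coe.1 (hσ.1.mapsTo.perm_pow k (Finset.mem_coe.2 hi))
  · intro k hk m hm h
    have h2 := (hσ.pow_apply_eq_pow_apply hi).1 h
    rw [Finset.mem_range] at hk hm
    exact Nat.ModEq.eq_of_lt_of_lt h2 hk hm
  · intro b hb
    obtain ⟨n, hn, h⟩ := hσ.exists_pow_eq hi hb
    exact ⟨n, Finset.mem_range.2 hn, h⟩
  · intro k _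
    rfl

/-- There are `c ∈ K` and `N ≥ 1` with `(exp(η) c)^N = c^N` for all `η` supported on `J`.

Proof. Let `j_0, …, j_{N-1}` be an enumeration of `J`, `N = |J|`, and
`c = w_{j_0 j_1} w_{j_1 j_2} ⋯ w_{j_{N-2} j_{N-1}} ∈ K` (`tv_mem`). By `wl_conj`,
`c exp(η) c⁻¹ = exp(η ∘ σ)` where `σ` is a cyclic permutation of `J` (a product of the swaps, an
`N`-cycle: compare `List.formPerm`). So
`(exp(η) c)^N = exp(η + η∘σ + ⋯ + η∘σ^{N-1}) c^N`, and the sum of the
`η(σ^k i)` over `k < N` is the sum of `η` over `J` (for `i ∈ J`), which is `0`; for `i ∉ J` all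
terms are `0`. -/
theorem exists_cycle (J : Finset ι) (hJ : 3 ≤ J.card) (x y : ι) (hx : x ∈ J) (hy : y ∈ J)
    (hxy : x ≠ y) :
    ∃ c ∈ Kgp J x y, ∃ N : ℕ, 1 ≤ N ∧
      ∀ η : Lie ι, (∀ i, i ∉ J → (η : ι → ℝ) i = 0) → (expD η * c) ^ N = c ^ N := by
  obtain ⟨c, hc, hc2⟩ := exists_conj J hJ x y hx hy hxy J.toList J.nodup_toList
    (fun a ha => Finset.mem_toList.1 ha)
  refine ⟨c, hc, J.card, by omega, fun η hη => ?_⟩
  have hσ : (J.toList.formPerm).IsCycleOn (J : Set ι) := by
    have h := J.nodup_toList.isCycleOn_formPerm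
    have h2 : {a | a ∈ J.toList} = (J : Set ι) := by
      ext a
      simp
    rw [h2] at h
    exact h
  have hσ' : ((J.toList.formPerm)⁻¹).IsCycleOn (J : Set ι) := hσ.inv
  have h0 : ∑ k ∈ Finset.range J.card, pm (J.toList.formPerm ^ k) η = 0 := by
    apply Subtype.ext
    funext i
    rw [Submodule.coe_sum, Finset.sum_apply]
    change ∑ k ∈ Finset.range J.card, (η : ι → ℝ) ((J.toList.formPerm ^ k)⁻¹ i) = 0
    by_cases hi : i ∈ J
    · have h3 := sum_cycle J (J.toList.formPerm)⁻¹ hσ' (η : ι → ℝ) i hi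
      have h4 : ∑ j ∈ J, (η : ι → ℝ) j = 0 := by
        rw [← sum_eq_zero η]
        apply Finset.sum_subset (Finset.subset_univ J)
        intro j _ hj
        exact hη j hj
      rw [← h4, ← h3]
      apply Finset.sum_congr rfl
      intro k _
      rw [inv_pow]
    · apply Finset.sum_eq_zero
      intro k _
      apply hη
      intro hmem
      apply hi
      have h5 : ((J.toList.formPerm) ^ k) ((J.toList.formPerm ^ k)⁻¹ i) ∈ J :=
        Finset.mem_coe.1 (hσ.1.mapsTo.perm_pow k (Finset.mem_coe.2 hmem))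
      rwa [← Equiv.Perm.mul_apply, mul_inv_cancel, Equiv.Perm.one_apply] at h5
  have h1 : expD (0 : Lie ι) = 1 := by
    have h2 := expD_add (0 : Lie ι) 0
    rw [add_zero] at h2
    exact left_eq_mul.1 h2
  rw [prod_pow _ c hc2, h0, h1, one_mul]

end Pool.Agent.W_MP_bb6588_an
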