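import Mathlib

set_option autoImplicit false

/-!
# A vector all of whose `K`-translates are contracted vanishes
-/

namespace Pool.Agent.W_MP_bb6588_an

open Matrix Filter Topology

/-- Let `ρ : G → GL_m(ℝ)`, let `K` be a subgroup containing `a` and `c`, with `(a^n c)^N = c^N` for
all `n`. If `ρ(a^n k) w → 0` (`n → ∞`) for every `k ∈ K`, then `w = 0`.

Proof. Let `W` be the span of `{ρ(k) w : k ∈ K}`. It is `ρ(K)`-invariant. By linearity
`ρ(a^n) u → 0` for all `u ∈ W`. For `u ∈ W` also `ρ(c) u ∈ W`, so `T_n := ρ(a^n c)` maps `W` to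
`W` and `T_n u → 0` for all `u ∈ W`. Since `W` is finite-dimensional, `T_n → 0` uniformly: the
operator norm of `T_n` restricted to `W` tends to `0` (`W` has a finite spanning set/basis
`u_1, …, u_r`, each `T_n u_i → 0`). Hence `T_n^N w → 0` for `N ≥ 1`
(for example by induction: if `v_n ∈ W` and `v_n → 0` or `v_n` bounded then `T_n v_n → 0`). But
`T_n^N w = ρ((a^n c)^N) w = ρ(c^N) w` does not depend on `n`, so it is `0`, and `w = 0` as
`ρ(c^N)` is invertible. -/
theorem proper_abstract {G : Type*} [Group G] {m : ℕ} (ρ : G →* GL (Fin m) ℝ) (K : Subgroup G)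
    (a c : G) (ha : a ∈ K) (hc : c ∈ K) (N : ℕ) (hN : 1 ≤ N)
    (hac : ∀ n : ℕ, (a ^ n * c) ^ N = c ^ N) (w : Fin m → ℝ)
    (hw : ∀ k ∈ K, Tendsto (fun n : ℕ =>
      ((ρ (a ^ n * k) : GL (Fin m) ℝ) : Matrix (Fin m) (Fin m) ℝ) *ᵥ w) atTop (𝓝 0)) :
    w = 0 := by
  -- matrix of `ρ g`
  set R : G → Matrix (Fin m) (Fin m) ℝ := fun g => ((ρ g : GL (Fin m) ℝ) : Matrix (Fin m) (Fin m) ℝ)
    with hR
  have hRmul : ∀ g h : G, R (g * h) = R g * R h := by
    intro g h
    simp [hR]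
  have hRpow : ∀ (g : G) (n : ℕ), R (g ^ n) = R g ^ n := by
    intro g n
    simp [hR]
  set W : Submodule ℝ (Fin m → ℝ) := Submodule.span ℝ {u | ∃ k ∈ K, u = R k *ᵥ w} with hW
  have hwW : w ∈ W := by
    refine Submodule.subset_span ⟨1, K.one_mem, ?_⟩
    simp [hR]
  -- invariance
  have hinv : ∀ k ∈ K, ∀ u ∈ W, R k *ᵥ u ∈ W := by
    intro k hk u hu
    induction hu using Submodule.span_induction with
    | mem x hx =>
      obtain ⟨k', hk', rfl⟩ := hx
      refine Submodule.subset_span ⟨k * k', K.mul_mem hk hk', ?_⟩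
      rw [hRmul, Matrix.mulVec_mulVec]
    | zero => rw [Matrix.mulVec_zero]; exact W.zero_mem
    | add x y _ _ hx hy => rw [Matrix.mulVec_add]; exact W.add_mem hx hy
    | smul t x _ hx => rw [Matrix.mulVec_smul]; exact W.smul_mem t hx
  -- contraction on `W`
  have hcon : ∀ u ∈ W, Tendsto (fun n : ℕ => R (a ^ n) *ᵥ u) atTop (𝓝 0) := by
    intro u hu
    induction hu using Submodule.span_induction with
    | mem x hx =>
      obtain ⟨k', hk', rfl⟩ := hx
      have h1 := hw k' hk'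
      refine h1.congr (fun n => ?_)
      rw [Matrix.mulVec_mulVec, ← hRmul]
    | zero => simp only [Matrix.mulVec_zero]; exact tendsto_const_nhds
    | add x y _ _ hx hy =>
      have h1 := hx.add hy
      rw [add_zero] at h1
      refine h1.congr (fun n => ?_)
      rw [Matrix.mulVec_add]
    | smul t x _ hx =>
      have h1 := hx.const_smul t
      rw [smul_zero] at h1
      refine h1.congr (fun n => ?_)
      rw [Matrix.mulVec_smul]
  -- a projection onto `W`
  obtain ⟨f, hf⟩ := LinearMap.exists_leftInverse_of_injective W.subtype (Submodule.ker_subtype W)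
  set P : Matrix (Fin m) (Fin m) ℝ := LinearMap.toMatrix' (W.subtype ∘ₗ f) with hP
  have hPv : ∀ x : Fin m → ℝ, P *ᵥ x = ((f x : W) : Fin m → ℝ) := by
    intro x
    rw [hP, LinearMap.toMatrix'_mulVec]
    rfl
  have hPW : ∀ u ∈ W, P *ᵥ u = u := by
    intro u hu
    have h1 := LinearMap.congr_fun hf ⟨u, hu⟩
    rw [hPv]
    have h2 : f u = (⟨u, hu⟩ : W) := h1
    rw [h2]
  have hPmem : ∀ x : Fin m → ℝ, P *ᵥ x ∈ W := by
    intro x
    rw [hPv]
    exact (f x).2
  -- `T_n P → 0`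
  have hT : Tendsto (fun n : ℕ => R (a ^ n * c) * P) atTop (𝓝 0) := by
    refine tendsto_pi_nhds.2 fun i => tendsto_pi_nhds.2 fun j => ?_
    have h1 := hcon (R c *ᵥ (P *ᵥ (Pi.single j 1))) (hinv c hc _ (hPmem _))
    have h2 := (tendsto_pi_nhds.1 h1) i
    refine h2.congr (fun n => ?_)
    rw [Matrix.mulVec_mulVec, ← hRmul, Matrix.mulVec_mulVec, Matrix.mulVec_single_one]
    rfl
  have hTN : Tendsto (fun n : ℕ => (R (a ^ n * c) * P) ^ N) atTop (𝓝 0) := by
    have h1 := hT.pow N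
    rwa [zero_pow (by omega)] at h1
  have hiter : ∀ (n j : ℕ), ((R (a ^ n * c) * P) ^ j) *ᵥ w = (R (a ^ n * c) ^ j) *ᵥ w ∧
      (R (a ^ n * c) ^ j) *ᵥ w ∈ W := by
    intro n j
    induction j with
    | zero => simp [hwW]
    | succ j ih =>
      obtain ⟨ih1, ih2⟩ := ih
      have hk : a ^ n * c ∈ K := K.mul_mem (K.pow_mem ha n) hc
      constructor
      · rw [pow_succ', ← Matrix.mulVec_mulVec, ih1, ← Matrix.mulVec_mulVec, hPW _ ih2,
          Matrix.mulVec_mulVec, ← pow_succ']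
      · rw [pow_succ', ← Matrix.mulVec_mulVec]
        exact hinv _ hk _ ih2
  have hlim : Tendsto (fun n : ℕ => ((R (a ^ n * c) * P) ^ N) *ᵥ w) atTop (𝓝 (0 *ᵥ w)) := by
    have hcont : Continuous fun M : Matrix (Fin m) (Fin m) ℝ => M *ᵥ w :=
      continuous_id.matrix_mulVec continuous_const
    exact (hcont.tendsto 0).comp hTN
  have hconst : ∀ n : ℕ, ((R (a ^ n * c) * P) ^ N) *ᵥ w = R (c ^ N) *ᵥ w := by
    intro n
    rw [(hiter n N).1, ← hRpow, hac]
  have h0 : R (c ^ N) *ᵥ w = 0 := by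
    rw [Matrix.zero_mulVec] at hlim
    have h1 : Tendsto (fun _ : ℕ => R (c ^ N) *ᵥ w) atTop (𝓝 0) := hlim.congr hconst
    exact tendsto_nhds_unique tendsto_const_nhds h1
  have h2 : R ((c ^ N)⁻¹) *ᵥ (R (c ^ N) *ᵥ w) = w := by
    rw [Matrix.mulVec_mulVec, ← hRmul, inv_mul_cancel]
    simp [hR]
  rw [← h2, h0, Matrix.mulVec_zero]

end Pool.Agent.W_MP_bb6588_an
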