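import Mathlib
import Pool.Agent.W_MP_bb6588_an.ExpSum
import Pool.Agent.W_MP_bb6588_an.Proper
import Pool.Agent.W_MP_bb6588_an.KMem
import Pool.Agent.W_MP_bb6588_an.Grid

set_option autoImplicit false

/-!
# A digit sequence for which no rational vector is contracted
-/

namespace Pool.Agent.W_MP_bb6588_an

open Matrix Filter Topology

variable {ι : Type} [Fintype ι] [DecidableEq ι]

/-- The value at the matrix `M` of the `a`-th coordinate of `P(M) v`, as a real polynomial. -/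
noncomputable def coordPoly {m : ℕ} (P : Fin m → Fin m → MvPolynomial (ι × ι) ℚ) (v : Fin m → ℚ)
    (a : Fin m) : MvPolynomial (ι × ι) ℝ :=
  ∑ c : Fin m, MvPolynomial.map (algebraMap ℚ ℝ) (P a c * MvPolynomial.C (v c))

/-- If `P` describes `ρ`, then `val (coordPoly P v a) g = (ρ g v)_a`. -/
theorem val_coordPoly {m : ℕ} (ρ : SLR ι →* GL (Fin m) ℝ)
    (P : Fin m → Fin m → MvPolynomial (ι × ι) ℚ)
    (hP : ∀ (g : SLR ι) (a b : Fin m), (ρ g : Matrix (Fin m) (Fin m) ℝ) a b =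
        MvPolynomial.aeval (fun p : ι × ι => (g : Matrix ι ι ℝ) p.1 p.2) (P a b))
    (v : Fin m → ℚ) (g : SLR ι) (a : Fin m) :
    val (coordPoly P v a) (g : Matrix ι ι ℝ) =
      ((ρ g : Matrix (Fin m) (Fin m) ℝ) *ᵥ fun c => (v c : ℝ)) a := by
  unfold val coordPoly
  rw [map_sum]
  simp only [Matrix.mulVec, dotProduct]
  refine Finset.sum_congr rfl fun c _ => ?_
  rw [hP g a c, map_mul, MvPolynomial.map_C, map_mul, MvPolynomial.eval_C,
    MvPolynomial.eval_map, MvPolynomial.aeval_def]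
  rfl

theorem dg_eq (t : ℝ) (η : Lie ι) :
    dg t (η : ι → ℝ) = ((expD (t • η) : SLR ι) : Matrix ι ι ℝ) := rfl

theorem dg_eq_pow (n : ℕ) (η : Lie ι) :
    dg (n : ℝ) (η : ι → ℝ) = ((expD η ^ n : SLR ι) : Matrix ι ι ℝ) := by
  rw [dg_eq, ← expD_nsmul, Nat.cast_smul_eq_nsmul]

/-- For one representation: the polynomials `R` of `exists_ann` (for `Q = coordPoly P v`) do not all
vanish on `K * part p b L`, if `v ≠ 0`.

Proof. Suppose `val (R j) (k * part p b L) = 0` for all `j` and all `k ∈ K = Kgp J x y`. By the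
second part of `exists_ann`, `val (coordPoly P v a) (dg n η * (k * part)) → 0`; as
`dg n η = expD (n • η) = (expD η)^n` (matrix), this says `ρ((expD η)^n k part) v → 0`, i.e.
`ρ((expD η)^n k) w → 0` with `w = ρ(part p b L) v`, for all `k ∈ K`. By `proper_abstract`
(`a = expD η ∈ K` by `expD_mem`, `c`, `N` from `exists_cycle`, applied to `n • η`), `w = 0`, so
`v = 0`. -/
theorem exists_ne (p : ℕ → ι × ι) (J : Finset ι) (hJ : 3 ≤ J.card) (x y : ι) (hx : x ∈ J)
    (hy : y ∈ J) (hxy : x ≠ y) (η : Lie ι) (hηJ : ∀ i, i ∉ J → (η : ι → ℝ) i = 0) {m : ℕ}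
    (ρ : SLR ι →* GL (Fin m) ℝ) (P : Fin m → Fin m → MvPolynomial (ι × ι) ℚ)
    (hP : ∀ (g : SLR ι) (a b : Fin m), (ρ g : Matrix (Fin m) (Fin m) ℝ) a b =
        MvPolynomial.aeval (fun p : ι × ι => (g : Matrix ι ι ℝ) p.1 p.2) (P a b))
    (v : Fin m → ℚ) (hv : v ≠ 0) (s : ℕ) (R : Fin s → MvPolynomial (ι × ι) ℝ)
    (hR : ∀ M : Matrix ι ι ℝ, (∀ j, val (R j) M = 0) →
        ∀ a, Tendsto (fun k : ℕ => val (coordPoly P v a) (dg (k : ℝ) (η : ι → ℝ) * M))
          atTop (𝓝 0)) (b : Dig) (L : ℕ) :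
    ∃ j, ∃ k ∈ Kgp J x y, val (R j) ((k * part p b L : SLR ι) : Matrix ι ι ℝ) ≠ 0 := by
  by_contra hcon
  push Not at hcon
  obtain ⟨c, hcK, N, hN, hc⟩ := exists_cycle J hJ x y hx hy hxy
  have hw : ((ρ (part p b L) : Matrix (Fin m) (Fin m) ℝ) *ᵥ fun c => (v c : ℝ)) = 0 := by
    refine proper_abstract ρ (Kgp J x y) (expD η) c
      (expD_mem J hJ x y hx hy hxy η hηJ) hcK N hN ?_ _ ?_
    · intro n
      rw [← expD_nsmul]
      refine hc (n • η) fun i hi => ?_
      have : ((n • η : Lie ι) : ι → ℝ) i = n • ((η : ι → ℝ) i) := rfl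
      rw [this, hηJ i hi, smul_zero]
    · intro k hk
      have h1 := hR ((k * part p b L : SLR ι) : Matrix ι ι ℝ) (fun j => hcon j k hk)
      rw [tendsto_pi_nhds]
      intro a
      refine (h1 a).congr fun n => ?_
      rw [dg_eq_pow, ← Matrix.SpecialLinearGroup.coe_mul, val_coordPoly ρ P hP, ← mul_assoc,
        map_mul ρ, Units.val_mul, Matrix.mulVec_mulVec]
  apply hv
  have h2 : (((ρ (part p b L))⁻¹ : GL (Fin m) ℝ) : Matrix (Fin m) (Fin m) ℝ) *ᵥ
      ((ρ (part p b L) : Matrix (Fin m) (Fin m) ℝ) *ᵥ fun c => (v c : ℝ)) = 0 := by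
    rw [hw, Matrix.mulVec_zero]
  rw [Matrix.mulVec_mulVec, ← Units.val_mul, inv_mul_cancel, Units.val_one,
    Matrix.one_mulVec] at h2
  funext a
  have := congrFun h2 a
  simpa using this

omit [DecidableEq ι] in
theorem countable_mvPoly : Countable (MvPolynomial (ι × ι) ℚ) := by
  rw [← Cardinal.mk_le_aleph0_iff]
  refine (MvPolynomial.cardinalMk_le_max (σ := ι × ι) (R := ℚ)).trans ?_
  exact max_le (max_le Cardinal.mk_le_aleph0 Cardinal.mk_le_aleph0) le_rfl

theorem continuous_val_limG (p : ℕ → ι × ι) (R : MvPolynomial (ι × ι) ℝ) :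
    Continuous fun b => val R (limG p b : Matrix ι ι ℝ) := by
  unfold val
  refine (MvPolynomial.continuous_eval R).comp ?_
  refine continuous_pi fun q => ?_
  exact (Continuous.matrix_elem (continuous_subtype_val.comp (continuous_limG p)) q.1 q.2)

/-- Some digit sequence `b` works for all rational representations and all nonzero rational vectors.

Proof (Baire). `Dig` is a nonempty compact Hausdorff space, hence a Baire space. The triples
`t = (m, P, v)` with `m : ℕ`, `P : Fin m → Fin m → MvPolynomial (ι × ι) ℚ`, `v : Fin m → ℚ` form a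
countable set. For such `t` with `v ≠ 0` for which some homomorphism `ρ` is described by `P`, take
`R` from `exists_ann` for `coordPoly P v` and let
`Z_t = {b | ∀ j, val (R j) (limG p b) = 0}`, a closed set (`continuous_limG`, polynomials are
continuous); for other `t` let `Z_t = ∅`. `Z_t` has empty interior: otherwise it contains all `b'`
which agree with some `b ∈ Z_t` in the first `L` digits, for some `L`; by `exists_ne` there are
`j`, `k ∈ K` with `val (R j) (k * part p b L) ≠ 0`, and by `exists_digits` there is such a `b'` with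
`val (R j) (limG p b') ≠ 0`, a contradiction. So there is `b` outside all `Z_t`
(`nonempty_interior_of_iUnion_of_closed` or density of countable intersections). For this `b`, if
`ρ(expD (φ k • η) * limG p b) v → 0` along a strictly increasing `φ`, then the first part of
`exists_ann` gives `b ∈ Z_t`. -/
theorem exists_generic (p : ℕ → ι × ι) (J : Finset ι) (hJ : 3 ≤ J.card) (x y : ι) (hx : x ∈ J)
    (hy : y ∈ J) (hxy : x ≠ y)
    (hinf : ∀ i j, i ∈ J → j ∈ J → i ≠ j → ¬ (i = x ∧ j = y) → ¬ (i = y ∧ j = x) →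
        ∀ L : ℕ, ∃ l, L ≤ l ∧ p l = (i, j))
    (η : Lie ι) (hηJ : ∀ i, i ∉ J → (η : ι → ℝ) i = 0) :
    ∃ b : Dig, ∀ (m : ℕ) (ρ : SLR ι →* GL (Fin m) ℝ), IsRationalRep ρ →
      ∀ v : Fin m → ℚ, v ≠ 0 → ∀ φ : ℕ → ℕ, StrictMono φ →
        ¬ Tendsto (fun k => (ρ (expD ((φ k : ℝ) • η) * limG p b) :
          Matrix (Fin m) (Fin m) ℝ) *ᵥ (fun a => (v a : ℝ))) atTop (𝓝 0) := by
  classical
  by_contra hcon
  push Not at hcon
  let T : Type := {t : (Σ m : ℕ, (Fin m → Fin m → MvPolynomial (ι × ι) ℚ) × (Fin m → ℚ)) //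
    t.2.2 ≠ 0 ∧ ∃ ρ : SLR ι →* GL (Fin t.1) ℝ, ∀ (g : SLR ι) (a b : Fin t.1),
      (ρ g : Matrix (Fin t.1) (Fin t.1) ℝ) a b =
        MvPolynomial.aeval (fun p : ι × ι => (g : Matrix ι ι ℝ) p.1 p.2) (t.2.1 a b)}
  have hcount : Countable (MvPolynomial (ι × ι) ℚ) := countable_mvPoly
  have hT : Countable T := by
    infer_instance
  choose s R hR using fun t : T => exists_ann (fun a => coordPoly t.1.2.1 t.1.2.2 a) (η : ι → ℝ)
  let Z : T → Set Dig := fun t => {b | ∀ j, val (R t j) (limG p b : Matrix ι ι ℝ) = 0}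
  have hZ : ∀ t, IsClosed (Z t) := by
    intro t
    have : Z t = ⋂ j, (fun b => val (R t j) (limG p b : Matrix ι ι ℝ)) ⁻¹' {0} := by
      ext b
      simp [Z]
    rw [this]
    exact isClosed_iInter fun j => (isClosed_singleton).preimage (continuous_val_limG p (R t j))
  have hU : ⋃ t, Z t = Set.univ := by
    rw [Set.eq_univ_iff_forall]
    intro b
    obtain ⟨m, ρ, ⟨P, hP⟩, v, hv, φ, hφ, hlim⟩ := hcon b
    refine Set.mem_iUnion.mpr ⟨⟨⟨m, P, v⟩, hv, ρ, hP⟩, ?_⟩
    refine (hR ⟨⟨m, P, v⟩, hv, ρ, hP⟩ (limG p b : Matrix ι ι ℝ)).1 φ hφ ?_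
    intro a
    rw [tendsto_pi_nhds] at hlim
    refine (hlim a).congr fun k => ?_
    change _ = val (coordPoly P v a) _
    rw [dg_eq, ← Matrix.SpecialLinearGroup.coe_mul, val_coordPoly ρ P hP]
  obtain ⟨t, b, hb⟩ := nonempty_interior_of_iUnion_of_closed hZ hU
  obtain ⟨I, u, hIu, hsub⟩ := isOpen_pi_iff.mp (isOpen_interior (s := Z t)) b hb
  obtain ⟨⟨⟨m, P, v⟩, hv, ρ, hP⟩, rfl⟩ : ∃ t', t' = t := ⟨t, rfl⟩
  obtain ⟨j, hj⟩ := exists_ne p J hJ x y hx hy hxy η hηJ ρ P hP v hv _ _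
    (fun M => (hR ⟨⟨m, P, v⟩, hv, ρ, hP⟩ M).2) b (I.sup id + 1)
  obtain ⟨b', hb', hne⟩ := exists_digits p J x y hinf b (I.sup id + 1) _ hj
  apply hne
  have hmem : b' ∈ interior (Z ⟨⟨m, P, v⟩, hv, ρ, hP⟩) := by
    apply hsub
    intro l hl
    have hl' : l < I.sup id + 1 := Nat.lt_succ_of_le (Finset.le_sup (f := id) hl)
    rw [hb' l hl']
    exact (hIu l hl).2
  exact interior_subset hmem j

end Pool.Agent.W_MP_bb6588_an
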