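import Mathlib
import Pool.Agent.W_MP_bb6588_an.Defs

set_option autoImplicit false

/-!
# Denominators of the partial products
-/

namespace Pool.Agent.W_MP_bb6588_an

open Matrix

variable {ι : Type} [Fintype ι] [DecidableEq ι]

/-- `2^n * A` is an integer matrix. -/
def IntegralAt (n : ℕ) (A : Matrix ι ι ℝ) : Prop :=
  ∃ M : Matrix ι ι ℤ, ∀ i j, (2 : ℝ) ^ n * A i j = (M i j : ℝ)

omit [Fintype ι] in
theorem integralAt_one : IntegralAt 0 (1 : Matrix ι ι ℝ) := by
  refine ⟨1, fun i j => ?_⟩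
  rw [pow_zero, one_mul, Matrix.one_apply, Matrix.one_apply]
  split_ifs <;> simp

omit [DecidableEq ι] in
theorem IntegralAt.mul {n m : ℕ} {A B : Matrix ι ι ℝ} (hA : IntegralAt n A)
    (hB : IntegralAt m B) : IntegralAt (n + m) (A * B) := by
  obtain ⟨M, hM⟩ := hA
  obtain ⟨N, hN⟩ := hB
  refine ⟨M * N, fun i j => ?_⟩
  rw [Matrix.mul_apply, Matrix.mul_apply, Finset.mul_sum]
  push_cast
  refine Finset.sum_congr rfl fun k _ => ?_
  rw [← hM, ← hN, pow_add]
  ring

theorem integralAt_tv (q : ι × ι) (n : ℕ) (c : ℤ) :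
    IntegralAt n ((tv q ((c : ℝ) / 2 ^ n) : SLR ι) : Matrix ι ι ℝ) := by
  unfold tv
  split_ifs with h
  · refine ⟨(2 : ℤ) ^ n • (1 : Matrix ι ι ℤ) + c • Matrix.single q.1 q.2 1, fun i j => ?_⟩
    rw [Matrix.SpecialLinearGroup.transvection_coe]
    simp only [Matrix.add_apply, Matrix.smul_apply, Matrix.one_apply, Matrix.single_apply,
      smul_eq_mul]
    have h2 : (2 : ℝ) ^ n ≠ 0 := by positivity
    split_ifs <;> push_cast <;> field_simp <;> ring
  · refine ⟨(2 : ℤ) ^ n • (1 : Matrix ι ι ℤ), fun i j => ?_⟩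
    simp only [Matrix.SpecialLinearGroup.coe_one, Matrix.smul_apply, Matrix.one_apply,
      smul_eq_mul]
    split_ifs <;> push_cast <;> ring

theorem tv_inv (q : ι × ι) (t : ℝ) : (tv q t : SLR ι)⁻¹ = tv q (-t) := by
  unfold tv
  split_ifs with h
  · rw [Matrix.SpecialLinearGroup.transvection_inv]
  · exact inv_one

/-- `2^{expo l} * part p b l` and `2^{expo l} * (part p b l)⁻¹` are integer matrices.

Proof. Induction on `l`: `expo (l+1) = expo l + (l+1)!`, `2^{(l+1)!} * tv (p l) (step b l)` is an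
integer matrix (`2^{(l+1)!} * 1 + (b l) E`), the same for its inverse `tv (p l) (- step b l)`, and
products of integer matrices are integer matrices. -/
theorem integral_part (p : ℕ → ι × ι) (b : Dig) (l : ℕ) :
    (∃ M : Matrix ι ι ℤ, ∀ i j,
      (2 : ℝ) ^ expo l * (part p b l : Matrix ι ι ℝ) i j = (M i j : ℝ)) ∧
    (∃ M : Matrix ι ι ℤ, ∀ i j,
      (2 : ℝ) ^ expo l * (((part p b l)⁻¹ : SLR ι) : Matrix ι ι ℝ) i j = (M i j : ℝ)) := by
  induction l with
  | zero =>
    have h0 : expo 0 = 0 := by simp [expo]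
    rw [h0]
    refine ⟨?_, ?_⟩
    · exact integralAt_one
    · have : ((part p b 0)⁻¹ : SLR ι) = 1 := inv_one
      rw [this]
      exact integralAt_one
  | succ l ih =>
    have h0 : expo (l + 1) = expo l + (l + 1).factorial := by
      simp [expo, Finset.sum_range_succ]
    obtain ⟨h1, h2⟩ := ih
    have e1 : (part p b (l + 1) : SLR ι) = tv (p l) (step b l) * part p b l := rfl
    have s1 : step b l = (((b l : ℕ) : ℤ) : ℝ) / 2 ^ (l + 1).factorial := by
      unfold step; push_cast; rfl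
    have s2 : -step b l = ((-((b l : ℕ) : ℤ) : ℤ) : ℝ) / 2 ^ (l + 1).factorial := by
      rw [s1]; push_cast; ring
    constructor
    · rw [h0, e1, Matrix.SpecialLinearGroup.coe_mul, add_comm]
      refine IntegralAt.mul ?_ h1
      rw [s1]
      exact integralAt_tv _ _ _
    · rw [h0, e1, _root_.mul_inv_rev, Matrix.SpecialLinearGroup.coe_mul, tv_inv, s2]
      exact IntegralAt.mul h2 (integralAt_tv _ _ _)

end Pool.Agent.W_MP_bb6588_an
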