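import Mathlib
import Pool.Agent.W_MP_bb6588_an.Limit
import Pool.Agent.W_MP_bb6588_an.Window
import Pool.Agent.W_MP_bb6588_an.Integral

set_option autoImplicit false

/-!
# The line `ℝ η` has divergent orbits
-/

namespace Pool.Agent.W_MP_bb6588_an

open Matrix Filter Topology

variable {ι : Type} [Fintype ι] [DecidableEq ι]

theorem ls_abs_le_nrm (M : Matrix ι ι ℝ) (i j : ι) : |M i j| ≤ nrm M := by
  unfold nrm
  calc |M i j| ≤ ∑ j', |M i j'| :=
        Finset.single_le_sum (f := fun j' => |M i j'|) (fun _ _ => abs_nonneg _)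
          (Finset.mem_univ j)
    _ ≤ ∑ i', ∑ j', |M i' j'| :=
        Finset.single_le_sum (f := fun i' => ∑ j', |M i' j'|)
          (fun _ _ => Finset.sum_nonneg fun _ _ => abs_nonneg _) (Finset.mem_univ i)

/-- Entries of `expD z * M`. -/
theorem ls_expD_mul (z : Lie ι) (M : SLR ι) (i j : ι) :
    ((expD z * M : SLR ι) : Matrix ι ι ℝ) i j =
      Real.exp ((z : ι → ℝ) i) * (M : Matrix ι ι ℝ) i j := by
  rw [Matrix.SpecialLinearGroup.coe_mul]
  unfold expD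
  rw [Matrix.diagonal_mul]

theorem ls_expD_inv (z : Lie ι) : (expD z)⁻¹ = expD (-z) := by
  rw [inv_eq_iff_mul_eq_one]
  ext i j
  rw [ls_expD_mul]
  unfold expD
  have h1 : ((-z : Lie ι) : ι → ℝ) = -(z : ι → ℝ) := rfl
  simp only [h1, Pi.neg_apply]
  rw [Matrix.SpecialLinearGroup.coe_one]
  by_cases h : i = j
  · subst h
    rw [Matrix.diagonal_apply_eq, Matrix.one_apply_eq, ← Real.exp_add, add_neg_cancel,
      Real.exp_zero]
  · rw [Matrix.diagonal_apply_ne _ h, Matrix.one_apply_ne h, mul_zero]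

/-- Entries of `M * (expD z)⁻¹`. -/
theorem ls_mul_expD_inv (z : Lie ι) (M : SLR ι) (i j : ι) :
    ((M * (expD z)⁻¹ : SLR ι) : Matrix ι ι ℝ) i j =
      (M : Matrix ι ι ℝ) i j * Real.exp (-((z : ι → ℝ) j)) := by
  rw [ls_expD_inv, Matrix.SpecialLinearGroup.coe_mul]
  unfold expD
  rw [Matrix.mul_diagonal]
  rfl

/-- Column `w` is not changed by `tv q t` on the right if `q.2 ≠ w`. -/
theorem ls_mul_tv (q : ι × ι) (t : ℝ) (M : SLR ι) (w : ι) (hw : q.2 ≠ w) (i : ι) :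
    ((M * tv q t : SLR ι) : Matrix ι ι ℝ) i w = (M : Matrix ι ι ℝ) i w := by
  unfold tv
  split_ifs with h
  · rw [Matrix.SpecialLinearGroup.coe_mul, Matrix.SpecialLinearGroup.transvection_coe, mul_add,
      mul_one, Matrix.add_apply, Matrix.mul_single_apply_of_ne _ _ _ _ _ (Ne.symm hw), add_zero]
  · rw [mul_one]

/-- Row `w` is not changed by `(tv q t)⁻¹` on the left if `q.1 ≠ w`. -/
theorem ls_tv_inv_mul (q : ι × ι) (t : ℝ) (M : SLR ι) (w : ι) (hw : q.1 ≠ w) (i : ι) :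
    (((tv q t)⁻¹ * M : SLR ι) : Matrix ι ι ℝ) w i = (M : Matrix ι ι ℝ) w i := by
  rw [tv_inv]
  unfold tv
  split_ifs with h
  · rw [Matrix.SpecialLinearGroup.coe_mul, Matrix.SpecialLinearGroup.transvection_coe, add_mul,
      one_mul, Matrix.add_apply, Matrix.single_mul_apply_of_ne _ _ _ _ _ (Ne.symm hw), add_zero]
  · rw [one_mul]

/-- the entry of a matrix close to the identity -/
theorem ls_entry_le {M : Matrix ι ι ℝ} {d : ℝ} (h : nrm (M - 1) ≤ d) {a N c C A : ℝ}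
    (i w : ι) (hN : 0 ≤ N) (haw : i = w → N * a ≤ A) (ha : 0 ≤ a) (haC : a ≤ C)
    (hc : 0 ≤ c) (hA0 : 0 ≤ A) (hcd : N * C * d < c) :
    |N * (a * M i w)| < A + c := by
  have hd : |(M - 1) i w| ≤ d := (ls_abs_le_nrm (M - 1) i w).trans h
  have hd0 : 0 ≤ d := (abs_nonneg _).trans hd
  have h1 : M i w = (1 : Matrix ι ι ℝ) i w + (M - 1) i w := by
    rw [Matrix.sub_apply]; ring
  have h2 : |N * (a * (M - 1) i w)| < c := by
    rw [abs_mul, abs_mul, abs_of_nonneg hN, abs_of_nonneg ha]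
    have h3 : a * |(M - 1) i w| ≤ C * d := mul_le_mul haC hd (abs_nonneg _) (ha.trans haC)
    have h4 := mul_le_mul_of_nonneg_left h3 hN
    rw [← mul_assoc N C d] at h4
    linarith
  have h5 : |N * (a * (1 : Matrix ι ι ℝ) i w)| ≤ A := by
    by_cases hiw : i = w
    · subst hiw
      rw [Matrix.one_apply_eq, mul_one, abs_of_nonneg (mul_nonneg hN ha)]
      exact haw rfl
    · rw [Matrix.one_apply_ne hiw, mul_zero, mul_zero, abs_zero]
      exact hA0
  have h6 : N * (a * M i w) = N * (a * (1 : Matrix ι ι ℝ) i w) + N * (a * (M - 1) i w) := by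
    rw [h1]; ring
  rw [h6]
  exact lt_of_le_of_lt (abs_add_le _ _) (by linarith)

/-- The vector case: `(p l).2 ≠ w`. -/
theorem ls_vec (p : ℕ → ι × ι) (b : Dig) (l : ℕ) (w : ι) (hw : (p l).2 ≠ w) (z : Lie ι)
    {C A c : ℝ} (hC : ∀ i, Real.exp ((z : ι → ℝ) i) ≤ C) (hc : 0 ≤ c)
    (hA : (2 : ℝ) ^ expo l * Real.exp ((z : ι → ℝ) w) ≤ A)
    (hd : (2 : ℝ) ^ expo l * C * dlt (l + 1) < c) {ε : ℝ} (hε : A + c ≤ ε) :
    Short (expD z * limG p b) ε := by
  obtain ⟨M, hM⟩ := (integral_part p b l).2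
  have hN : (0 : ℝ) < (2 : ℝ) ^ expo l := by positivity
  refine Or.inl ⟨fun j => M j w, ?_, ?_⟩
  · intro h0
    have h1 : ∀ j, (((part p b l)⁻¹ : SLR ι) : Matrix ι ι ℝ) j w = 0 := by
      intro j
      have h2 : M j w = 0 := congrFun h0 j
      have h3 := hM j w
      rw [h2, Int.cast_zero] at h3
      exact (mul_eq_zero.1 h3).resolve_left hN.ne'
    have h4 : ((part p b l * (part p b l)⁻¹ : SLR ι) : Matrix ι ι ℝ) w w = 0 := by
      rw [Matrix.SpecialLinearGroup.coe_mul, Matrix.mul_apply]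
      exact Finset.sum_eq_zero fun j _ => by rw [h1 j, mul_zero]
    rw [mul_inv_cancel, Matrix.SpecialLinearGroup.coe_one, Matrix.one_apply_eq] at h4
    exact one_ne_zero h4
  · intro i
    have h1 : (((expD z * limG p b : SLR ι) : Matrix ι ι ℝ) *ᵥ fun j => ((M j w : ℤ) : ℝ)) i =
        (2 : ℝ) ^ expo l * (Real.exp ((z : ι → ℝ) i) *
          ((limG p b * (part p b (l + 1))⁻¹ : SLR ι) : Matrix ι ι ℝ) i w) := by
      have h2 : (((expD z * limG p b : SLR ι) : Matrix ι ι ℝ) *ᵥ fun j => ((M j w : ℤ) : ℝ)) i =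
          (2 : ℝ) ^ expo l *
            ((expD z * (limG p b * (part p b l)⁻¹) : SLR ι) : Matrix ι ι ℝ) i w := by
        rw [← mul_assoc, Matrix.SpecialLinearGroup.coe_mul _ ((part p b l)⁻¹), Matrix.mul_apply,
          Finset.mul_sum]
        simp only [Matrix.mulVec, dotProduct]
        refine Finset.sum_congr rfl fun j _ => ?_
        rw [← hM j w]
        ring
      rw [h2, ls_expD_mul]
      have h3 : limG p b * (part p b l)⁻¹ =
          (limG p b * (part p b (l + 1))⁻¹) * tv (p l) (step b l) := by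
        have h4 : part p b (l + 1) = tv (p l) (step b l) * part p b l := rfl
        rw [h4]
        group
      rw [h3, ls_mul_tv _ _ _ _ hw]
    rw [h1]
    refine lt_of_lt_of_le ?_ hε
    exact ls_entry_le (limG_bound p b (l + 1)) i w hN.le (fun h => by rw [h]; exact hA)
      (Real.exp_pos _).le (hC i) hc ((by positivity : (0 : ℝ) ≤ _).trans hA) hd

/-- The covector case: `(p l).1 ≠ w`. -/
theorem ls_covec (p : ℕ → ι × ι) (b : Dig) (l : ℕ) (w : ι) (hw : (p l).1 ≠ w) (z : Lie ι)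
    {C A c : ℝ} (hC : ∀ i, Real.exp (-((z : ι → ℝ) i)) ≤ C) (hc : 0 ≤ c)
    (hA : (2 : ℝ) ^ expo l * Real.exp (-((z : ι → ℝ) w)) ≤ A)
    (hd : (2 : ℝ) ^ expo l * C * dlt (l + 1) < c) {ε : ℝ} (hε : A + c ≤ ε) :
    Short (expD z * limG p b) ε := by
  obtain ⟨M, hM⟩ := (integral_part p b l).1
  have hN : (0 : ℝ) < (2 : ℝ) ^ expo l := by positivity
  refine Or.inr ⟨fun j => M w j, ?_, ?_⟩
  · intro h0
    have h1 : ∀ j, (part p b l : Matrix ι ι ℝ) w j = 0 := by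
      intro j
      have h2 : M w j = 0 := congrFun h0 j
      have h3 := hM w j
      rw [h2, Int.cast_zero] at h3
      exact (mul_eq_zero.1 h3).resolve_left hN.ne'
    have h4 : ((part p b l * (part p b l)⁻¹ : SLR ι) : Matrix ι ι ℝ) w w = 0 := by
      rw [Matrix.SpecialLinearGroup.coe_mul, Matrix.mul_apply]
      exact Finset.sum_eq_zero fun j _ => by rw [h1 j, zero_mul]
    rw [mul_inv_cancel, Matrix.SpecialLinearGroup.coe_one, Matrix.one_apply_eq] at h4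
    exact one_ne_zero h4
  · intro i
    have h1 : ((((expD z * limG p b)⁻¹ : SLR ι) : Matrix ι ι ℝ)ᵀ *ᵥ
          fun j => ((M w j : ℤ) : ℝ)) i =
        (2 : ℝ) ^ expo l * (Real.exp (-((z : ι → ℝ) i)) *
          ((((limG p b * (part p b (l + 1))⁻¹)⁻¹ : SLR ι) : Matrix ι ι ℝ)ᵀ) i w) := by
      have h2 : ((((expD z * limG p b)⁻¹ : SLR ι) : Matrix ι ι ℝ)ᵀ *ᵥ
            fun j => ((M w j : ℤ) : ℝ)) i =
          (2 : ℝ) ^ expo l *
            ((part p b l * (expD z * limG p b)⁻¹ : SLR ι) : Matrix ι ι ℝ) w i := by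
        rw [Matrix.SpecialLinearGroup.coe_mul (part p b l), Matrix.mul_apply, Finset.mul_sum]
        simp only [Matrix.mulVec, dotProduct, Matrix.transpose_apply]
        refine Finset.sum_congr rfl fun j _ => ?_
        rw [← hM w j]
        ring
      rw [h2]
      have h3 : part p b l * (expD z * limG p b)⁻¹ =
          ((tv (p l) (step b l))⁻¹ * (limG p b * (part p b (l + 1))⁻¹)⁻¹) * (expD z)⁻¹ := by
        have h4 : part p b (l + 1) = tv (p l) (step b l) * part p b l := rfl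
        rw [h4]
        group
      rw [h3, ls_mul_expD_inv, ls_tv_inv_mul _ _ _ _ hw, Matrix.transpose_apply]
      ring
    rw [h1]
    refine lt_of_lt_of_le ?_ hε
    exact ls_entry_le (limG_bound' p b (l + 1)) i w hN.le (fun h => by rw [h]; exact hA)
      (Real.exp_pos _).le (hC i) hc ((by positivity : (0 : ℝ) ≤ _).trans hA) hd

/-- `exp(τ η) G b` is `ε`-short for `|τ|` large.

Proof. Let `c = min (η x) (-η y) > 0`, `C = ∑ |η i| > 0`, and take `T ≥ 0` from `window c C (ε/4)`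
(enlarge). Let `G = limG p b`, `s_l = part p b l`, `H_l = G s_l⁻¹`, `q_l = tv (p l) (step b l)`, so
`s_{l+1} = q_l s_l` and `H_l = H_{l+1} q_l`; `N_l = 2^{expo l}`; `(i, j) = p l`.

Let `τ ≥ T` and `l` as in `window`.
* If `i ≠ x`: then `q_l⁻¹ᵀ e_x = e_x` (`q_l⁻¹ᵀ = 1 - t E_{ji}`). The covector
  `u = N_l s_lᵀ e_x` is integral (`integral_part`) and nonzero, and
  `(exp(τη) G)⁻¹ᵀ u = N_l exp(-τη) H_l⁻¹ᵀ e_x = N_l exp(-τη) H_{l+1}⁻¹ᵀ e_x
   = N_l exp(-τη) (e_x + (H_{l+1}⁻¹ᵀ - 1) e_x)`; its entries are at most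
  `N_l e^{-τ η_x} + N_l e^{Cτ} dlt (l+1) < ε/4 + ε/4` in absolute value (`limG_bound'`).
* If `i = x`, then `j ≠ y` (as `p l ≠ (x, y)`) and `q_l e_y = e_y`. The vector `u = N_l s_l⁻¹ e_y`
  is integral and nonzero, and `exp(τη) G u = N_l exp(τη) H_{l+1} e_y`, with entries at most
  `N_l e^{τ η_y} + N_l e^{Cτ} dlt (l+1)` (`limG_bound`).
For `τ ≤ -T` use `|τ| = -τ` in `window` and, in the same way,
* if `j ≠ x`: the vector `u = N_l s_l⁻¹ e_x` (`q_l e_x = e_x`), entries at most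
  `N_l e^{-|τ| η_x} + N_l e^{C|τ|} dlt (l+1)`;
* if `j = x`: then `i ≠ y` and the covector `u = N_l s_lᵀ e_y`, entries at most
  `N_l e^{-τ η_y} + …`, `-τ η_y = -|τ| |η_y|`. -/
theorem line_short (p : ℕ → ι × ι) (η : Lie ι) (x y : ι) (hx : 0 < (η : ι → ℝ) x)
    (hy : (η : ι → ℝ) y < 0)
    (hp : ∀ l, (p l).1 ≠ (p l).2 ∧ ¬ ((p l).1 = x ∧ (p l).2 = y) ∧
      ¬ ((p l).1 = y ∧ (p l).2 = x)) (b : Dig) :
    ∀ ε : ℝ, 0 < ε → ∃ T : ℝ, ∀ τ : ℝ, T ≤ |τ| → Short (expD (τ • η) * limG p b) ε := by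
  intro ε hε
  set c : ℝ := min ((η : ι → ℝ) x) (-(η : ι → ℝ) y) with hcdef
  set C : ℝ := ∑ i, |(η : ι → ℝ) i| with hCdef
  have hc : 0 < c := lt_min hx (by linarith)
  have hCi : ∀ i, |(η : ι → ℝ) i| ≤ C := fun i =>
    Finset.single_le_sum (f := fun i => |(η : ι → ℝ) i|) (fun _ _ => abs_nonneg _)
      (Finset.mem_univ i)
  have hC : 0 < C := lt_of_lt_of_le (abs_pos.2 hx.ne') (hCi x)
  have hcx : c ≤ (η : ι → ℝ) x := min_le_left _ _
  have hcy : c ≤ -(η : ι → ℝ) y := min_le_right _ _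
  obtain ⟨T, hT⟩ := window c C (ε / 4) hc hC (by linarith)
  refine ⟨T, fun τ hτ => ?_⟩
  obtain ⟨l, h1, h2⟩ := hT |τ| hτ
  obtain ⟨hij, hxy, hyx⟩ := hp l
  have hz : ∀ i, ((τ • η : Lie ι) : ι → ℝ) i = τ * (η : ι → ℝ) i := fun i => rfl
  have hb1 : ∀ i, Real.exp (((τ • η : Lie ι) : ι → ℝ) i) ≤ Real.exp (C * |τ|) := by
    intro i
    rw [hz]
    refine Real.exp_le_exp.2 ((le_abs_self _).trans ?_)
    rw [abs_mul, mul_comm]
    exact mul_le_mul_of_nonneg_right (hCi i) (abs_nonneg _)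
  have hb2 : ∀ i, Real.exp (-(((τ • η : Lie ι) : ι → ℝ) i)) ≤ Real.exp (C * |τ|) := by
    intro i
    rw [hz]
    refine Real.exp_le_exp.2 ((neg_le_abs _).trans ?_)
    rw [abs_mul, mul_comm]
    exact mul_le_mul_of_nonneg_right (hCi i) (abs_nonneg _)
  have hN : (0 : ℝ) ≤ (2 : ℝ) ^ expo l := by positivity
  have hA : ∀ a : ℝ, a ≤ -(c * |τ|) → (2 : ℝ) ^ expo l * Real.exp a ≤ ε / 4 := fun a ha =>
    (mul_le_mul_of_nonneg_left (Real.exp_le_exp.2 ha) hN).trans h1.le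
  have hε4 : 0 ≤ ε / 4 := by linarith
  have hε2 : ε / 4 + ε / 4 ≤ ε := by linarith
  rcases le_total 0 τ with hτ0 | hτ0
  · rw [abs_of_nonneg hτ0] at *
    by_cases hi : (p l).1 = x
    · have hj : (p l).2 ≠ y := fun h => hxy ⟨hi, h⟩
      refine ls_vec p b l y hj (τ • η) hb1 hε4 (hA _ ?_) h2 hε2
      rw [hz]
      nlinarith
    · refine ls_covec p b l x hi (τ • η) hb2 hε4 (hA _ ?_) h2 hε2
      rw [hz]
      nlinarith
  · rw [abs_of_nonpos hτ0] at *
    by_cases hj : (p l).2 = x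
    · have hi : (p l).1 ≠ y := fun h => hyx ⟨h, hj⟩
      refine ls_covec p b l y hi (τ • η) hb2 hε4 (hA _ ?_) h2 hε2
      rw [hz]
      nlinarith
    · refine ls_vec p b l x hj (τ • η) hb1 hε4 (hA _ ?_) h2 hε2
      rw [hz]
      nlinarith

end Pool.Agent.W_MP_bb6588_an
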