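import Mathlib
import Pool.Agent.W_MP_bb6588_an.Choose
import Pool.Agent.W_MP_bb6588_an.LineShort
import Pool.Agent.W_MP_bb6588_an.Generic
import Pool.Agent.W_MP_bb6588_an.Reduce
import Pool.Agent.W_MP_bb6588_an.LimitLem

set_option autoImplicit false

/-!
# The main theorem
-/

namespace Pool.Agent.W_MP_bb6588_an

open Matrix Filter Topology Module

variable {ι : Type} [Fintype ι] [DecidableEq ι]

omit [DecidableEq ι] in
theorem tendsto_multiples (E : Submodule ℝ (Lie ι)) (η : E) (x : ι)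
    (hη : 0 < (((η : E) : Lie ι) : ι → ℝ) x) :
    Tendsto (fun k : ℕ => (k : ℝ) • η) atTop (cocompact E) := by
  rw [hasBasis_cocompact.tendsto_right_iff]
  intro K hK
  have hg : Continuous fun z : E => (((z : E) : Lie ι) : ι → ℝ) x :=
    (continuous_apply x).comp (continuous_subtype_val.comp continuous_subtype_val)
  obtain ⟨B, hB⟩ := (hK.image hg).bddAbove
  have h1 : Tendsto (fun k : ℕ => (k : ℝ) * (((η : E) : Lie ι) : ι → ℝ) x) atTop atTop :=
    tendsto_natCast_atTop_atTop.atTop_mul_const hη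
  filter_upwards [h1.eventually_gt_atTop B] with k hk hkK
  have h2 := hB ⟨_, hkK, rfl⟩
  have h3 : (((((k : ℝ) • η : E)) : Lie ι) : ι → ℝ) x = (k : ℝ) * (((η : E) : Lie ι) : ι → ℝ) x :=
    rfl
  simp only [h3] at h2
  linarith

/-- Main theorem.

Proof. Take `J, η` from `exists_J`, `x, y` from `exists_pos_neg` (they lie in `J`, and `x ≠ y`), `p`
from `exists_pairs`, `b` from `exists_generic`, and `g = h * limG p b`. Divergence:
`h exp(z) h⁻¹ g = h exp(z) limG p b`; `exp(z) limG p b` is `ε`-short for `z` outside a compact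
subset of `E` (`short_of_line`, `limG_fixOff`, `line_short`), multiply by `h` (`Short.mul_left`) and
use `tendsto_cocompact_of_short`. Not obvious: apply obviousness to the sequence
`z_k = k • η ∈ E`, which tends to infinity; we get `i` and `φ` with
`ρ_i(h exp(φ_k η) limG p b) v_i → 0`; multiply by `ρ_i(h)⁻¹`. -/
theorem main (E : Submodule ℝ (Lie ι)) (h1 : 1 ≤ finrank ℝ E)
    (h2 : finrank ℝ E + 2 ≤ Fintype.card ι) (h : SLR ι) (Γ : Subgroup (SLR ι))
    (hΓ : Subgroup.Commensurable Γ (SLZ ι)) :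
    ∃ g : SLR ι, IsDivergent Γ h E g ∧ ¬ IsObvious h E g := by
  obtain ⟨J, η, hηE, hη0, hηJ, hJ3, hline⟩ := exists_J E h1 h2
  obtain ⟨x, y, hx, hy⟩ := exists_pos_neg η hη0
  have hxJ : x ∈ J := by
    by_contra hc
    have := hηJ x hc
    linarith
  have hyJ : y ∈ J := by
    by_contra hc
    have := hηJ y hc
    linarith
  have hxy : x ≠ y := by
    rintro rfl
    linarith
  obtain ⟨p, hp, hinf⟩ := exists_pairs J hJ3 x y hxJ hyJ hxy
  obtain ⟨b, hb⟩ := exists_generic p J hJ3 x y hxJ hyJ hxy hinf η hηJ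
  refine ⟨h * limG p b, ?_, ?_⟩
  · refine tendsto_cocompact_of_short (cocompact E)
      (fun z : E => h * expD (z : Lie ι) * h⁻¹ * (h * limG p b)) ?_ Γ hΓ
    intro ε hε
    have hbd := bd_pos h
    have hε' : 0 < ε / bd h := div_pos hε hbd
    have key := short_of_line J E η hline hηE hηJ (limG p b)
      (limG_fixOff p J (fun l => ⟨(hp l).1, (hp l).2.1⟩) b)
      (line_short p η x y hx hy
        (fun l => ⟨(hp l).2.2.1, (hp l).2.2.2.1, (hp l).2.2.2.2⟩) b) (ε / bd h) hε'
    filter_upwards [key] with z hz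
    have h3 := hz.mul_left hε' h
    rw [mul_div_cancel₀ ε hbd.ne'] at h3
    have h4 : h * expD (z : Lie ι) * h⁻¹ * (h * limG p b) = h * (expD (z : Lie ι) * limG p b) := by
      group
    rw [h4]
    exact h3
  · rintro ⟨l, m, ρ, v, hρ, hv, hz⟩
    obtain ⟨i, φ, hφ, hlim⟩ := hz _ (tendsto_multiples E ⟨η, hηE⟩ x hx)
    refine hb (m i) (ρ i) (hρ i) (v i) (hv i) φ hφ ?_
    have hcont : Continuous fun w : Fin (m i) → ℝ =>
        ((ρ i h⁻¹ : GL (Fin (m i)) ℝ) : Matrix (Fin (m i)) (Fin (m i)) ℝ) *ᵥ w :=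
      Continuous.matrix_mulVec continuous_const continuous_id
    have h5 := (hcont.tendsto 0).comp hlim
    rw [Matrix.mulVec_zero] at h5
    refine h5.congr fun k => ?_
    simp only [Function.comp]
    rw [Matrix.mulVec_mulVec, ← Units.val_mul, ← map_mul]
    have h6 : h⁻¹ * (h * expD (((((φ k : ℕ) : ℝ) • (⟨η, hηE⟩ : E) : E)) : Lie ι) * h⁻¹ *
        (h * limG p b)) = expD (((φ k : ℕ) : ℝ) • η) * limG p b := by
      have : ((((φ k : ℕ) : ℝ) • (⟨η, hηE⟩ : E) : E) : Lie ι) = ((φ k : ℕ) : ℝ) • η := rfl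
      rw [this]
      group
    rw [h6]

end Pool.Agent.W_MP_bb6588_an
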